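import Pool.Agent.R977.WI.ALA

/-! `stmAL` (helper971). -/

set_option autoImplicit false
open MeasureTheory ProbabilityTheory Filter Set
open scoped ENNReal NNReal Topology

universe u

namespace Pool.Agent.R977.WI.AL

open Classical in
theorem aux_T {Ω κ : Type*} [Fintype κ] [MeasurableSpace Ω] (θ : ℕ → κ → Ω → ℝ) (K : ℝ) (i : ℕ)
    (h : ∀ j ≤ i, ∀ k, Measurable (θ j k)) (k : κ) :
    Measurable (fun ω => if (∀ j ≤ i, ∑ k, θ j k ω ^ 2 ≤ K) then θ i k ω else 0) := by
  refine Measurable.ite ?_ (h i le_rfl k) measurable_const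
  have : {ω | ∀ j ≤ i, ∑ k, θ j k ω ^ 2 ≤ K} = ⋂ j, ⋂ (_ : j ≤ i), {ω | ∑ k, θ j k ω ^ 2 ≤ K} := by
    ext ω; simp
  rw [this]
  refine MeasurableSet.iInter fun j => MeasurableSet.iInter fun hj => ?_
  exact measurableSet_le (Finset.measurable_sum _ fun k _ => (h j hj k).pow_const 2) measurable_const

theorem aux_M {Ω : Type*} [MeasurableSpace Ω] (f : Ω → ℝ) (hf : Measurable f) :
    Measurable (fun ω => 2 * f ω) := hf.const_mul 2

section
variable {Ω : Type u} [mΩ : MeasurableSpace Ω] {P : Measure Ω} (D : DSys P)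

open Classical in
/-- the truncated system -/
noncomputable def trunc (K : ℝ) : DSys P :=
  letI := D.fin
  { D with
    θ := fun i k ω => if (∀ j ≤ i, ∑ k, D.θ j k ω ^ 2 ≤ K) then D.θ i k ω else 0
    hθ := fun i k => @aux_T Ω D.κ _ (D.F i) D.θ K i
      (fun j hj k => (D.hθ j k).mono (D.mono hj) le_rfl) k }

/-- the doubled system -/
noncomputable def dbl : DSys P :=
  { D with
    θ := fun i k ω => 2 * D.θ i k ω
    hθ := fun i k => @aux_M Ω (D.F i) (D.θ i k) (D.hθ i k) }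

theorem dbl_E (i : ℕ) (ω : Ω) : (D.E i ω) ^ 2 = (dbl D).E i ω * Real.exp (D.V i ω) := by
  let _ := D.fin
  have hS : (dbl D).S i ω = 2 * D.S i ω := by
    simp only [DSys.S, dbl, Finset.mul_sum]
    refine Finset.sum_congr rfl fun j _ => Finset.sum_congr rfl fun k _ => ?_
    ring
  have hV : (dbl D).V i ω = 4 * D.V i ω := by
    simp only [DSys.V, dbl, Finset.mul_sum, Finset.sum_mul]
    refine Finset.sum_congr rfl fun j _ => Finset.sum_congr rfl fun k _ => ?_
    ring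
  simp only [DSys.E, hS, hV]
  rw [← Real.exp_nat_mul, ← Real.exp_add]
  congr 1
  push_cast; ring

theorem trunc_V (K : ℝ) (hK : 0 ≤ K) (i : ℕ) (ω : Ω) : (trunc D K).V i ω ≤ K * (i * D.δ) := by
  classical
  let _ := D.fin
  have h1 : (trunc D K).V i ω ≤ ∑ _j ∈ Finset.range i, K * D.δ := by
    simp only [DSys.V]
    refine Finset.sum_le_sum fun j _ => ?_
    show (∑ k, (if (∀ j' ≤ j, ∑ k, D.θ j' k ω ^ 2 ≤ K) then D.θ j k ω else 0) ^ 2) * D.δ ≤ K * D.δ
    refine mul_le_mul_of_nonneg_right ?_ D.hδ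
    split_ifs with h
    · exact h j le_rfl
    · simpa using hK
  refine h1.trans (le_of_eq ?_)
  rw [Finset.sum_const, Finset.card_range, nsmul_eq_mul]; ring

theorem trunc_E (K : ℝ) (ω : Ω) (m : ℕ) :
    (∃ i ≤ m, (trunc D K).E m ω = D.E i ω) ∧
    ((∀ i < m, (letI := D.fin; ∑ k, D.θ i k ω ^ 2) ≤ K) → (trunc D K).E m ω = D.E m ω) := by
  classical
  let _ := D.fin
  have hgood : ∀ m, (∀ i < m, (letI := D.fin; ∑ k, D.θ i k ω ^ 2) ≤ K) → (trunc D K).E m ω = D.E m ω := by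
    intro m h
    have hθ : ∀ j < m, ∀ k, (trunc D K).θ j k ω = D.θ j k ω := by
      intro j hj k
      show (if (∀ j' ≤ j, ∑ k, D.θ j' k ω ^ 2 ≤ K) then D.θ j k ω else 0) = _
      rw [if_pos]
      intro j' hj'
      exact h j' (lt_of_le_of_lt hj' hj)
    have hS : (trunc D K).S m ω = D.S m ω := by
      show ∑ j ∈ Finset.range m, ∑ k : D.κ, (trunc D K).θ j k ω * D.Δ j k ω = _
      refine Finset.sum_congr rfl fun j hj => Finset.sum_congr rfl fun k _ => ?_
      rw [hθ j (Finset.mem_range.mp hj) k]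
    have hV : (trunc D K).V m ω = D.V m ω := by
      show ∑ j ∈ Finset.range m, (∑ k : D.κ, (trunc D K).θ j k ω ^ 2) * D.δ = _
      refine Finset.sum_congr rfl fun j hj => ?_
      congr 1
      refine Finset.sum_congr rfl fun k _ => ?_
      rw [hθ j (Finset.mem_range.mp hj) k]
    simp only [DSys.E, hS, hV]
  refine ⟨?_, hgood m⟩
  induction m with
  | zero => exact ⟨0, le_rfl, hgood 0 (fun i hi => absurd hi (Nat.not_lt_zero _))⟩
  | succ m ih =>
    by_cases h : ∀ i < m + 1, (letI := D.fin; ∑ k, D.θ i k ω ^ 2) ≤ K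
    · exact ⟨m + 1, le_rfl, hgood _ h⟩
    · obtain ⟨i, hi, hE⟩ := ih
      refine ⟨i, by omega, ?_⟩
      rw [← hE]
      have hθ : ∀ k, (trunc D K).θ m k ω = 0 := by
        intro k
        show (if (∀ j' ≤ m, ∑ k, D.θ j' k ω ^ 2 ≤ K) then D.θ m k ω else 0) = _
        rw [if_neg]
        intro h'
        exact h fun i hi => h' i (Nat.lt_succ_iff.mp hi)
      have hS : (trunc D K).S (m + 1) ω = (trunc D K).S m ω := by
        simp only [DSys.S]
        rw [Finset.sum_range_succ]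
        simp [hθ]
      have hV : (trunc D K).V (m + 1) ω = (trunc D K).V m ω := by
        simp only [DSys.V]
        rw [Finset.sum_range_succ]
        simp [hθ]
      simp only [DSys.E, hS, hV]

end

theorem le_part {Ω : Type u} [MeasurableSpace Ω] (P : Measure Ω) [IsProbabilityMeasure P]
    (Z0 Z1 : Ω → ℝ) (D : ℕ → ℕ → DSys P)
    (hZ0nn : ∀ ω, 0 ≤ Z0 ω) (hZ0F : ∀ p k, Measurable[(D p k).F 0] Z0)
    (hae : ∀ᵐ ω ∂P, ∀ ε : ℝ, 0 < ε → ∀ᶠ p in atTop, ∀ᶠ k in atTop,
      Z1 ω ≤ Real.exp ε * (Z0 ω * (D p k).E (D p k).m ω)) :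
    ∫⁻ ω, ENNReal.ofReal (Z1 ω) ∂P ≤ ∫⁻ ω, ENNReal.ofReal (Z0 ω) ∂P := by
  have hz0m : Measurable Z0 := (hZ0F 0 0).mono ((D 0 0).le 0) le_rfl
  let A : ℕ → ℕ → Ω → ℝ≥0∞ := fun p k ω => ENNReal.ofReal (Z0 ω) * ENNReal.ofReal ((D p k).E (D p k).m ω)
  have hAm : ∀ p k, Measurable (A p k) := fun p k =>
    (ENNReal.measurable_ofReal.comp hz0m).mul
      (ENNReal.measurable_ofReal.comp ((measE (D p k) _).mono ((D p k).le _) le_rfl))
  have hAint : ∀ p k, ∫⁻ ω, A p k ω ∂P = ∫⁻ ω, ENNReal.ofReal (Z0 ω) ∂P := fun p k =>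
    lint_E (D p k) _ (ENNReal.measurable_ofReal.comp (hZ0F p k)) _
  have hε : ∀ ε : ℝ, 0 < ε → ENNReal.ofReal (Real.exp (-ε)) * ∫⁻ ω, ENNReal.ofReal (Z1 ω) ∂P ≤
      ∫⁻ ω, ENNReal.ofReal (Z0 ω) ∂P := by
    intro ε hε
    rw [← lintegral_const_mul' _ _ ENNReal.ofReal_ne_top]
    calc ∫⁻ ω, ENNReal.ofReal (Real.exp (-ε)) * ENNReal.ofReal (Z1 ω) ∂P
        ≤ ∫⁻ ω, liminf (fun p => liminf (fun k => A p k ω) atTop) atTop ∂P := by
          refine lintegral_mono_ae ?_
          filter_upwards [hae] with ω hω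
          refine le_liminf_of_le (by isBoundedDefault) ?_
          filter_upwards [hω ε hε] with p hp
          refine le_liminf_of_le (by isBoundedDefault) ?_
          filter_upwards [hp] with k hk
          simp only [A]
          rw [← ENNReal.ofReal_mul (Real.exp_pos _).le, ← ENNReal.ofReal_mul (hZ0nn ω)]
          refine ENNReal.ofReal_le_ofReal ?_
          calc Real.exp (-ε) * Z1 ω ≤ Real.exp (-ε) * (Real.exp ε * (Z0 ω * (D p k).E (D p k).m ω)) := by
                gcongr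
            _ = Z0 ω * (D p k).E (D p k).m ω := by
                rw [← mul_assoc, ← Real.exp_add]; simp
      _ ≤ liminf (fun p => ∫⁻ ω, liminf (fun k => A p k ω) atTop ∂P) atTop :=
          lintegral_liminf_le fun p => Measurable.liminf fun k => hAm p k
      _ ≤ liminf (fun _ : ℕ => ∫⁻ ω, ENNReal.ofReal (Z0 ω) ∂P) atTop := by
          refine liminf_le_liminf (Filter.Eventually.of_forall fun p => ?_)
          refine (lintegral_liminf_le fun k => hAm p k).trans ?_
          simp_rw [hAint]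
          simp
      _ = ∫⁻ ω, ENNReal.ofReal (Z0 ω) ∂P := by simp
  have hlim : Tendsto (fun n : ℕ => ENNReal.ofReal (Real.exp (-(1 / ((n : ℝ) + 1)))) *
      ∫⁻ ω, ENNReal.ofReal (Z1 ω) ∂P) atTop (𝓝 (1 * ∫⁻ ω, ENNReal.ofReal (Z1 ω) ∂P)) := by
    refine ENNReal.Tendsto.mul_const ?_ (Or.inl one_ne_zero)
    have h1 : Tendsto (fun n : ℕ => Real.exp (-(1 / ((n : ℝ) + 1)))) atTop (𝓝 (Real.exp (-0))) :=
      (Real.continuous_exp.tendsto _).comp tendsto_one_div_add_atTop_nhds_zero_nat.neg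
    rw [neg_zero, Real.exp_zero] at h1
    simpa using ENNReal.tendsto_ofReal h1
  rw [one_mul] at hlim
  exact le_of_tendsto' hlim fun n => hε _ (by positivity)

set_option maxHeartbeats 1000000 in
theorem ge_part {Ω : Type u} [MeasurableSpace Ω] (P : Measure Ω) [IsProbabilityMeasure P]
    (Z0 Z1 : Ω → ℝ) (C : ℝ) (D : ℕ → ℕ → DSys P)
    (hZ1 : Measurable Z1) (hZ0nn : ∀ ω, 0 ≤ Z0 ω) (hZ0C : ∀ ω, Z0 ω ≤ C)
    (hZ0F : ∀ p k, Measurable[(D p k).F 0] Z0)
    (hmδ : ∀ p k, ((D p k).m : ℝ) * (D p k).δ ≤ 1)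
    (hae : ∀ᵐ ω ∂P, ∀ ε : ℝ, 0 < ε → ∀ᶠ p in atTop, ∀ᶠ k in atTop,
      (∀ i ≤ (D p k).m, Z0 ω * (D p k).E i ω ≤ C * Real.exp ε) ∧
      Z0 ω * (D p k).E (D p k).m ω ≤ Real.exp ε * Z1 ω)
    (hK : ∀ᵐ ω ∂P, ∃ K : ℝ, ∀ p k i, i < (D p k).m →
      (letI := (D p k).fin; ∑ j, (D p k).θ i j ω ^ 2) ≤ K) :
    ∫⁻ ω, ENNReal.ofReal (Z0 ω) ∂P ≤ ∫⁻ ω, ENNReal.ofReal (Z1 ω) ∂P := by
  classical
  have hz0m : Measurable Z0 := (hZ0F 0 0).mono ((D 0 0).le 0) le_rfl
  obtain ⟨ω0⟩ : Nonempty Ω := P.nonempty_of_neZero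
  have hC : 0 ≤ C := (hZ0nn ω0).trans (hZ0C ω0)
  set c : ℝ≥0∞ := ENNReal.ofReal C with hc
  -- good sets
  let G : ℕ → Set Ω := fun K => {ω | ∀ p k i, i < (D p k).m →
      (letI := (D p k).fin; ∑ j, (D p k).θ i j ω ^ 2) ≤ (K : ℝ)}
  have hGm : ∀ K, MeasurableSet (G K) := by
    intro K
    have : G K = ⋂ p, ⋂ k, ⋂ i, ⋂ (_ : i < (D p k).m), {ω | (letI := (D p k).fin; ∑ j, (D p k).θ i j ω ^ 2) ≤ (K : ℝ)} := by
      ext ω; simp [G]
    rw [this]
    refine MeasurableSet.iInter fun p => MeasurableSet.iInter fun k => MeasurableSet.iInter fun i =>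
      MeasurableSet.iInter fun _ => ?_
    let _ := (D p k).fin
    exact measurableSet_le (Finset.measurable_sum _ fun j _ =>
      (((D p k).hθ i j).mono ((D p k).le i) le_rfl).pow_const 2) measurable_const
  have hGmono : ∀ K K' : ℕ, K ≤ K' → G K ⊆ G K' := by
    intro K K' h ω hω p k i hi
    exact (hω p k i hi).trans (by exact_mod_cast h)
  have hmain : ∀ K M : ℕ, ∫⁻ ω, ENNReal.ofReal (Z0 ω) ∂P ≤
      (∫⁻ ω, ENNReal.ofReal (Z1 ω) ∂P + c * P (G K)ᶜ) +
        ENNReal.ofReal (Real.exp K) * c ^ 2 / ((M : ℝ≥0∞) + 1) := by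
    intro K M
    set m : ℝ≥0∞ := (M : ℝ≥0∞) + 1 with hm
    have hm0 : m ≠ 0 := by simp [hm]
    have hmt : m ≠ ⊤ := by simp [hm]
    let B : ℕ → ℕ → Ω → ℝ≥0∞ := fun p k ω =>
      ENNReal.ofReal (Z0 ω) * ENNReal.ofReal ((trunc (D p k) K).E (D p k).m ω)
    have hEm : ∀ p k, Measurable ((trunc (D p k) K).E (D p k).m) := fun p k =>
      (measE (trunc (D p k) K) _).mono ((D p k).le _) le_rfl
    have hBm : ∀ p k, Measurable (B p k) := fun p k =>
      (ENNReal.measurable_ofReal.comp hz0m).mul (ENNReal.measurable_ofReal.comp (hEm p k))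
    have hBint : ∀ p k, ∫⁻ ω, B p k ω ∂P = ∫⁻ ω, ENNReal.ofReal (Z0 ω) ∂P := fun p k =>
      lint_E (trunc (D p k) K) _ (ENNReal.measurable_ofReal.comp (hZ0F p k)) _
    have hB2 : ∀ p k, ∫⁻ ω, (B p k ω) ^ 2 ∂P ≤ ENNReal.ofReal (Real.exp K) * c ^ 2 := by
      intro p k
      have h1 : ∀ ω, (B p k ω) ^ 2 ≤ ENNReal.ofReal (Real.exp K) *
          ((ENNReal.ofReal (Z0 ω)) ^ 2 * ENNReal.ofReal ((dbl (trunc (D p k) K)).E (D p k).m ω)) := by
        intro ω
        have hE0 : 0 ≤ (trunc (D p k) K).E (D p k).m ω := (Real.exp_pos _).le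
        have hE1 : 0 ≤ (dbl (trunc (D p k) K)).E (D p k).m ω := (Real.exp_pos _).le
        simp only [B]
        rw [mul_pow, ← ENNReal.ofReal_pow hE0, dbl_E, ENNReal.ofReal_mul hE1]
        have hV : (trunc (D p k) K).V (D p k).m ω ≤ K := by
          refine (trunc_V (D p k) K (Nat.cast_nonneg K) _ ω).trans ?_
          have := hmδ p k
          have hK0 : (0 : ℝ) ≤ K := Nat.cast_nonneg K
          nlinarith
        calc _ = ENNReal.ofReal (Real.exp ((trunc (D p k) K).V (D p k).m ω)) *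
              ((ENNReal.ofReal (Z0 ω)) ^ 2 * ENNReal.ofReal ((dbl (trunc (D p k) K)).E (D p k).m ω)) := by ring
          _ ≤ _ := by gcongr
      refine (lintegral_mono h1).trans ?_
      rw [lintegral_const_mul' _ _ ENNReal.ofReal_ne_top]
      gcongr
      have h2 : ∫⁻ ω, (ENNReal.ofReal (Z0 ω)) ^ 2 *
          ENNReal.ofReal ((dbl (trunc (D p k) K)).E (D p k).m ω) ∂P = ∫⁻ ω, (ENNReal.ofReal (Z0 ω)) ^ 2 ∂P :=
        lint_E (dbl (trunc (D p k) K)) (fun ω => (ENNReal.ofReal (Z0 ω)) ^ 2)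
          ((ENNReal.measurable_ofReal.pow_const 2).comp (hZ0F p k)) _
      rw [h2]
      calc ∫⁻ ω, (ENNReal.ofReal (Z0 ω)) ^ 2 ∂P ≤ ∫⁻ _, c ^ 2 ∂P := by
            refine lintegral_mono fun ω => ?_
            gcongr
            exact ENNReal.ofReal_le_ofReal (hZ0C ω)
        _ = c ^ 2 := by simp
    set Q : ℝ≥0∞ := ENNReal.ofReal (Real.exp K) * c ^ 2 / m with hQ
    set a : ℝ≥0∞ := ∫⁻ ω, ENNReal.ofReal (Z0 ω) ∂P - Q with ha
    have hstep : ∀ p k, a ≤ ∫⁻ ω, min (B p k ω) m ∂P := by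
      intro p k
      rw [ha, tsub_le_iff_right, ← hBint p k]
      calc ∫⁻ ω, B p k ω ∂P ≤ ∫⁻ ω, (min (B p k ω) m + (B p k ω) ^ 2 / m) ∂P := by
            refine lintegral_mono fun ω => ?_
            show B p k ω ≤ min (B p k ω) m + (B p k ω) ^ 2 / m
            rcases le_total (B p k ω) m with h | h
            · rw [min_eq_left h]; exact le_self_add
            · refine le_add_left ?_
              rw [ENNReal.le_div_iff_mul_le (Or.inl hm0) (Or.inl hmt), sq]
              gcongr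
        _ = ∫⁻ ω, min (B p k ω) m ∂P + (∫⁻ ω, (B p k ω) ^ 2 ∂P) / m := by
            rw [lintegral_add_left ((hBm p k).min measurable_const)]
            congr 1
            simp_rw [div_eq_mul_inv]
            rw [lintegral_mul_const _ ((hBm p k).pow_const 2)]
        _ ≤ ∫⁻ ω, min (B p k ω) m ∂P + Q := by
            rw [hQ]
            gcongr
            exact hB2 p k
    let R : Ω → ℝ≥0∞ := fun ω => ENNReal.ofReal (Z1 ω) + (G K)ᶜ.indicator (fun _ => c) ω
    have hR : a ≤ ∫⁻ ω, R ω ∂P := by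
      have h1 : ∀ p, a ≤ ∫⁻ ω, limsup (fun k => min (B p k ω) m) atTop ∂P := by
        intro p
        refine le_trans ?_ (limsup_lintegral_le (fun _ => m) (fun k => (hBm p k).min measurable_const)
          (fun k => Filter.Eventually.of_forall fun ω => min_le_right _ _) (by simp [hmt]))
        calc a = limsup (fun _ : ℕ => a) atTop := by simp
          _ ≤ _ := limsup_le_limsup (Filter.Eventually.of_forall fun k => hstep p k)
      have h2 : a ≤ ∫⁻ ω, limsup (fun p => limsup (fun k => min (B p k ω) m) atTop) atTop ∂P := by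
        refine le_trans ?_ (limsup_lintegral_le (fun _ => m)
          (fun p => Measurable.limsup fun k => (hBm p k).min measurable_const)
          (fun p => Filter.Eventually.of_forall fun ω => ?_) (by simp [hmt]))
        · calc a = limsup (fun _ : ℕ => a) atTop := by simp
            _ ≤ _ := limsup_le_limsup (Filter.Eventually.of_forall fun p => h1 p)
        · exact limsup_le_of_le (by isBoundedDefault)
            (Filter.Eventually.of_forall fun k => min_le_right _ _)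
      refine h2.trans (lintegral_mono_ae ?_)
      filter_upwards [hae] with ω hω
      have hRt : R ω ≠ ⊤ := by
        simp only [R]
        refine ENNReal.add_ne_top.mpr ⟨ENNReal.ofReal_ne_top, ?_⟩
        by_cases h : ω ∈ (G K)ᶜ
        · rw [indicator_of_mem h]; exact ENNReal.ofReal_ne_top
        · rw [indicator_of_notMem h]; simp
      have hε : ∀ ε : ℝ, 0 < ε → limsup (fun p => limsup (fun k => min (B p k ω) m) atTop) atTop ≤
          ENNReal.ofReal (Real.exp ε) * R ω := by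
        intro ε hε
        refine limsup_le_of_le (by isBoundedDefault) ?_
        filter_upwards [hω ε hε] with p hp
        refine limsup_le_of_le (by isBoundedDefault) ?_
        filter_upwards [hp] with k hk
        refine (min_le_left _ _).trans ?_
        obtain ⟨⟨i, him, hEi⟩, hgood⟩ := trunc_E (D p k) K ω (D p k).m
        by_cases h : ω ∈ G K
        · have hE := hgood (fun i hi => h p k i hi)
          have h3 : B p k ω ≤ ENNReal.ofReal (Real.exp ε) * ENNReal.ofReal (Z1 ω) := by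
            simp only [B]
            rw [hE, ← ENNReal.ofReal_mul (hZ0nn ω), ← ENNReal.ofReal_mul (Real.exp_pos _).le]
            exact ENNReal.ofReal_le_ofReal hk.2
          refine h3.trans ?_
          gcongr
          exact le_self_add
        · have h3 : B p k ω ≤ ENNReal.ofReal (Real.exp ε) * c := by
            simp only [B]
            rw [hEi, hc, ← ENNReal.ofReal_mul (hZ0nn ω), ← ENNReal.ofReal_mul (Real.exp_pos _).le]
            refine ENNReal.ofReal_le_ofReal ?_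
            rw [mul_comm (Real.exp ε)]
            exact hk.1 i him
          refine h3.trans ?_
          gcongr
          simp only [R]
          rw [indicator_of_mem (show ω ∈ (G K)ᶜ from h)]
          exact le_add_self
      have hlim : Tendsto (fun n : ℕ => ENNReal.ofReal (Real.exp (1 / ((n : ℝ) + 1))) * R ω) atTop
          (𝓝 (1 * R ω)) := by
        refine ENNReal.Tendsto.mul_const ?_ (Or.inl one_ne_zero)
        have h1 : Tendsto (fun n : ℕ => Real.exp (1 / ((n : ℝ) + 1))) atTop (𝓝 (Real.exp 0)) :=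
          (Real.continuous_exp.tendsto _).comp tendsto_one_div_add_atTop_nhds_zero_nat
        rw [Real.exp_zero] at h1
        simpa using ENNReal.tendsto_ofReal h1
      rw [one_mul] at hlim
      exact ge_of_tendsto' hlim fun n => hε _ (by positivity)
    have hR2 : ∫⁻ ω, R ω ∂P = ∫⁻ ω, ENNReal.ofReal (Z1 ω) ∂P + c * P (G K)ᶜ := by
      have hz1m : Measurable (fun ω => ENNReal.ofReal (Z1 ω)) := ENNReal.measurable_ofReal.comp hZ1
      simp only [R]
      rw [lintegral_add_left hz1m, lintegral_indicator_const (hGm K).compl]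
    rw [hR2] at hR
    rw [ha, tsub_le_iff_right] at hR
    exact hR
  -- M → ∞
  have hmain2 : ∀ K : ℕ, ∫⁻ ω, ENNReal.ofReal (Z0 ω) ∂P ≤
      ∫⁻ ω, ENNReal.ofReal (Z1 ω) ∂P + c * P (G K)ᶜ := by
    intro K
    have hlim : Tendsto (fun M : ℕ => (∫⁻ ω, ENNReal.ofReal (Z1 ω) ∂P + c * P (G K)ᶜ) +
        ENNReal.ofReal (Real.exp K) * c ^ 2 / ((M : ℝ≥0∞) + 1)) atTop
        (𝓝 ((∫⁻ ω, ENNReal.ofReal (Z1 ω) ∂P + c * P (G K)ᶜ) + ENNReal.ofReal (Real.exp K) * c ^ 2 / ⊤)) := by
      refine tendsto_const_nhds.add (ENNReal.Tendsto.const_div ?_ (Or.inr ?_))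
      · have : Tendsto (fun M : ℕ => ((M + 1 : ℕ) : ℝ≥0∞)) atTop (𝓝 ⊤) :=
          ENNReal.tendsto_nat_nhds_top.comp (tendsto_add_atTop_nat 1)
        simpa using this
      · exact ENNReal.mul_ne_top ENNReal.ofReal_ne_top (ENNReal.pow_ne_top ENNReal.ofReal_ne_top)
    rw [ENNReal.div_top, add_zero] at hlim
    exact ge_of_tendsto' hlim fun M => hmain K M
  have hPG : Tendsto (fun K : ℕ => P (G K)ᶜ) atTop (𝓝 0) := by
    have h1 : Tendsto (fun K : ℕ => P (G K)ᶜ) atTop (𝓝 (P (⋂ K, (G K)ᶜ))) := by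
      refine tendsto_measure_iInter_atTop (fun K => (hGm K).compl.nullMeasurableSet) ?_ ⟨0, measure_ne_top _ _⟩
      intro K K' h
      exact compl_subset_compl.mpr (hGmono K K' h)
    have h2 : P (⋂ K, (G K)ᶜ) = 0 := by
      rw [← nonpos_iff_eq_zero]
      refine le_of_le_of_eq (measure_mono_ae ?_) (measure_empty (μ := P))
      filter_upwards [hK] with ω hω
      intro h
      obtain ⟨K, hK'⟩ := hω
      obtain ⟨K', hKK'⟩ := exists_nat_ge K
      have h3 := mem_iInter.mp h K'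
      exact absurd (fun p k i hi => (hK' p k i hi).trans hKK') h3
    rwa [h2] at h1
  have hlim2 : Tendsto (fun K : ℕ => ∫⁻ ω, ENNReal.ofReal (Z1 ω) ∂P + c * P (G K)ᶜ) atTop
      (𝓝 (∫⁻ ω, ENNReal.ofReal (Z1 ω) ∂P + c * 0)) :=
    tendsto_const_nhds.add (ENNReal.Tendsto.const_mul hPG (Or.inr ENNReal.ofReal_ne_top))
  rw [mul_zero, add_zero] at hlim2
  exact ge_of_tendsto' hlim2 hmain2

end Pool.Agent.R977.WI.AL

namespace Pool.Agent.R977.WI

theorem stmAL : StmAL.{u} := by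
  intro Ω _ P _ Z0 Z1 C D hZ1 hZ0nn hZ0C _ hZ0F hmδ hae hK
  refine le_antisymm ?_ ?_
  · refine AL.le_part P Z0 Z1 D hZ0nn hZ0F ?_
    filter_upwards [hae] with ω hω ε hε
    filter_upwards [hω ε hε] with p hp
    filter_upwards [hp] with k hk
    exact hk.2.2
  · refine AL.ge_part P Z0 Z1 C D hZ1 hZ0nn hZ0C hZ0F hmδ ?_ hK
    filter_upwards [hae] with ω hω ε hε
    filter_upwards [hω ε hε] with p hp
    filter_upwards [hp] with k hk
    exact ⟨hk.1, hk.2.1⟩

end Pool.Agent.R977.WI
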