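import Pool.Agent.R977.WI.Stm

/-! Helper for `stmAL` (helper971): the one step identity and the exponential martingale. -/

set_option autoImplicit false
open MeasureTheory ProbabilityTheory Filter Set
open scoped ENNReal NNReal Topology

universe u

namespace Pool.Agent.R977.WI.AL

theorem lintegral_fin_prod {n : ℕ} (μ : Fin n → Measure ℝ)
    [∀ i, SigmaFinite (μ i)] (f : Fin n → ℝ → ℝ≥0∞) (hf : ∀ i, Measurable (f i)) :
    ∫⁻ x : Fin n → ℝ, ∏ i, f i (x i) ∂(Measure.pi μ) = ∏ i, ∫⁻ x, f i x ∂(μ i) := by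
  induction n with
  | zero => simp
  | succ n n_ih =>
      calc
        _ = ∫⁻ x : ℝ × (Fin n → ℝ),
            f 0 x.1 * ∏ i : Fin n, f (Fin.succ i) (x.2 i)
            ∂((μ 0).prod (Measure.pi (fun i ↦ μ i.succ))) := by
          rw [← ((measurePreserving_piFinSuccAbove μ 0).symm).lintegral_comp_emb
            (MeasurableEquiv.measurableEmbedding _)]
          simp_rw [MeasurableEquiv.piFinSuccAbove_symm_apply, Fin.insertNthEquiv,
            Fin.prod_univ_succ, Fin.insertNth_zero, Equiv.coe_fn_mk, Fin.cons_succ,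
            Fin.zero_succAbove, cast_eq, Fin.cons_zero]
        _ = (∫⁻ x, f 0 x ∂μ 0)
            * ∏ i : Fin n, ∫⁻ (x : ℝ), f (Fin.succ i) x ∂(μ i.succ) := by
          rw [← n_ih (fun i => μ i.succ) (fun i => f i.succ) (fun i => hf _)]
          exact lintegral_prod_mul (hf 0).aemeasurable (Finset.measurable_prod _ (fun i _ =>
            (hf _).comp (measurable_pi_apply i))).aemeasurable
        _ = ∏ i, ∫⁻ x, f i x ∂(μ i) := by rw [Fin.prod_univ_succ]

theorem lintegral_fintype_prod {ι : Type*} [Fintype ι] (μ : ι → Measure ℝ)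
    [∀ i, SigmaFinite (μ i)] (f : ι → ℝ → ℝ≥0∞) (hf : ∀ i, Measurable (f i)) :
    ∫⁻ x : ι → ℝ, ∏ i, f i (x i) ∂(Measure.pi μ) = ∏ i, ∫⁻ x, f i x ∂(μ i) := by
  let e := (Fintype.equivFin ι).symm
  rw [← (measurePreserving_piCongrLeft _ e).lintegral_comp_emb
    (MeasurableEquiv.measurableEmbedding _)]
  simp_rw [← e.prod_comp, MeasurableEquiv.coe_piCongrLeft, Equiv.piCongrLeft_apply_apply]
  exact lintegral_fin_prod (fun i => μ (e i)) (fun i => f (e i)) (fun i => hf _)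

theorem gstep (δ : ℝ) (hδ : 0 ≤ δ) (t : ℝ) :
    ∫⁻ x, ENNReal.ofReal (Real.exp (-(t * x) - t ^ 2 * δ / 2)) ∂(gaussianReal 0 δ.toNNReal) = 1 := by
  have h1 : ∀ x : ℝ, Real.exp (-(t * x) - t ^ 2 * δ / 2) = Real.exp ((-t) * x) * Real.exp (-(t ^ 2 * δ / 2)) := by
    intro x; rw [← Real.exp_add]; congr 1; ring
  simp_rw [h1]
  rw [← ofReal_integral_eq_lintegral_ofReal ((integrable_exp_mul_gaussianReal _).mul_const _)
    (Filter.Eventually.of_forall fun _ => by positivity), integral_mul_const]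
  have h2 := mgf_gaussianReal (p := gaussianReal 0 δ.toNNReal) (X := id) (μ := 0) (v := δ.toNNReal)
    (by simp) (-t)
  simp only [mgf, id] at h2
  rw [h2, ← Real.exp_add, Real.coe_toNNReal _ hδ]
  have : 0 * -t + δ * (-t) ^ 2 / 2 + -(t ^ 2 * δ / 2) = 0 := by ring
  rw [this]; simp

theorem aux_prod {Ω κ : Type*} [MeasurableSpace Ω] (H : Ω → ℝ≥0∞) (hH : Measurable H)
    (θ : κ → Ω → ℝ) (hθ : ∀ k, Measurable (θ k)) :
    Measurable (fun ω => ((H ω, fun k => θ k ω) : ℝ≥0∞ × (κ → ℝ))) :=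
  hH.prodMk (measurable_pi_lambda _ hθ)

theorem aux_S {Ω κ : Type*} [Fintype κ] [MeasurableSpace Ω] (θ Δ : ℕ → κ → Ω → ℝ) (i : ℕ)
    (h1 : ∀ j < i, ∀ k, Measurable (θ j k)) (h2 : ∀ j < i, ∀ k, Measurable (Δ j k)) :
    Measurable (fun ω => ∑ j ∈ Finset.range i, ∑ k, θ j k ω * Δ j k ω) :=
  Finset.measurable_sum _ fun j hj => Finset.measurable_sum _ fun k _ =>
    (h1 j (Finset.mem_range.mp hj) k).mul (h2 j (Finset.mem_range.mp hj) k)

theorem aux_V {Ω κ : Type*} [Fintype κ] [MeasurableSpace Ω] (θ : ℕ → κ → Ω → ℝ) (δ : ℝ) (i : ℕ)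
    (h1 : ∀ j < i, ∀ k, Measurable (θ j k)) :
    Measurable (fun ω => ∑ j ∈ Finset.range i, (∑ k, θ j k ω ^ 2) * δ) :=
  Finset.measurable_sum _ fun j hj => (Finset.measurable_sum _ fun k _ =>
    (h1 j (Finset.mem_range.mp hj) k).pow_const 2).mul_const δ

theorem aux_E {Ω : Type*} [MeasurableSpace Ω] (S V : Ω → ℝ) (hS : Measurable S) (hV : Measurable V) :
    Measurable (fun ω => Real.exp (- S ω - V ω / 2)) := by fun_prop

theorem aux_G {Ω : Type*} [MeasurableSpace Ω] (G : Ω → ℝ≥0∞) (E : Ω → ℝ) (hG : Measurable G)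
    (hE : Measurable E) : Measurable (fun ω => G ω * ENNReal.ofReal (E ω)) := by fun_prop

set_option maxHeartbeats 1000000 in
theorem one_step {Ω : Type*} (F : MeasurableSpace Ω) [mΩ : MeasurableSpace Ω] {P : Measure Ω}
    [IsProbabilityMeasure P]
    {κ : Type} [Fintype κ] (δ : ℝ) (hδ : 0 ≤ δ) (hF : F ≤ mΩ)
    (Δ : κ → Ω → ℝ) (hΔ : ∀ k, Measurable (Δ k))
    (law : ∀ k, P.map (Δ k) = gaussianReal 0 δ.toNNReal) (iid : iIndepFun Δ P)
    (ind : Indep (MeasurableSpace.comap (fun ω k => Δ k ω) MeasurableSpace.pi) F P)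
    (θ : κ → Ω → ℝ) (hθ : ∀ k, Measurable[F] (θ k)) (H : Ω → ℝ≥0∞) (hH : Measurable[F] H) :
    ∫⁻ ω, H ω * ENNReal.ofReal (Real.exp (-(∑ k, θ k ω * Δ k ω) - (∑ k, θ k ω ^ 2) * δ / 2)) ∂P
      = ∫⁻ ω, H ω ∂P := by
  classical
  let X : Ω → κ → ℝ := fun ω k => Δ k ω
  let Y : Ω → ℝ≥0∞ × (κ → ℝ) := fun ω => (H ω, fun k => θ k ω)
  have hX : Measurable X := measurable_pi_lambda _ hΔ
  have hYF : Measurable[F] Y := @aux_prod Ω κ F H hH θ hθ
  have hY : Measurable Y := hYF.mono hF le_rfl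
  have hXY : IndepFun X Y P := by
    rw [IndepFun_iff_Indep]
    exact indep_of_indep_of_le_right ind (measurable_iff_comap_le.mp hYF)
  have hmap := (indepFun_iff_map_prod_eq_prod_map_map hX.aemeasurable hY.aemeasurable).mp hXY
  have hXlaw : P.map X = Measure.pi (fun _ : κ => gaussianReal 0 δ.toNNReal) := by
    have := (iIndepFun_iff_map_fun_eq_pi_map (fun k => (hΔ k).aemeasurable)).mp iid
    simp only [X]
    rw [this]
    congr 1
    funext k
    exact law k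
  let φ : (κ → ℝ) × (ℝ≥0∞ × (κ → ℝ)) → ℝ≥0∞ := fun z =>
    z.2.1 * ENNReal.ofReal (Real.exp (-(∑ k, z.2.2 k * z.1 k) - (∑ k, z.2.2 k ^ 2) * δ / 2))
  have hφ : Measurable φ := by
    refine (measurable_fst.comp measurable_snd).mul ?_
    refine ENNReal.measurable_ofReal.comp (Real.measurable_exp.comp ?_)
    have h1 : Measurable (fun z : (κ → ℝ) × (ℝ≥0∞ × (κ → ℝ)) => ∑ k, z.2.2 k * z.1 k) :=
      Finset.measurable_sum _ fun k _ =>
        ((measurable_pi_apply k).comp (measurable_snd.comp measurable_snd)).mul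
          ((measurable_pi_apply k).comp measurable_fst)
    have h2 : Measurable (fun z : (κ → ℝ) × (ℝ≥0∞ × (κ → ℝ)) => ∑ k, z.2.2 k ^ 2) :=
      Finset.measurable_sum _ fun k _ =>
        ((measurable_pi_apply k).comp (measurable_snd.comp measurable_snd)).pow_const 2
    exact h1.neg.sub ((h2.mul_const δ).div_const 2)
  have h1 : ∫⁻ ω, H ω * ENNReal.ofReal (Real.exp (-(∑ k, θ k ω * Δ k ω) - (∑ k, θ k ω ^ 2) * δ / 2)) ∂P
      = ∫⁻ z, φ z ∂(P.map (fun ω => (X ω, Y ω))) := by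
    rw [lintegral_map hφ (hX.prodMk hY)]
  haveI : IsProbabilityMeasure (P.map X) := Measure.isProbabilityMeasure_map hX.aemeasurable
  haveI : IsProbabilityMeasure (P.map Y) := Measure.isProbabilityMeasure_map hY.aemeasurable
  rw [h1, hmap, lintegral_prod_symm _ hφ.aemeasurable]
  have h2 : ∀ y : ℝ≥0∞ × (κ → ℝ), ∫⁻ x, φ (x, y) ∂(P.map X) = y.1 := by
    intro y
    simp only [φ]
    have hm : Measurable (fun x : κ → ℝ =>
        ENNReal.ofReal (Real.exp (-(∑ k, y.2 k * x k) - (∑ k, y.2 k ^ 2) * δ / 2))) := by fun_prop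
    rw [lintegral_const_mul _ hm, hXlaw]
    have h3 : ∀ x : κ → ℝ, ENNReal.ofReal (Real.exp (-(∑ k, y.2 k * x k) - (∑ k, y.2 k ^ 2) * δ / 2)) =
        ∏ k, ENNReal.ofReal (Real.exp (-(y.2 k * x k) - y.2 k ^ 2 * δ / 2)) := by
      intro x
      rw [← ENNReal.ofReal_prod_of_nonneg (fun i _ => (Real.exp_pos _).le), ← Real.exp_sum]
      congr 2
      rw [Finset.sum_sub_distrib, Finset.sum_neg_distrib, Finset.sum_mul, Finset.sum_div]
    simp_rw [h3]
    rw [lintegral_fintype_prod (fun _ : κ => gaussianReal 0 δ.toNNReal)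
      (fun k x => ENNReal.ofReal (Real.exp (-(y.2 k * x) - y.2 k ^ 2 * δ / 2))) (fun k => by fun_prop)]
    simp_rw [gstep δ hδ]
    simp
  simp_rw [h2]
  rw [lintegral_map measurable_fst hY]

section
variable {Ω : Type u} [mΩ : MeasurableSpace Ω] {P : Measure Ω} [IsProbabilityMeasure P] (D : DSys P)

omit [IsProbabilityMeasure P] in
theorem measS (i : ℕ) : Measurable[D.F i] (D.S i) := by
  let _ := D.fin
  exact @aux_S Ω D.κ _ (D.F i) D.θ D.Δ i (fun j hj k => (D.hθ j k).mono (D.mono hj.le) le_rfl)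
    (fun j hj k => (D.hΔ j k).mono (D.mono hj) le_rfl)

omit [IsProbabilityMeasure P] in
theorem measV (i : ℕ) : Measurable[D.F i] (D.V i) := by
  let _ := D.fin
  exact @aux_V Ω D.κ _ (D.F i) D.θ D.δ i (fun j hj k => (D.hθ j k).mono (D.mono hj.le) le_rfl)

omit [IsProbabilityMeasure P] in
theorem measE (i : ℕ) : Measurable[D.F i] (D.E i) :=
  @aux_E Ω (D.F i) _ _ (measS D i) (measV D i)

theorem lint_E (G : Ω → ℝ≥0∞) (hG : Measurable[D.F 0] G) (i : ℕ) :
    ∫⁻ ω, G ω * ENNReal.ofReal (D.E i ω) ∂P = ∫⁻ ω, G ω ∂P := by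
  let _ := D.fin
  induction i with
  | zero => simp [DSys.E, DSys.S, DSys.V]
  | succ i ih =>
    rw [← ih]
    have hGi : Measurable[D.F i] G := hG.mono (D.mono (Nat.zero_le _)) le_rfl
    have hH : Measurable[D.F i] (fun ω => G ω * ENNReal.ofReal (D.E i ω)) :=
      @aux_G Ω (D.F i) G (D.E i) hGi (measE D i)
    rw [← one_step (D.F i) D.δ D.hδ (D.le i) (D.Δ i) (fun k => (D.hΔ i k).mono (D.le _) le_rfl)
      (D.law i) (D.iid i) (D.ind i) (D.θ i) (D.hθ i) _ hH]
    refine lintegral_congr fun ω => ?_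
    have hpos : 0 ≤ D.E i ω := (Real.exp_pos _).le
    rw [mul_assoc, ← ENNReal.ofReal_mul hpos]
    congr 2
    simp only [DSys.E, DSys.S, DSys.V]
    rw [← Real.exp_add, Finset.sum_range_succ, Finset.sum_range_succ]
    congr 1
    ring

end

end Pool.Agent.R977.WI.AL
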