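import Mathlib

/-! Definitions for MP_f9c8f0_pr: infinite-dimensional Wishart processes. -/

set_option autoImplicit false

open MeasureTheory ProbabilityTheory Filter Set
open scoped ENNReal NNReal Topology RealInnerProductSpace

universe u v

namespace Pool.Agent.R977.WI

variable {H : Type u} [NormedAddCommGroup H] [InnerProductSpace ℝ H]

/-- `T` is a strongly continuous semigroup of bounded operators `T t = e^{tA}` (only the times
`t ≥ 0` matter) -/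
structure IsC0Semigroup (T : ℝ → H →L[ℝ] H) : Prop where
  zero : T 0 = ContinuousLinearMap.id ℝ H
  add : ∀ s t, 0 ≤ s → 0 ≤ t → T (s + t) = (T s).comp (T t)
  cont : ∀ g, ContinuousOn (fun t => T t g) (Ici 0)

/-- `g` is in the domain `D(A)` of the generator `A` of the semigroup `T`, and `A g = a` -/
def Gen (T : ℝ → H →L[ℝ] H) (g a : H) : Prop :=
  Tendsto (fun t : ℝ => t⁻¹ • (T t g - g)) (𝓝[>] 0) (𝓝 a)

/-- the generator `A` of `T` is unbounded -/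
def GenUnbounded (T : ℝ → H →L[ℝ] H) : Prop :=
  ¬ ∃ C : ℝ, ∀ g a, Gen T g a → ‖a‖ ≤ C * ‖g‖

/-- The coordinates `β k l t = ⟨W_t (e l), e k⟩` of an `L_2(H)`-cylindrical Brownian motion `W`
with respect to the filtration `F`: independent standard `F`-Brownian motions. -/
structure IsCylBM {Ω : Type v} {mΩ : MeasurableSpace Ω} (P : Measure Ω) (F : Filtration ℝ mΩ)
    (β : ℕ → ℕ → ℝ → Ω → ℝ) : Prop where
  adapted : ∀ k l t, 0 ≤ t → Measurable[F t] (β k l t)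
  zero : ∀ k l, ∀ᵐ ω ∂P, β k l 0 ω = 0
  cont : ∀ k l, ∀ᵐ ω ∂P, ContinuousOn (fun t => β k l t ω) (Ici 0)
  law : ∀ k l s t, 0 ≤ s → s ≤ t →
    P.map (fun ω => β k l t ω - β k l s ω) = gaussianReal 0 (t - s).toNNReal
  iid : ∀ s t, 0 ≤ s → s ≤ t →
    iIndepFun (fun (kl : ℕ × ℕ) ω => β kl.1 kl.2 t ω - β kl.1 kl.2 s ω) P
  indep : ∀ s t, 0 ≤ s → s ≤ t →
    Indep (MeasurableSpace.comap (fun ω (kl : ℕ × ℕ) => β kl.1 kl.2 t ω - β kl.1 kl.2 s ω)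
      MeasurableSpace.pi) (F s) P

/-- The stochastic integral at time `t` of the simple process obtained from
`s ↦ f_s ⊗ v ∈ L_2(H)` by freezing it at the dyadic times `i/2^n` and by keeping the coordinates
`k, l < n`:
`∑_i ∑_{k,l<n} ⟨f_{i/2^n}, e_k⟩⟨v, e_l⟩ (β_{kl}(t ∧ (i+1)/2^n) - β_{kl}(t ∧ i/2^n))`. -/
noncomputable def itoSum (e : HilbertBasis ℕ ℝ H) {Ω : Type v} (β : ℕ → ℕ → ℝ → Ω → ℝ)
    (f : ℝ → Ω → H) (v : H) (n : ℕ) (t : ℝ) (ω : Ω) : ℝ :=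
  ∑ i ∈ Finset.range ⌈t * 2 ^ n⌉₊, ∑ k ∈ Finset.range n, ∑ l ∈ Finset.range n,
    ⟪f ((i : ℝ) / 2 ^ n) ω, e k⟫ * ⟪v, e l⟫ *
      (β k l (min t (((i : ℝ) + 1) / 2 ^ n)) ω - β k l ((i : ℝ) / 2 ^ n) ω)

/-- `I` is the stochastic integral process `I_t = ∫_0^t ⟨f_s, dW_s v⟩` of the continuous adapted
`L_2(H)`-valued process `s ↦ f_s ⊗ v`: the continuous process which is the limit, uniformly on
compact time intervals in probability, of the integrals of the simple processes above. -/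
def IsIto {Ω : Type v} {mΩ : MeasurableSpace Ω} (P : Measure Ω) (e : HilbertBasis ℕ ℝ H)
    (β : ℕ → ℕ → ℝ → Ω → ℝ) (f : ℝ → Ω → H) (v : H) (I : ℝ → Ω → ℝ) : Prop :=
  (∀ᵐ ω ∂P, ContinuousOn (fun t => I t ω) (Ici 0)) ∧
  ∀ τ ε : ℝ, 0 < τ → 0 < ε →
    Tendsto (fun n : ℕ => P {ω | ∃ t ∈ Icc 0 τ, ε < |itoSum e β f v n t ω - I t ω|}) atTop (𝓝 0)

/-- `X` solves the Wishart equation
`dX = (α Q + X A + A* X) dt + √X dW √Q + √Q dW* √X`
(analytically and probabilistically weak). `SQ` is the positive square root of `Q` and `R t ω` is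
the positive square root of `X t ω`. Note that
`⟨√X dW √Q g, h⟩ = ⟨√X h, dW √Q g⟩` and `⟨√Q dW* √X g, h⟩ = ⟨√X g, dW √Q h⟩`. -/
structure IsWishartSolution {Ω : Type v} {mΩ : MeasurableSpace Ω} (P : Measure Ω)
    (F : Filtration ℝ mΩ) (e : HilbertBasis ℕ ℝ H) (β : ℕ → ℕ → ℝ → Ω → ℝ)
    (T : ℝ → H →L[ℝ] H) (Q SQ : H →L[ℝ] H) (α : ℝ) (X R : ℝ → Ω → H →L[ℝ] H) : Prop where
  bm : IsCylBM P F β
  /-- `X` and its square root are adapted -/
  adapted : ∀ t, 0 ≤ t → StronglyMeasurable[F t] (X t)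
  adaptedR : ∀ t, 0 ≤ t → ∀ g h, Measurable[F t] (fun ω => ⟪R t ω g, h⟫)
  /-- `X` takes values in the positive trace class operators -/
  pos : ∀ t ω, 0 ≤ t → (X t ω).IsPositive
  trace : ∀ t ω, 0 ≤ t → Summable (fun k => ⟪X t ω (e k), e k⟫)
  /-- `X` has continuous paths in trace norm -/
  cont : ∀ᵐ ω ∂P, ContinuousOn (fun t => X t ω) (Ici 0)
  contTrace : ∀ᵐ ω ∂P, ContinuousOn (fun t => ∑' k, ⟪X t ω (e k), e k⟫) (Ici 0)
  /-- `R t ω` is the positive square root of `X t ω` -/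
  posR : ∀ t ω, 0 ≤ t → (R t ω).IsPositive
  sqR : ∀ t ω, 0 ≤ t → (R t ω).comp (R t ω) = X t ω
  /-- the initial value is integrable -/
  init : ∫⁻ ω, ENNReal.ofReal (∑' k, ⟪X 0 ω (e k), e k⟫) ∂P < ⊤
  /-- the equation -/
  eqn : ∀ g a h b, Gen T g a → Gen T h b → ∃ I J : ℝ → Ω → ℝ,
    IsIto P e β (fun s ω => R s ω h) (SQ g) I ∧ IsIto P e β (fun s ω => R s ω g) (SQ h) J ∧
    ∀ t, 0 ≤ t → ∀ᵐ ω ∂P, ⟪X t ω g, h⟫ = ⟪X 0 ω g, h⟫
      + (∫ s in (0 : ℝ)..t, (α * ⟪Q g, h⟫ + ⟪X s ω a, h⟫ + ⟪X s ω g, b⟫)) + I t ω + J t ω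

end Pool.Agent.R977.WI
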