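import Pool.Agent.R977.WI.GA

/-! `stmG` (helper971). -/

set_option autoImplicit false
open MeasureTheory ProbabilityTheory Filter Set
open scoped ENNReal NNReal Topology

universe u

namespace Pool.Agent.R977.WI.G

noncomputable def qf {Ω : Type*} {n : ℕ} (N : Fin n → Fin n → Ω → ℝ) (ω : Ω) (x : Fin n → ℝ) : ℝ :=
  ∑ i, ∑ j, x i * x j * N i j ω

noncomputable def gE {n : ℕ} (x : Fin n → ℝ) : ℝ≥0∞ :=
  ENNReal.ofReal (Real.exp (-(∑ i, x i ^ 2) / 2))

noncomputable def Ph {Ω : Type*} {n : ℕ} (N : Fin n → Fin n → Ω → ℝ) (α l : ℝ) (ω : Ω) : ℝ≥0∞ :=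
  ENNReal.ofReal (l ^ (α / 2)) *
    ∫⁻ x : Fin n → ℝ, ENNReal.ofReal (Real.exp (-(l * qf N ω x))) * gE x

section
variable {Ω : Type*} [MeasurableSpace Ω] {n : ℕ} {N : Fin n → Fin n → Ω → ℝ}

theorem meas_qf (hN : ∀ i j, Measurable (N i j)) :
    Measurable (fun p : Ω × (Fin n → ℝ) => qf N p.1 p.2) := by
  unfold qf
  refine Finset.measurable_sum _ fun i _ => Finset.measurable_sum _ fun j _ => ?_
  exact (((measurable_pi_apply i).comp measurable_snd).mul
    ((measurable_pi_apply j).comp measurable_snd)).mul ((hN i j).comp measurable_fst)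

theorem meas_gE : Measurable (gE (n := n)) := by
  unfold gE
  fun_prop

theorem meas_E (hN : ∀ i j, Measurable (N i j)) (l : ℝ) :
    Measurable (fun p : Ω × (Fin n → ℝ) => ENNReal.ofReal (Real.exp (-(l * qf N p.1 p.2)))) := by
  have := meas_qf hN
  fun_prop

theorem meas_Ph (hN : ∀ i j, Measurable (N i j)) (α l : ℝ) : Measurable (Ph N α l) := by
  unfold Ph
  refine Measurable.const_mul ?_ _
  exact Measurable.lintegral_prod_right' (f := fun p : Ω × (Fin n → ℝ) =>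
    ENNReal.ofReal (Real.exp (-(l * qf N p.1 p.2))) * gE p.2)
    ((meas_E hN l).mul (meas_gE.comp measurable_snd))

theorem gauss1 (b : ℝ) (hb : 0 < b) :
    ∫⁻ t : ℝ, ENNReal.ofReal (Real.exp (-b * t ^ 2)) = ENNReal.ofReal (√(Real.pi / b)) := by
  rw [← integral_gaussian, ofReal_integral_eq_lintegral_ofReal (integrable_exp_neg_mul_sq hb)
    (Filter.Eventually.of_forall fun _ => (Real.exp_pos _).le)]

omit [MeasurableSpace Ω] in
theorem Ph_eq (hsym : ∀ i j ω, N i j ω = N j i ω) (ω : Ω)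
    (hpsd : ∀ x : Fin n → ℝ, 0 ≤ ∑ i, ∑ j, x i * x j * N i j ω) (α : ℝ) :
    ∃ ν : Fin n → ℝ, (∀ i, 0 ≤ ν i) ∧ ∀ l : ℝ, 0 < l →
      Ph N α l ω = ENNReal.ofReal (l ^ (α / 2) * ∏ i, √(Real.pi / (l * ν i + 1 / 2))) := by
  classical
  obtain ⟨ν, T, hT, hform, hnorm, -, hsurj⟩ := diag_form (fun i j => N i j ω) (fun i j => hsym i j ω)
  have hν0 : ∀ i, 0 ≤ ν i := by
    intro i
    obtain ⟨v, hv⟩ := hsurj i
    have h1 := hform v
    rw [hv] at h1
    simp only [Pi.single_apply, ite_pow, one_pow, ne_eq, OfNat.ofNat_ne_zero, not_false_eq_true,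
      zero_pow, mul_ite, mul_one, mul_zero, Finset.sum_ite_eq', Finset.mem_univ, if_true] at h1
    rw [← h1]; exact hpsd v
  refine ⟨ν, hν0, fun l hl => ?_⟩
  unfold Ph
  rw [ENNReal.ofReal_mul (by positivity)]
  congr 1
  have hpt : ∀ x : Fin n → ℝ, ENNReal.ofReal (Real.exp (-(l * qf N ω x))) * gE x =
      ∏ i, ENNReal.ofReal (Real.exp (-(l * ν i + 1 / 2) * (T x i) ^ 2)) := by
    intro x
    unfold gE
    rw [← ENNReal.ofReal_mul (Real.exp_pos _).le, ← Real.exp_add,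
      ← ENNReal.ofReal_prod_of_nonneg (fun i _ => (Real.exp_pos _).le), ← Real.exp_sum]
    congr 2
    have h1 : qf N ω x = ∑ i, ν i * (T x i) ^ 2 := hform x
    rw [h1, ← hnorm x, Finset.mul_sum, neg_div, Finset.sum_div, ← Finset.sum_neg_distrib,
      ← Finset.sum_neg_distrib, ← Finset.sum_add_distrib]
    refine Finset.sum_congr rfl fun i _ => ?_
    ring
  simp_rw [hpt]
  have hmeas : ∀ i : Fin n, Measurable (fun t : ℝ => ENNReal.ofReal (Real.exp (-(l * ν i + 1 / 2) * t ^ 2))) := by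
    intro i; fun_prop
  rw [hT.lintegral_comp (f := fun y : Fin n → ℝ =>
    ∏ i, ENNReal.ofReal (Real.exp (-(l * ν i + 1 / 2) * (y i) ^ 2)))
    (Finset.measurable_prod _ fun i _ => (hmeas i).comp (measurable_pi_apply i)),
    lintegral_fin_prod (fun i t => ENNReal.ofReal (Real.exp (-(l * ν i + 1 / 2) * t ^ 2))) hmeas,
    ENNReal.ofReal_prod_of_nonneg (fun i _ => Real.sqrt_nonneg _)]
  refine Finset.prod_congr rfl fun i _ => ?_
  exact gauss1 _ (by have := hν0 i; positivity)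

end

theorem sq_swap {Ω X : Type*} [MeasurableSpace Ω] [MeasurableSpace X] (P : Measure Ω) [SFinite P]
    (ν : Measure X) [SFinite ν] (F : Ω → X → ℝ≥0∞) (hF : Measurable (fun p : Ω × X => F p.1 p.2)) :
    ∫⁻ ω, (∫⁻ x, F ω x ∂ν) ^ 2 ∂P = ∫⁻ x, ∫⁻ y, (∫⁻ ω, F ω x * F ω y ∂P) ∂ν ∂ν := by
  have hFω : ∀ ω, Measurable (F ω) := fun ω => hF.comp (measurable_const.prodMk measurable_id)
  have hFx : ∀ x, Measurable (fun ω => F ω x) := fun x => hF.comp (measurable_id.prodMk measurable_const)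
  have h1 : ∀ ω, (∫⁻ x, F ω x ∂ν) ^ 2 = ∫⁻ x, (∫⁻ y, F ω x * F ω y ∂ν) ∂ν := by
    intro ω
    simp_rw [lintegral_const_mul _ (hFω ω)]
    rw [lintegral_mul_const _ (hFω ω), sq]
  simp_rw [h1]
  rw [lintegral_lintegral_swap]
  · refine lintegral_congr fun x => ?_
    rw [lintegral_lintegral_swap]
    exact (((hFx x).comp measurable_fst).mul hF).aemeasurable
  · have e1 : Measurable (fun p : (Ω × X) × X => F p.1.1 p.1.2) := hF.comp measurable_fst
    have e2 : Measurable (fun p : (Ω × X) × X => F p.1.1 p.2) :=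
      hF.comp ((measurable_fst.comp measurable_fst).prodMk measurable_snd)
    exact (Measurable.lintegral_prod_right' (e1.mul e2)).aemeasurable

set_option maxHeartbeats 1000000 in
theorem main {Ω : Type u} [MeasurableSpace Ω] (P : Measure Ω) [IsProbabilityMeasure P]
    (n : ℕ) (hn : 2 ≤ n) (α c : ℝ) (N : Fin n → Fin n → Ω → ℝ)
    (hα0 : 0 < α) (hα : ∀ m : ℕ, α ≠ m) (hαn : α < (n : ℝ) - 1) (hc : 0 < c)
    (hN : ∀ i j, Measurable (N i j)) (hsym : ∀ i j ω, N i j ω = N j i ω)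
    (hpsd : ∀ ω (x : Fin n → ℝ), 0 ≤ ∑ i, ∑ j, x i * x j * N i j ω)
    (hlow : ∀ (l : ℝ) (x : Fin n → ℝ), 1 ≤ l →
      c * (1 + 2 * l * ∑ i, x i ^ 2) ^ (-(α / 2)) ≤
        ∫ ω, Real.exp (-(l * ∑ i, ∑ j, x i * x j * N i j ω)) ∂P)
    (hup : ∀ (l : ℝ) (x y : Fin n → ℝ), 1 ≤ l →
      ∫ ω, Real.exp (-(l * ((∑ i, ∑ j, x i * x j * N i j ω) + ∑ i, ∑ j, y i * y j * N i j ω))) ∂P
        ≤ (1 + 2 * l * ((∑ i, x i ^ 2) + ∑ i, y i ^ 2)
            + 4 * l ^ 2 * ((∑ i, x i ^ 2) * (∑ i, y i ^ 2) - (∑ i, x i * y i) ^ 2)) ^ (-(α / 2))) :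
    False := by
  have hqnn : ∀ ω x, 0 ≤ qf N ω x := fun ω x => hpsd ω x
  have hqm : ∀ x, Measurable (fun ω => qf N ω x) := fun x =>
    (meas_qf hN).comp (measurable_id.prodMk measurable_const)
  have hn1 : (2 : ℝ) ≤ n := by exact_mod_cast hn
  -- lower bound
  set c1 : ℝ≥0∞ := ∫⁻ x : Fin n → ℝ, ENNReal.ofReal (c * (1 + 2 * ∑ i, x i ^ 2) ^ (-(α / 2))) * gE x with hc1
  have hc1pos : c1 ≠ 0 := by
    rw [hc1, Ne, lintegral_eq_zero_iff (by unfold gE; fun_prop)]
    intro h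
    have h2 : ∀ᵐ x : Fin n → ℝ, False := by
      filter_upwards [h] with x hx
      have h3 : 0 < ENNReal.ofReal (c * (1 + 2 * ∑ i, x i ^ 2) ^ (-(α / 2))) * gE x := by
        have h4 : 0 ≤ ∑ i, x i ^ 2 := Finset.sum_nonneg fun i _ => sq_nonneg _
        refine ENNReal.mul_pos ?_ ?_
        · exact (ENNReal.ofReal_pos.mpr (by positivity)).ne'
        · exact (ENNReal.ofReal_pos.mpr (Real.exp_pos _)).ne'
      exact h3.ne' hx
    have h5 : (volume : Measure (Fin n → ℝ)) = 0 := by simpa using h2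
    have h6 := isOpen_univ.measure_pos (volume : Measure (Fin n → ℝ)) univ_nonempty
    rw [h5] at h6
    simp at h6
  have hlowΦ : ∀ l : ℝ, 1 ≤ l → c1 ≤ ∫⁻ ω, Ph N α l ω ∂P := by
    intro l hl
    have hl0 : 0 < l := by linarith
    have h1 : ∫⁻ ω, Ph N α l ω ∂P = ENNReal.ofReal (l ^ (α / 2)) *
        ∫⁻ x : Fin n → ℝ, (∫⁻ ω, ENNReal.ofReal (Real.exp (-(l * qf N ω x))) ∂P) * gE x := by
      unfold Ph
      rw [lintegral_const_mul' _ _ ENNReal.ofReal_ne_top, lintegral_lintegral_swap]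
      · congr 1
        refine lintegral_congr fun x => ?_
        rw [lintegral_mul_const]
        have := hqm x
        fun_prop
      · exact ((meas_E hN l).mul (meas_gE.comp measurable_snd)).aemeasurable
    rw [h1, ← lintegral_const_mul' _ _ ENNReal.ofReal_ne_top, hc1]
    refine lintegral_mono fun x => ?_
    show _ ≤ ENNReal.ofReal (l ^ (α / 2)) * (_ * gE x)
    rw [← mul_assoc]
    gcongr
    have hint : Integrable (fun ω => Real.exp (-(l * qf N ω x))) P := by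
      refine Integrable.of_bound (C := 1) ?_ ?_
      · have := hqm x
        exact Measurable.aestronglyMeasurable (by fun_prop)
      · refine Filter.Eventually.of_forall fun ω => ?_
        rw [Real.norm_eq_abs, abs_of_pos (Real.exp_pos _)]
        exact Real.exp_le_one_iff.mpr (by have := hqnn ω x; nlinarith)
    rw [← ofReal_integral_eq_lintegral_ofReal hint (Filter.Eventually.of_forall fun _ => (Real.exp_pos _).le),
      ← ENNReal.ofReal_mul (by positivity)]
    refine ENNReal.ofReal_le_ofReal ?_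
    have h2 := hlow l x hl
    set X : ℝ := ∑ i, x i ^ 2 with hX
    have hX0 : 0 ≤ X := Finset.sum_nonneg fun i _ => sq_nonneg _
    have h3 : (1 + 2 * X) ^ (-(α / 2)) ≤ l ^ (α / 2) * (1 + 2 * l * X) ^ (-(α / 2)) := by
      have h4 : l ^ (α / 2) = (l⁻¹) ^ (-(α / 2)) := by
        rw [Real.inv_rpow hl0.le, Real.rpow_neg hl0.le, inv_inv]
      rw [h4, ← Real.mul_rpow (by positivity) (by positivity)]
      refine Real.rpow_le_rpow_of_nonpos (by positivity) ?_ (by linarith)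
      have h5 : l⁻¹ * (1 + 2 * l * X) = l⁻¹ + 2 * X := by field_simp
      rw [h5]
      have h6 : l⁻¹ ≤ 1 := inv_le_one_of_one_le₀ hl
      linarith
    calc c * (1 + 2 * X) ^ (-(α / 2)) ≤ c * (l ^ (α / 2) * (1 + 2 * l * X) ^ (-(α / 2))) := by gcongr
      _ = l ^ (α / 2) * (c * (1 + 2 * l * X) ^ (-(α / 2))) := by ring
      _ ≤ l ^ (α / 2) * ∫ ω, Real.exp (-(l * qf N ω x)) ∂P := by
        have : (0:ℝ) ≤ l ^ (α / 2) := by positivity
        exact mul_le_mul_of_nonneg_left h2 this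
  -- upper bound
  obtain ⟨C0, hC0, hY⟩ := intY hn α hα0.le hαn
  have hX := intX (n := n) (by omega) α hα0.le (by linarith)
  set C : ℝ≥0∞ := (C0 + 1) * ∫⁻ x : Fin n → ℝ, (ENNReal.ofReal ((∑ i, x i ^ 2) / 2)) ^ (-(α / 2)) *
      ENNReal.ofReal (Real.exp (-(∑ i, x i ^ 2) / 2)) with hC
  have hCtop : C ≠ ⊤ := ENNReal.mul_ne_top (by finiteness) hX.ne
  have hupΦ : ∀ l : ℝ, 1 ≤ l → ∫⁻ ω, (Ph N α l ω) ^ 2 ∂P ≤ C := by
    intro l hl
    have hl0 : 0 < l := by linarith
    have hFm : Measurable (fun p : Ω × (Fin n → ℝ) =>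
        ENNReal.ofReal (Real.exp (-(l * qf N p.1 p.2))) * gE p.2) :=
      (meas_E hN l).mul (meas_gE.comp measurable_snd)
    have h1 : ∀ ω, (Ph N α l ω) ^ 2 = ENNReal.ofReal (l ^ α) *
        (∫⁻ x : Fin n → ℝ, ENNReal.ofReal (Real.exp (-(l * qf N ω x))) * gE x) ^ 2 := by
      intro ω
      unfold Ph
      rw [mul_pow, ← ENNReal.ofReal_pow (by positivity), ← Real.rpow_natCast, ← Real.rpow_mul hl0.le]
      congr 3
      push_cast; ring
    simp_rw [h1]
    rw [lintegral_const_mul' _ _ ENNReal.ofReal_ne_top,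
      sq_swap P volume (fun ω x => ENNReal.ofReal (Real.exp (-(l * qf N ω x))) * gE x) hFm,
      ← lintegral_const_mul' _ _ ENNReal.ofReal_ne_top, hC, ← lintegral_const_mul' _ _ (by finiteness)]
    refine lintegral_mono fun x => ?_
    obtain ⟨E, hE⟩ : ∃ E : Ω → (Fin n → ℝ) → ℝ≥0∞, E = fun ω x => ENNReal.ofReal (Real.exp (-(l * qf N ω x))) :=
      ⟨_, rfl⟩
    have hEx : ∀ x, Measurable (fun ω => E ω x) := by
      intro x
      have := hqm x
      rw [hE]
      fun_prop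
    show ENNReal.ofReal (l ^ α) * ∫⁻ y : Fin n → ℝ, (∫⁻ ω,
        (ENNReal.ofReal (Real.exp (-(l * qf N ω x))) * gE x) * (ENNReal.ofReal (Real.exp (-(l * qf N ω y))) * gE y) ∂P) ≤
      (C0 + 1) * ((ENNReal.ofReal ((∑ i, x i ^ 2) / 2)) ^ (-(α / 2)) * gE x)
    have hEE : ∀ ω x, ENNReal.ofReal (Real.exp (-(l * qf N ω x))) = E ω x := by intro ω x; rw [hE]
    simp_rw [hEE]
    have h4 : ∀ y : Fin n → ℝ, ENNReal.ofReal (l ^ α) * ∫⁻ ω, (E ω x * gE x) * (E ω y * gE y) ∂P ≤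
        (ENNReal.ofReal ((∑ i, x i ^ 2) * (∑ i, y i ^ 2) - (∑ i, x i * y i) ^ 2)) ^ (-(α / 2)) * gE y * gE x := by
      intro y
      have hqx := hqm x
      have hqy := hqm y
      have h5 : ∫⁻ ω, (E ω x * gE x) * (E ω y * gE y) ∂P =
          (∫⁻ ω, ENNReal.ofReal (Real.exp (-(l * (qf N ω x + qf N ω y)))) ∂P) * gE y * gE x := by
        have : Measurable (fun ω => ENNReal.ofReal (Real.exp (-(l * (qf N ω x + qf N ω y))))) := by fun_prop
        rw [mul_assoc, ← lintegral_mul_const _ this]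
        refine lintegral_congr fun ω => ?_
        have : ENNReal.ofReal (Real.exp (-(l * (qf N ω x + qf N ω y)))) = E ω x * E ω y := by
          simp only [hE]
          rw [← ENNReal.ofReal_mul (Real.exp_pos _).le, ← Real.exp_add]
          congr 2; ring
        rw [this]; ring
      rw [h5, ← mul_assoc, ← mul_assoc]
      gcongr
      have hint : Integrable (fun ω => Real.exp (-(l * (qf N ω x + qf N ω y)))) P := by
        refine Integrable.of_bound (C := 1) ?_ ?_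
        · exact Measurable.aestronglyMeasurable (by fun_prop)
        · refine Filter.Eventually.of_forall fun ω => ?_
          rw [Real.norm_eq_abs, abs_of_pos (Real.exp_pos _)]
          exact Real.exp_le_one_iff.mpr (by have := hqnn ω x; have := hqnn ω y; nlinarith)
      rw [← ofReal_integral_eq_lintegral_ofReal hint (Filter.Eventually.of_forall fun _ => (Real.exp_pos _).le),
        ← ENNReal.ofReal_mul (by positivity)]
      have h6 : ∫ ω, Real.exp (-(l * (qf N ω x + qf N ω y))) ∂P ≤ _ := hup l x y hl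
      set X : ℝ := ∑ i, x i ^ 2 with hX
      set Y : ℝ := ∑ i, y i ^ 2 with hY
      set W : ℝ := X * Y - (∑ i, x i * y i) ^ 2 with hW
      have hX0 : 0 ≤ X := Finset.sum_nonneg fun i _ => sq_nonneg _
      have hY0 : 0 ≤ Y := Finset.sum_nonneg fun i _ => sq_nonneg _
      have hW0 : 0 ≤ W := by
        have := Finset.sum_mul_sq_le_sq_mul_sq Finset.univ x y
        linarith
      rcases hW0.eq_or_lt with hW1 | hW1
      · rw [← hW1, ENNReal.ofReal_zero, ENNReal.zero_rpow_of_neg (by linarith)]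
        exact le_top
      · rw [ENNReal.ofReal_rpow_of_pos hW1]
        refine ENNReal.ofReal_le_ofReal ?_
        refine (mul_le_mul_of_nonneg_left h6 (by positivity)).trans ?_
        have h7 : l ^ α = ((l ^ 2)⁻¹) ^ (-(α / 2)) := by
          rw [Real.inv_rpow (by positivity), Real.rpow_neg (by positivity), inv_inv,
            ← Real.rpow_natCast, ← Real.rpow_mul hl0.le]
          congr 1; push_cast; ring
        rw [h7, ← Real.mul_rpow (by positivity) (by positivity)]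
        refine Real.rpow_le_rpow_of_nonpos hW1 ?_ (by linarith)
        rw [inv_mul_eq_div, le_div_iff₀ (by positivity)]
        nlinarith [mul_nonneg hl0.le (add_nonneg hX0 hY0), mul_pos (pow_pos hl0 2) hW1]
    rw [← lintegral_const_mul' _ _ ENNReal.ofReal_ne_top]
    refine (lintegral_mono h4).trans ?_
    have hmW : Measurable (fun y : Fin n → ℝ =>
        (ENNReal.ofReal ((∑ i, x i ^ 2) * (∑ i, y i ^ 2) - (∑ i, x i * y i) ^ 2)) ^ (-(α / 2)) * gE y) := by
      unfold gE; fun_prop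
    rw [lintegral_mul_const _ hmW, ← mul_assoc]
    gcongr
    have hXn : 0 ≤ ∑ i, x i ^ 2 := Finset.sum_nonneg fun i _ => sq_nonneg _
    rcases hXn.eq_or_lt with h0 | h0
    · have : (C0 + 1) * (ENNReal.ofReal ((∑ i, x i ^ 2) / 2)) ^ (-(α / 2)) = ⊤ := by
        rw [← h0, zero_div, ENNReal.ofReal_zero, ENNReal.zero_rpow_of_neg (by linarith)]
        exact ENNReal.mul_top (by simp)
      rw [this]; exact le_top
    · refine (hY x h0).trans ?_
      gcongr
      exact le_self_add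
  -- dichotomy
  let Φ : ℕ → Ω → ℝ≥0∞ := fun k => Ph N α ((k : ℝ) + 1)
  have hk1 : ∀ k : ℕ, (1 : ℝ) ≤ (k : ℝ) + 1 := fun k => by linarith [(Nat.cast_nonneg k : (0:ℝ) ≤ k)]
  have hΦm : ∀ k, Measurable (Φ k) := fun k => meas_Ph hN α _
  have hdich : ∀ ω, Tendsto (fun k => Φ k ω) atTop (𝓝 0) ∨ Tendsto (fun k => Φ k ω) atTop (𝓝 ⊤) := by
    intro ω
    obtain ⟨ν, hν, hPh⟩ := Ph_eq (N := N) hsym ω (hpsd ω) α
    have h1 : ∀ k : ℕ, Φ k ω = _ := fun k => hPh ((k : ℝ) + 1) (by positivity)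
    simp_rw [h1]
    exact dich ν hν α hα
  have hfatou : ∫⁻ ω, liminf (fun k => (Φ k ω) ^ 2) atTop ∂P ≤ C := by
    refine (lintegral_liminf_le fun k => (hΦm k).pow_const 2).trans ?_
    exact (liminf_le_liminf (Filter.Eventually.of_forall fun k => hupΦ _ (hk1 k))).trans (by simp)
  have hae : ∀ᵐ ω ∂P, Tendsto (fun k => Φ k ω) atTop (𝓝 0) := by
    have h1 : ∀ᵐ ω ∂P, liminf (fun k => (Φ k ω) ^ 2) atTop < ⊤ := by
      refine ae_lt_top ?_ (lt_of_le_of_lt hfatou hCtop.lt_top).ne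
      exact Measurable.liminf fun k => (hΦm k).pow_const 2
    filter_upwards [h1] with ω hω
    rcases hdich ω with h | h
    · exact h
    · exfalso
      have h2 : Tendsto (fun k => (Φ k ω) ^ 2) atTop (𝓝 (⊤ ^ 2)) := ENNReal.Tendsto.pow h
      rw [h2.liminf_eq] at hω
      simp at hω
  have hfin : ∀ M : ℕ, c1 ≤ C / ((M : ℝ≥0∞) + 1) := by
    intro M
    set m : ℝ≥0∞ := (M : ℝ≥0∞) + 1 with hm
    have hm0 : m ≠ 0 := by simp [hm]
    have hmt : m ≠ ⊤ := by simp [hm]
    have h1 : Tendsto (fun k => ∫⁻ ω, min (Φ k ω) m ∂P) atTop (𝓝 (∫⁻ _, (0 : ℝ≥0∞) ∂P)) := by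
      refine tendsto_lintegral_of_dominated_convergence (fun _ => m) (fun k => (hΦm k).min measurable_const)
        (fun k => Filter.Eventually.of_forall fun ω => min_le_right _ _) (by simp [hmt]) ?_
      filter_upwards [hae] with ω hω
      have h2 := hω.min (tendsto_const_nhds (x := m))
      simpa using h2
    rw [lintegral_zero] at h1
    have h2 : Tendsto (fun k => ∫⁻ ω, min (Φ k ω) m ∂P + C / m) atTop (𝓝 (0 + C / m)) :=
      h1.add tendsto_const_nhds
    rw [zero_add] at h2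
    refine ge_of_tendsto' h2 fun k => ?_
    refine (hlowΦ _ (hk1 k)).trans ?_
    calc ∫⁻ ω, Ph N α ((k : ℝ) + 1) ω ∂P ≤ ∫⁻ ω, (min (Φ k ω) m + (Φ k ω) ^ 2 / m) ∂P := by
          refine lintegral_mono fun ω => ?_
          show Φ k ω ≤ min (Φ k ω) m + (Φ k ω) ^ 2 / m
          rcases le_total (Φ k ω) m with h | h
          · rw [min_eq_left h]; exact le_self_add
          · refine le_add_left ?_
            rw [ENNReal.le_div_iff_mul_le (Or.inl hm0) (Or.inl hmt), sq]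
            gcongr
      _ = ∫⁻ ω, min (Φ k ω) m ∂P + (∫⁻ ω, (Φ k ω) ^ 2 ∂P) / m := by
          rw [lintegral_add_left ((hΦm k).min measurable_const)]
          congr 1
          simp_rw [div_eq_mul_inv]
          rw [lintegral_mul_const _ ((hΦm k).pow_const 2)]
      _ ≤ ∫⁻ ω, min (Φ k ω) m ∂P + C / m := by
          gcongr
          exact hupΦ _ (hk1 k)
  have hlim : Tendsto (fun M : ℕ => C / ((M : ℝ≥0∞) + 1)) atTop (𝓝 (C / ⊤)) := by
    refine ENNReal.Tendsto.const_div ?_ (Or.inr hCtop)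
    have : Tendsto (fun M : ℕ => ((M + 1 : ℕ) : ℝ≥0∞)) atTop (𝓝 ⊤) :=
      ENNReal.tendsto_nat_nhds_top.comp (tendsto_add_atTop_nat 1)
    simpa using this
  have h0 : c1 ≤ C / ⊤ := ge_of_tendsto' hlim hfin
  rw [ENNReal.div_top] at h0
  exact hc1pos (le_antisymm h0 bot_le)

end Pool.Agent.R977.WI.G

namespace Pool.Agent.R977.WI

theorem stmG : StmG.{u} := by
  intro Ω _ P _ L α c N hα0 hα hL hc hN hsym hpsd hlow hup
  have hL0 : (0 : ℝ) < L := by linarith
  have hL1 : 1 ≤ L := by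
    have : 0 < L := by exact_mod_cast hL0
    omega
  have hL2 : (1 : ℝ) ≤ L := by exact_mod_cast hL1
  refine G.main P (2 * L) (by omega) α c N hα0 hα ?_ hc hN hsym hpsd hlow hup
  push_cast
  linarith

end Pool.Agent.R977.WI
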