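import Pool.Agent.R977.WI.Pr2
import Pool.Agent.R977.WI.G

/-! Final assembly. -/

set_option autoImplicit false
set_option linter.unusedSectionVars false
set_option linter.unusedSimpArgs false
set_option linter.unusedVariables false

open MeasureTheory ProbabilityTheory Filter Set
open scoped ENNReal NNReal Topology RealInnerProductSpace

universe u v

namespace Pool.Agent.R977.WI

variable {H : Type u} [NormedAddCommGroup H] [InnerProductSpace ℝ H]
variable {T : ℝ → H →L[ℝ] H} {Q SQ : H →L[ℝ] H}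

/-! ### the domain of the generator -/

theorem Gen.add {g a h b : H} (hg : Gen T g a) (hh : Gen T h b) : Gen T (g + h) (a + b) := by
  unfold Gen at *
  refine (Tendsto.add hg hh).congr (fun t => ?_)
  simp only [map_add, ← smul_add]
  congr 1
  abel

theorem Gen.smul {g a : H} (c : ℝ) (hg : Gen T g a) : Gen T (c • g) (c • a) := by
  unfold Gen at *
  refine (Tendsto.const_smul hg c).congr (fun t => ?_)
  simp only [map_smul, ← smul_sub]
  rw [smul_comm]

theorem Gen.zero : Gen T 0 0 := by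
  unfold Gen
  simp

theorem Gen.unique {g a b : H} (h1 : Gen T g a) (h2 : Gen T g b) : a = b :=
  tendsto_nhds_unique h1 h2

/-- the domain of the generator -/
def dom (T : ℝ → H →L[ℝ] H) : Submodule ℝ H where
  carrier := {g | ∃ a, Gen T g a}
  add_mem' := by
    rintro g h ⟨a, ha⟩ ⟨b, hb⟩
    exact ⟨a + b, ha.add hb⟩
  zero_mem' := ⟨0, Gen.zero⟩
  smul_mem' := by
    rintro c g ⟨a, ha⟩
    exact ⟨c • a, ha.smul c⟩

theorem dom_inf (hA : GenUnbounded T) : ¬ FiniteDimensional ℝ (dom T) := by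
  intro hfd
  apply hA
  choose A hAg using fun g : dom T => g.2
  have hadd : ∀ g h : dom T, A (g + h) = A g + A h := fun g h =>
    (hAg (g + h)).unique ((hAg g).add (hAg h))
  have hsmul : ∀ (c : ℝ) (g : dom T), A (c • g) = c • A g := fun c g =>
    (hAg (c • g)).unique ((hAg g).smul c)
  let L : dom T →ₗ[ℝ] H := { toFun := A, map_add' := hadd, map_smul' := hsmul }
  have hL : Continuous L := L.continuous_of_finiteDimensional
  let L' : dom T →L[ℝ] H := ⟨L, hL⟩
  refine ⟨‖L'‖, fun g a hga => ?_⟩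
  have h1 : A ⟨g, a, hga⟩ = a := (hAg ⟨g, a, hga⟩).unique hga
  have h2 := L'.le_opNorm ⟨g, a, hga⟩
  have h3 : L' ⟨g, a, hga⟩ = a := h1
  rw [h3] at h2
  exact h2

/-! ### the form `∫_0^1 ⟨Q T_r g, T_r h⟩ dr` -/

theorem form_pos (hT : IsC0Semigroup T) (hQ : Q.IsPositive) (hSQ : SQ.IsPositive)
    (hSQQ : SQ.comp SQ = Q) (hinj : Function.Injective Q) {g : H} (hg : g ≠ 0) :
    0 < sg T Q g g 1 := by
  have hc := gq_cont hT Q g g
  have h0 : 0 < gq T Q g g 0 := by
    have e1 : gq T Q g g 0 = ‖SQ g‖ ^ 2 := by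
      unfold gq
      rw [yy_of_nonneg T g le_rfl, hT.zero, ContinuousLinearMap.id_apply, ← hSQQ,
        ContinuousLinearMap.comp_apply, hSQ.inner_left_eq_inner_right, real_inner_self_eq_norm_sq]
    rw [e1]
    have : SQ g ≠ 0 := by
      intro h
      apply hg
      apply hinj
      rw [← hSQQ, ContinuousLinearMap.comp_apply, h]
      simp
    positivity
  unfold sg
  rw [max_eq_left zero_le_one]
  exact intervalIntegral.integral_pos one_pos hc.continuousOn
    (fun r _ => gq_nonneg hQ g r) ⟨0, by simp, h0⟩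

theorem sg_sum_left (hT : IsC0Semigroup T) {n : ℕ} (g : Fin n → H) (x : Fin n → ℝ) (h : H)
    (ρ : ℝ) : sg T Q (∑ i, x i • g i) h ρ = ∑ i, x i * sg T Q (g i) h ρ := by
  have : ∀ s : Finset (Fin n), sg T Q (∑ i ∈ s, x i • g i) h ρ
      = ∑ i ∈ s, x i * sg T Q (g i) h ρ := by
    intro s
    induction s using Finset.induction_on with
    | empty =>
      simp only [Finset.sum_empty]
      have := sg_smul_left hT Q 0 (0 : H) h ρ
      simpa using this
    | insert i s hi ih =>
      rw [Finset.sum_insert hi, Finset.sum_insert hi, sg_add_left hT, ih, sg_smul_left hT]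
  exact this Finset.univ

theorem orthofam (hT : IsC0Semigroup T) (hQ : Q.IsPositive) (hSQ : SQ.IsPositive)
    (hSQQ : SQ.comp SQ = Q) (hinj : Function.Injective Q) (hA : GenUnbounded T) (n : ℕ) :
    ∃ g : Fin n → H, (∀ i, g i ∈ dom T) ∧
      ∀ i j, sg T Q (g i) (g j) 1 = if i = j then 1 else 0 := by
  induction n with
  | zero => exact ⟨fun i => i.elim0, fun i => i.elim0, fun i => i.elim0⟩
  | succ n ih =>
    obtain ⟨g, hg1, hg2⟩ := ih
    -- a new vector
    have hex : ∃ h ∈ dom T, h ∉ Submodule.span ℝ (Set.range g) := by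
      by_contra hcon
      push Not at hcon
      apply dom_inf hA
      have hle : dom T ≤ Submodule.span ℝ (Set.range g) := hcon
      have hfd : FiniteDimensional ℝ (Submodule.span ℝ (Set.range g)) :=
        FiniteDimensional.span_of_finite ℝ (Set.finite_range g)
      exact Submodule.finiteDimensional_of_le hle
    obtain ⟨h, hh1, hh2⟩ := hex
    set h' : H := h - ∑ i, sg T Q h (g i) 1 • g i with hh'
    have hsum : ∑ i, sg T Q h (g i) 1 • g i ∈ Submodule.span ℝ (Set.range g) :=
      Submodule.sum_mem _ (fun i _ => Submodule.smul_mem _ _ (Submodule.subset_span ⟨i, rfl⟩))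
    have hh'0 : h' ≠ 0 := by
      intro h0
      apply hh2
      rw [hh', sub_eq_zero] at h0
      rw [h0]
      exact hsum
    have hh'd : h' ∈ dom T := by
      apply Submodule.sub_mem _ hh1
      exact Submodule.sum_mem _ (fun i _ => Submodule.smul_mem _ _ (hg1 i))
    have horth : ∀ j, sg T Q h' (g j) 1 = 0 := by
      intro j
      have e1 : h' = h + (-1 : ℝ) • ∑ i, sg T Q h (g i) 1 • g i := by
        rw [hh']; simp [sub_eq_add_neg]
      rw [e1, sg_add_left hT, sg_smul_left hT, sg_sum_left hT]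
      simp only [hg2]
      simp
    have hpos := form_pos hT hQ hSQ hSQQ hinj hh'0
    set c := Real.sqrt (sg T Q h' h' 1) with hc
    have hcpos : 0 < c := Real.sqrt_pos.2 hpos
    have hcsq : c * c = sg T Q h' h' 1 := Real.mul_self_sqrt hpos.le
    refine ⟨Fin.snoc g (c⁻¹ • h'), ?_, ?_⟩
    · intro i
      refine Fin.lastCases ?_ (fun i => ?_) i
      · rw [Fin.snoc_last]
        exact Submodule.smul_mem _ _ hh'd
      · rw [Fin.snoc_castSucc]
        exact hg1 i
    · intro i j
      refine Fin.lastCases ?_ (fun i => ?_) i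
      · refine Fin.lastCases ?_ (fun j => ?_) j
        · rw [Fin.snoc_last, if_pos rfl, sg_smul_left hT, sg_symm hQ, sg_smul_left hT, ← hcsq]
          field_simp
        · rw [Fin.snoc_last, Fin.snoc_castSucc, sg_smul_left hT, horth, mul_zero,
            if_neg (Fin.castSucc_ne_last j).symm]
      · refine Fin.lastCases ?_ (fun j => ?_) j
        · rw [Fin.snoc_last, Fin.snoc_castSucc, sg_symm hQ, sg_smul_left hT, horth, mul_zero,
            if_neg (Fin.castSucc_ne_last i)]
        · rw [Fin.snoc_castSucc, Fin.snoc_castSucc, hg2]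
          simp

theorem form_comb (hT : IsC0Semigroup T) (hQ : Q.IsPositive) {n : ℕ} {g : Fin n → H}
    (hg : ∀ i j, sg T Q (g i) (g j) 1 = if i = j then 1 else 0) (x y : Fin n → ℝ) :
    sg T Q (∑ i, x i • g i) (∑ i, y i • g i) 1 = ∑ i, x i * y i := by
  rw [sg_sum_left hT]
  apply Finset.sum_congr rfl
  intro i _
  rw [sg_symm hQ, sg_sum_left hT]
  simp [hg]

theorem dom_comb {n : ℕ} {g : Fin n → H} (hg : ∀ i, g i ∈ dom T) (x : Fin n → ℝ) :
    ∃ a, Gen T (∑ i, x i • g i) a :=
  Submodule.sum_mem (dom T) (fun i _ => Submodule.smul_mem _ _ (hg i))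

/-! ### the exponents at the two ends -/

theorem Hf_zero (hT : IsC0Semigroup T) (l α : ℝ) (z1 z2 : H) (Y : H →L[ℝ] H) :
    Hf T Q l α z1 z2 Y 0 = l * (⟪Y z1, z1⟫ + ⟪Y z2, z2⟫) := by
  have hy : ∀ z : H, yy T z 0 = z := by
    intro z
    rw [yy_of_nonneg T z le_rfl, hT.zero, ContinuousLinearMap.id_apply]
  unfold Hf u1 u2 u3 DD
  simp only [sg_zero, hy]
  simp
  ring

theorem DD_one (l : ℝ) (z1 z2 : H) : DD T Q l z1 z2 1
    = 1 + 2 * l * (sg T Q z1 z1 1 + sg T Q z2 z2 1)
      + 4 * l ^ 2 * (sg T Q z1 z1 1 * sg T Q z2 z2 1 - sg T Q z1 z2 1 ^ 2) := by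
  unfold DD; ring

end Pool.Agent.R977.WI
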