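import Pool.Agent.R977.WI.Fn

/-! Final assembly, part 2: the two bounds and the contradiction. -/

set_option autoImplicit false
set_option linter.unusedSectionVars false
set_option linter.unusedSimpArgs false
set_option linter.unusedVariables false

open MeasureTheory ProbabilityTheory Filter Set
open scoped ENNReal NNReal Topology RealInnerProductSpace

universe u v

namespace Pool.Agent.R977.WI

variable {H : Type u} [NormedAddCommGroup H] [InnerProductSpace ℝ H]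
variable {Ω : Type v} [mΩ : MeasurableSpace Ω] {P : Measure Ω} {F : Filtration ℝ mΩ}
  {e : HilbertBasis ℕ ℝ H} {β : ℕ → ℕ → ℝ → Ω → ℝ} {T : ℝ → H →L[ℝ] H}
  {Q SQ : H →L[ℝ] H} {α : ℝ} {X R : ℝ → Ω → H →L[ℝ] H}

theorem quad (Y : H →L[ℝ] H) {n : ℕ} (g : Fin n → H) (x : Fin n → ℝ) :
    ∑ i, ∑ j, x i * x j * ⟪Y (g i), g j⟫ = ⟪Y (∑ i, x i • g i), ∑ i, x i • g i⟫ := by
  rw [map_sum, sum_inner]
  apply Finset.sum_congr rfl
  intro i _
  rw [inner_sum]
  apply Finset.sum_congr rfl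
  intro j _
  rw [map_smul, inner_smul_left, inner_smul_right]
  simp
  ring

theorem affine' [IsProbabilityMeasure P] (hT : IsC0Semigroup T) (hQ : Q.IsPositive)
    (hSQ : SQ.IsPositive) (hSQQ : SQ.comp SQ = Q)
    (hsol : IsWishartSolution P F e β T Q SQ α X R) {l : ℝ} (hl : 0 ≤ l) {z1 z2 a1 a2 : H}
    (hz1 : Gen T z1 a1) (hz2 : Gen T z2 a2) :
    ∫ ω, Real.exp (-(l * (⟪X 1 ω z1, z1⟫ + ⟪X 1 ω z2, z2⟫))) ∂P
      = ∫ ω, Real.exp (-Hf T Q l α z1 z2 (X 0 ω) 1) ∂P := by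
  have h := affine hT hQ hSQ hSQQ hsol hl hz1 hz2
  have m1 := (meas_Hf hsol zero_le_one l z1 z2 0).mono (F.le 1) le_rfl
  have m0 := (meas_Hf hsol le_rfl l z1 z2 1).mono (F.le 0) le_rfl
  have e1 : (fun ω => Real.exp (-(l * (⟪X 1 ω z1, z1⟫ + ⟪X 1 ω z2, z2⟫))))
      = fun ω => Real.exp (-Hf T Q l α z1 z2 (X 1 ω) 0) := by
    funext ω
    rw [Hf_zero hT]
  rw [e1, integral_eq_lintegral_of_nonneg_ae (Eventually.of_forall fun ω => (Real.exp_pos _).le)
    m1.aestronglyMeasurable, integral_eq_lintegral_of_nonneg_ae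
    (Eventually.of_forall fun ω => (Real.exp_pos _).le) m0.aestronglyMeasurable, h]

theorem upper [IsProbabilityMeasure P] (hT : IsC0Semigroup T) (hQ : Q.IsPositive)
    (hSQ : SQ.IsPositive) (hSQQ : SQ.comp SQ = Q)
    (hsol : IsWishartSolution P F e β T Q SQ α X R) {l : ℝ} (hl : 0 ≤ l) {n : ℕ} {g : Fin n → H}
    (hg1 : ∀ i, g i ∈ dom T)
    (hg2 : ∀ i j, sg T Q (g i) (g j) 1 = if i = j then 1 else 0) (x y : Fin n → ℝ) :
    ∫ ω, Real.exp (-(l * ((∑ i, ∑ j, x i * x j * ⟪X 1 ω (g i), g j⟫)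
        + ∑ i, ∑ j, y i * y j * ⟪X 1 ω (g i), g j⟫))) ∂P
      ≤ (1 + 2 * l * ((∑ i, x i ^ 2) + ∑ i, y i ^ 2)
            + 4 * l ^ 2 * ((∑ i, x i ^ 2) * (∑ i, y i ^ 2) - (∑ i, x i * y i) ^ 2)) ^ (-(α / 2)) := by
  obtain ⟨a1, hz1⟩ := dom_comb hg1 x
  obtain ⟨a2, hz2⟩ := dom_comb hg1 y
  have h := affine' hT hQ hSQ hSQQ hsol hl hz1 hz2
  simp only [quad]
  rw [h]
  have hD1 := DD_one (T := T) (Q := Q) l (∑ i, x i • g i) (∑ i, y i • g i)
  rw [form_comb hT hQ hg2, form_comb hT hQ hg2, form_comb hT hQ hg2] at hD1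
  have hD2 : DD T Q l (∑ i, x i • g i) (∑ i, y i • g i) 1
      = 1 + 2 * l * ((∑ i, x i ^ 2) + ∑ i, y i ^ 2)
            + 4 * l ^ 2 * ((∑ i, x i ^ 2) * (∑ i, y i ^ 2) - (∑ i, x i * y i) ^ 2) := by
    rw [hD1]
    simp only [pow_two]
  rw [← hD2]
  have hDpos := DD_ge (T := T) (Q := Q) (∑ i, x i • g i) (∑ i, y i • g i) hT hQ hl 1
  have m0 := (meas_Hf hsol le_rfl l (∑ i, x i • g i) (∑ i, y i • g i) 1).mono (F.le 0) le_rfl
  have hb : ∀ ω, Real.exp (-Hf T Q l α (∑ i, x i • g i) (∑ i, y i • g i) (X 0 ω) 1)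
      ≤ DD T Q l (∑ i, x i • g i) (∑ i, y i • g i) 1 ^ (-(α / 2)) := by
    intro ω
    rw [Real.rpow_def_of_pos (by linarith)]
    apply Real.exp_le_exp.2
    have := Hf_ge (α := α) (z1 := ∑ i, x i • g i) (z2 := ∑ i, y i • g i) hT hQ hl
      (hsol.pos 0 ω le_rfl) 1
    linarith
  calc ∫ ω, Real.exp (-Hf T Q l α (∑ i, x i • g i) (∑ i, y i • g i) (X 0 ω) 1) ∂P
      ≤ ∫ ω, DD T Q l (∑ i, x i • g i) (∑ i, y i • g i) 1 ^ (-(α / 2)) ∂P := by
        apply integral_mono_of_nonneg (Eventually.of_forall fun ω => (Real.exp_pos _).le)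
          (integrable_const _) (Eventually.of_forall hb)
    _ = _ := by simp

/-- Cauchy-Schwarz for combinations -/
theorem comb_le {Y : H →L[ℝ] H} (hY : Y.IsPositive) {S : H →L[ℝ] H} (hS : S.IsPositive)
    (hSS : S.comp S = Y) {n : ℕ} (w : Fin n → H) (x : Fin n → ℝ) :
    ⟪Y (∑ i, x i • w i), ∑ i, x i • w i⟫ ≤ (∑ i, x i ^ 2) * ∑ i, ⟪Y (w i), w i⟫ := by
  have hq : ∀ v : H, ⟪Y v, v⟫ = ‖S v‖ ^ 2 := by
    intro v
    rw [← hSS, ContinuousLinearMap.comp_apply, hS.inner_left_eq_inner_right,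
      real_inner_self_eq_norm_sq]
  simp only [hq]
  have h1 : ‖S (∑ i, x i • w i)‖ ≤ ∑ i, |x i| * ‖S (w i)‖ := by
    rw [map_sum]
    refine (norm_sum_le _ _).trans (le_of_eq ?_)
    apply Finset.sum_congr rfl
    intro i _
    rw [map_smul, norm_smul, Real.norm_eq_abs]
  calc ‖S (∑ i, x i • w i)‖ ^ 2 ≤ (∑ i, |x i| * ‖S (w i)‖) ^ 2 :=
        pow_le_pow_left₀ (norm_nonneg _) h1 2
    _ ≤ (∑ i, |x i| ^ 2) * ∑ i, ‖S (w i)‖ ^ 2 := Finset.sum_mul_sq_le_sq_mul_sq _ _ _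
    _ = (∑ i, x i ^ 2) * ∑ i, ‖S (w i)‖ ^ 2 := by simp only [sq_abs]

theorem lower [IsProbabilityMeasure P] (hT : IsC0Semigroup T) (hQ : Q.IsPositive)
    (hSQ : SQ.IsPositive) (hSQQ : SQ.comp SQ = Q)
    (hsol : IsWishartSolution P F e β T Q SQ α X R) {l : ℝ} (hl : 0 ≤ l) {n : ℕ} {g : Fin n → H}
    (hg1 : ∀ i, g i ∈ dom T)
    (hg2 : ∀ i j, sg T Q (g i) (g j) 1 = if i = j then 1 else 0) (x : Fin n → ℝ) :
    (∫ ω, Real.exp (-((∑ i, ⟪X 0 ω (yy T (g i) 1), yy T (g i) 1⟫) / 2)) ∂P)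
        * (1 + 2 * l * ∑ i, x i ^ 2) ^ (-(α / 2))
      ≤ ∫ ω, Real.exp (-(l * ∑ i, ∑ j, x i * x j * ⟪X 1 ω (g i), g j⟫)) ∂P := by
  obtain ⟨a1, hz1⟩ := dom_comb hg1 x
  have h := affine' hT hQ hSQ hSQQ hsol hl hz1 (Gen.zero (T := T))
  simp only [quad]
  set z := ∑ i, x i • g i with hz
  have e0 : (fun ω => Real.exp (-(l * ⟪X 1 ω z, z⟫)))
      = fun ω => Real.exp (-(l * (⟪X 1 ω z, z⟫ + ⟪X 1 ω 0, 0⟫))) := by
    funext ω; simp
  rw [e0, h]
  have hsz : sg T Q z z 1 = ∑ i, x i ^ 2 := by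
    rw [hz, form_comb hT hQ hg2]
    simp only [pow_two]
  have hs0 : ∀ h : H, sg T Q 0 h 1 = 0 := by
    intro h
    have := sg_smul_left hT Q 0 (0 : H) h 1
    simpa using this
  have hs0' : ∀ h : H, sg T Q h 0 1 = 0 := by
    intro h
    rw [sg_symm hQ, hs0]
  have hD : DD T Q l z 0 1 = 1 + 2 * l * ∑ i, x i ^ 2 := by
    unfold DD
    rw [hsz, hs0, hs0']
    ring
  have hDge := DD_ge (T := T) (Q := Q) z 0 hT hQ hl 1
  rw [hD] at hDge
  set D := 1 + 2 * l * ∑ i, x i ^ 2 with hDdef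
  have hDpos : 0 < D := by linarith
  have hy0 : yy T (0 : H) 1 = 0 := by simp [yy]
  have hHf : ∀ ω, Hf T Q l α z 0 (X 0 ω) 1
      = l / D * ⟪X 0 ω (yy T z 1), yy T z 1⟫ + α / 2 * Real.log D := by
    intro ω
    unfold Hf u1
    rw [hD, hy0, hs0]
    simp
  have hyz : yy T z 1 = ∑ i, x i • yy T (g i) 1 := by
    rw [hz]; simp [yy]
  have hpt : ∀ ω, Real.exp (-((∑ i, ⟪X 0 ω (yy T (g i) 1), yy T (g i) 1⟫) / 2))
      * D ^ (-(α / 2)) ≤ Real.exp (-Hf T Q l α z 0 (X 0 ω) 1) := by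
    intro ω
    rw [Real.rpow_def_of_pos hDpos, ← Real.exp_add]
    apply Real.exp_le_exp.2
    rw [hHf]
    have h1 := comb_le (hsol.pos 0 ω le_rfl) (hsol.posR 0 ω le_rfl) (hsol.sqR 0 ω le_rfl)
      (fun i => yy T (g i) 1) x
    rw [← hyz] at h1
    have hτ : 0 ≤ ∑ i, ⟪X 0 ω (yy T (g i) 1), yy T (g i) 1⟫ :=
      Finset.sum_nonneg (fun i _ => (hsol.pos 0 ω le_rfl).inner_nonneg_left _)
    set τ := ∑ i, ⟪X 0 ω (yy T (g i) 1), yy T (g i) 1⟫ with hτdef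
    have h2 : l / D * ⟪X 0 ω (yy T z 1), yy T z 1⟫ ≤ τ / 2 := by
      have h3 : l / D * ⟪X 0 ω (yy T z 1), yy T z 1⟫ ≤ l / D * ((∑ i, x i ^ 2) * τ) :=
        mul_le_mul_of_nonneg_left h1 (by positivity)
      refine h3.trans ?_
      rw [div_mul_eq_mul_div, div_le_iff₀ hDpos]
      have h4 : 2 * (l * ∑ i, x i ^ 2) ≤ D := by rw [hDdef]; linarith
      nlinarith [mul_le_mul_of_nonneg_right h4 hτ]
    linarith
  have m0 := (meas_Hf hsol le_rfl l z (0 : H) 1).mono (F.le 0) le_rfl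
  have hint : Integrable (fun ω => Real.exp (-Hf T Q l α z 0 (X 0 ω) 1)) P := by
    refine Integrable.of_bound m0.aestronglyMeasurable (D ^ (-(α / 2)))
      (Eventually.of_forall fun ω => ?_)
    rw [Real.norm_eq_abs, abs_of_pos (Real.exp_pos _), Real.rpow_def_of_pos hDpos]
    apply Real.exp_le_exp.2
    rw [hHf]
    have : 0 ≤ l / D * ⟪X 0 ω (yy T z 1), yy T z 1⟫ :=
      mul_nonneg (by positivity) ((hsol.pos 0 ω le_rfl).inner_nonneg_left _)
    linarith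
  rw [← integral_mul_const]
  exact integral_mono_of_nonneg (Eventually.of_forall fun ω => by positivity) hint
    (Eventually.of_forall hpt)

/-- Main theorem: if `Q` is injective and the generator is unbounded, then `α ∈ ℕ` for every
solution. -/
theorem main [IsProbabilityMeasure P] (hT : IsC0Semigroup T) (hA : GenUnbounded T)
    (hQ : Q.IsPositive) (hinj : Function.Injective Q)
    (hSQ : SQ.IsPositive) (hSQQ : SQ.comp SQ = Q)
    (hsol : IsWishartSolution P F e β T Q SQ α X R) : ∃ n : ℕ, α = n := by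
  by_contra hcon
  push Not at hcon
  have hα0 : α ≠ 0 := by
    have := hcon 0
    simpa using this
  obtain ⟨L, hL⟩ := exists_nat_ge (max (2 * α) 1)
  have hL1 : (1 : ℝ) ≤ L := (le_max_right _ _).trans hL
  have hL2 : 2 * α ≤ L := (le_max_left _ _).trans hL
  obtain ⟨g, hg1, hg2⟩ := orthofam hT hQ hSQ hSQQ hinj hA (2 * L)
  set c := ∫ ω, Real.exp (-((∑ i, ⟪X 0 ω (yy T (g i) 1), yy T (g i) 1⟫) / 2)) ∂P with hc
  have mτ : Measurable (fun ω => -((∑ i, ⟪X 0 ω (yy T (g i) 1), yy T (g i) 1⟫) / 2)) := by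
    refine Measurable.neg (Measurable.div_const ?_ 2)
    exact Finset.measurable_fun_sum _ (fun i _ => (meas_inner hsol le_rfl _ _).mono (F.le 0) le_rfl)
  have hcpos : 0 < c := by
    refine integral_exp_pos ?_
    refine Integrable.of_bound (Real.measurable_exp.comp mτ).aestronglyMeasurable 1
      (Eventually.of_forall fun ω => ?_)
    rw [Real.norm_eq_abs, abs_of_pos (Real.exp_pos _)]
    apply Real.exp_le_one_iff.2
    have : 0 ≤ ∑ i, ⟪X 0 ω (yy T (g i) 1), yy T (g i) 1⟫ :=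
      Finset.sum_nonneg (fun i _ => (hsol.pos 0 ω le_rfl).inner_nonneg_left _)
    linarith
  have hlow : ∀ (l : ℝ) (x : Fin (2 * L) → ℝ), 1 ≤ l →
      c * (1 + 2 * l * ∑ i, x i ^ 2) ^ (-(α / 2)) ≤
        ∫ ω, Real.exp (-(l * ∑ i, ∑ j, x i * x j * ⟪X 1 ω (g i), g j⟫)) ∂P := fun l x hl =>
    lower hT hQ hSQ hSQQ hsol (by linarith) hg1 hg2 x
  rcases lt_or_gt_of_ne hα0 with hneg | hpos
  · -- negative shape
    have hLpos : 0 < 2 * L := by
      have : (0 : ℝ) < L := by linarith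
      have : 0 < L := by exact_mod_cast this
      omega
    set x : Fin (2 * L) → ℝ := fun i => if i = ⟨0, hLpos⟩ then 1 else 0 with hx
    have hx2 : ∑ i, x i ^ 2 = 1 := by
      rw [hx]; simp
    have hle1 : ∀ l : ℝ, 1 ≤ l → c * (1 + 2 * l) ^ (-(α / 2)) ≤ 1 := by
      intro l hl
      have h1 := hlow l x hl
      rw [hx2, mul_one] at h1
      refine h1.trans ?_
      have h2 : ∀ ω, Real.exp (-(l * ∑ i, ∑ j, x i * x j * ⟪X 1 ω (g i), g j⟫)) ≤ 1 := by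
        intro ω
        apply Real.exp_le_one_iff.2
        rw [quad]
        have := (hsol.pos 1 ω zero_le_one).inner_nonneg_left (∑ i, x i • g i)
        have h3 : 0 ≤ l * ⟪X 1 ω (∑ i, x i • g i), ∑ i, x i • g i⟫ :=
          mul_nonneg (by linarith) this
        linarith
      calc _ ≤ ∫ ω, (1 : ℝ) ∂P := integral_mono_of_nonneg
            (Eventually.of_forall fun ω => (Real.exp_pos _).le) (integrable_const _)
            (Eventually.of_forall h2)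
        _ = 1 := by simp
    have ht : Tendsto (fun l : ℝ => c * (1 + 2 * l) ^ (-(α / 2))) atTop atTop := by
      have h1 : Tendsto (fun l : ℝ => 1 + 2 * l) atTop atTop :=
        tendsto_atTop_add_const_left _ _ (tendsto_id.const_mul_atTop (by norm_num))
      exact ((tendsto_rpow_atTop (by linarith)).comp h1).const_mul_atTop hcpos
    obtain ⟨l, hl1, hl2⟩ := ((ht.eventually_gt_atTop 1).and (eventually_ge_atTop 1)).exists
    linarith [hle1 l hl2]
  · refine stmG Ω P L α c (fun i j ω => ⟪X 1 ω (g i), g j⟫) hpos hcon hL2 hcpos ?_ ?_ ?_ hlow ?_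
    · intro i j
      exact (meas_inner hsol zero_le_one _ _).mono (F.le 1) le_rfl
    · intro i j ω
      rw [(hsol.pos 1 ω zero_le_one).inner_left_eq_inner_right, real_inner_comm]
    · intro ω x
      rw [quad]
      exact (hsol.pos 1 ω zero_le_one).inner_nonneg_left _
    · intro l x y hl
      exact upper hT hQ hSQ hSQQ hsol (by linarith) hg1 hg2 x y

end Pool.Agent.R977.WI
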