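import Pool.Agent.R977.WI.Stm

/-! Helper for `stmG` (helper971): diagonalisation, dichotomy, singular integrals. -/

set_option autoImplicit false
open MeasureTheory ProbabilityTheory Filter Set
open scoped ENNReal NNReal Topology

namespace Pool.Agent.R977.WI.G

/-- simultaneous diagonalisation of a symmetric form and the Euclidean norm by a measure
preserving map -/
theorem diag_form {n : ℕ} (A : Fin n → Fin n → ℝ) (hA : ∀ i j, A i j = A j i) :
    ∃ (ν : Fin n → ℝ) (T : (Fin n → ℝ) → (Fin n → ℝ)),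
      MeasurePreserving T volume volume ∧
      (∀ x, ∑ i, ∑ j, x i * x j * A i j = ∑ i, ν i * (T x i) ^ 2) ∧
      (∀ x, ∑ i, (T x i) ^ 2 = ∑ i, x i ^ 2) ∧
      (∑ i, ν i = ∑ i, A i i) ∧
      (∀ i, ∃ x, T x = Pi.single i 1) := by
  classical
  set M : Matrix (Fin n) (Fin n) ℝ := Matrix.of A with hM
  have hH : M.IsHermitian := by
    ext i j
    simp [hM, Matrix.conjTranspose_apply, hA j i]
  set U : Matrix (Fin n) (Fin n) ℝ := (hH.eigenvectorUnitary : Matrix (Fin n) (Fin n) ℝ) with hU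
  have hU1 : star U * U = 1 := Unitary.coe_star_mul_self _
  have hU2 : U * star U = 1 := Unitary.coe_mul_star_self _
  have hspec : M = U * Matrix.diagonal hH.eigenvalues * star U := by
    have := hH.spectral_theorem
    rw [Unitary.conjStarAlgAut_apply] at this
    simpa using this
  have hstar : star U = U.transpose := by
    rw [Matrix.star_eq_conjTranspose]
    ext i j
    simp
  have hdet : |(star U).det| = 1 := by
    have h1 : (star U).det * U.det = 1 := by
      rw [← Matrix.det_mul, hU1, Matrix.det_one]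
    have h2 : (star U).det = U.det := by rw [hstar, Matrix.det_transpose]
    rw [h2] at h1 ⊢
    have : |U.det| * |U.det| = 1 := by rw [← abs_mul, h1, abs_one]
    nlinarith [abs_nonneg U.det]
  have hdet0 : (star U).det ≠ 0 := by
    intro h; rw [h] at hdet; simp at hdet
  have hmp : MeasurePreserving (fun x : Fin n → ℝ => (star U).mulVec x) volume volume := by
    refine ⟨?_, ?_⟩
    · exact (LinearMap.continuous_of_finiteDimensional (Matrix.toLin' (star U))).measurable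
    · have := Real.map_matrix_volume_pi_eq_smul_volume_pi hdet0
      rw [abs_inv, hdet, inv_one, ENNReal.ofReal_one, one_smul] at this
      exact this
  refine ⟨hH.eigenvalues, fun x => (star U).mulVec x, hmp, ?_, ?_, ?_, ?_⟩
  · intro x
    have h1 : ∑ i, ∑ j, x i * x j * A i j = x ⬝ᵥ (M.mulVec x) := by
      simp only [dotProduct, Matrix.mulVec, Finset.mul_sum]
      refine Finset.sum_congr rfl fun i _ => Finset.sum_congr rfl fun j _ => ?_
      simp only [hM, Matrix.of_apply]; ring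
    rw [h1]
    conv_lhs => rw [hspec]
    rw [← Matrix.mulVec_mulVec, ← Matrix.mulVec_mulVec, Matrix.dotProduct_mulVec,
      ← Matrix.mulVec_transpose, ← hstar]
    simp only [dotProduct, Matrix.mulVec_diagonal]
    refine Finset.sum_congr rfl fun i _ => ?_
    ring
  · intro x
    have h1 : ∀ y : Fin n → ℝ, ∑ i, y i ^ 2 = y ⬝ᵥ y := by
      intro y; simp [dotProduct, sq]
    rw [h1, h1, Matrix.dotProduct_mulVec, ← Matrix.mulVec_transpose]
    have : (star U).transpose = U := by rw [hstar, Matrix.transpose_transpose]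
    rw [this, Matrix.mulVec_mulVec, hU2, Matrix.one_mulVec]
  · have h1 : M.trace = ∑ i, A i i := by simp [Matrix.trace, hM]
    rw [← h1]
    conv_rhs => rw [hspec]
    rw [Matrix.mul_assoc, Matrix.trace_mul_comm, Matrix.mul_assoc, hU1, Matrix.mul_one,
      Matrix.trace_diagonal]
  · intro i
    refine ⟨U.mulVec (Pi.single i 1), ?_⟩
    show (star U).mulVec (U.mulVec (Pi.single i 1)) = _
    rw [Matrix.mulVec_mulVec, hU1, Matrix.one_mulVec]

theorem lintegral_fin_prod' {n : ℕ} (μ : Fin n → Measure ℝ)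
    [∀ i, SigmaFinite (μ i)] (f : Fin n → ℝ → ℝ≥0∞) (hf : ∀ i, Measurable (f i)) :
    ∫⁻ x : Fin n → ℝ, ∏ i, f i (x i) ∂(Measure.pi μ) = ∏ i, ∫⁻ x, f i x ∂(μ i) := by
  induction n with
  | zero => simp
  | succ n n_ih =>
      calc
        _ = ∫⁻ x : ℝ × (Fin n → ℝ),
            f 0 x.1 * ∏ i : Fin n, f (Fin.succ i) (x.2 i)
            ∂((μ 0).prod (Measure.pi (fun i ↦ μ i.succ))) := by
          rw [← ((measurePreserving_piFinSuccAbove μ 0).symm).lintegral_comp_emb
            (MeasurableEquiv.measurableEmbedding _)]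
          simp_rw [MeasurableEquiv.piFinSuccAbove_symm_apply, Fin.insertNthEquiv,
            Fin.prod_univ_succ, Fin.insertNth_zero, Equiv.coe_fn_mk, Fin.cons_succ,
            Fin.zero_succAbove, cast_eq, Fin.cons_zero]
        _ = (∫⁻ x, f 0 x ∂μ 0)
            * ∏ i : Fin n, ∫⁻ (x : ℝ), f (Fin.succ i) x ∂(μ i.succ) := by
          rw [← n_ih (fun i => μ i.succ) (fun i => f i.succ) (fun i => hf _)]
          exact lintegral_prod_mul (hf 0).aemeasurable (Finset.measurable_prod _ (fun i _ =>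
            (hf _).comp (measurable_pi_apply i))).aemeasurable
        _ = ∏ i, ∫⁻ x, f i x ∂(μ i) := by rw [Fin.prod_univ_succ]

theorem lintegral_fin_prod {n : ℕ} (f : Fin n → ℝ → ℝ≥0∞) (hf : ∀ i, Measurable (f i)) :
    ∫⁻ x : Fin n → ℝ, ∏ i, f i (x i) = ∏ i, ∫⁻ x, f i x :=
  lintegral_fin_prod' (fun _ => volume) f hf

/-- the analytic dichotomy -/
theorem dich {n : ℕ} (ν : Fin n → ℝ) (hν : ∀ i, 0 ≤ ν i) (α : ℝ) (hα : ∀ m : ℕ, α ≠ m) :
    Tendsto (fun k : ℕ => ENNReal.ofReal (((k : ℝ) + 1) ^ (α / 2) *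
      ∏ i, √(Real.pi / (((k : ℝ) + 1) * ν i + 1 / 2)))) atTop (𝓝 0) ∨
    Tendsto (fun k : ℕ => ENNReal.ofReal (((k : ℝ) + 1) ^ (α / 2) *
      ∏ i, √(Real.pi / (((k : ℝ) + 1) * ν i + 1 / 2)))) atTop (𝓝 ⊤) := by
  classical
  set r : ℕ := (Finset.univ.filter (fun i => 0 < ν i)).card with hr
  have hl : Tendsto (fun k : ℕ => (k : ℝ) + 1) atTop atTop :=
    tendsto_atTop_add_const_right _ _ tendsto_natCast_atTop_atTop
  -- the rescaled factors
  let q : ℕ → Fin n → ℝ := fun k i => if 0 < ν i then √(Real.pi * (((k : ℝ) + 1) / (((k : ℝ) + 1) * ν i + 1 / 2)))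
    else √(2 * Real.pi)
  let Q : Fin n → ℝ := fun i => if 0 < ν i then √(Real.pi * (1 / ν i)) else √(2 * Real.pi)
  have hq : ∀ i, Tendsto (fun k => q k i) atTop (𝓝 (Q i)) := by
    intro i
    by_cases h : 0 < ν i
    · simp only [q, Q, h, if_true]
      refine (Real.continuous_sqrt.tendsto _).comp (Tendsto.const_mul _ ?_)
      have h1 : ∀ k : ℕ, ((k : ℝ) + 1) / (((k : ℝ) + 1) * ν i + 1 / 2)
          = 1 / (ν i + (1 / 2) * ((k : ℝ) + 1)⁻¹) := by
        intro k
        have : (0 : ℝ) < (k : ℝ) + 1 := by positivity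
        field_simp
      simp_rw [h1]
      have h2 : Tendsto (fun k : ℕ => ν i + (1 / 2) * ((k : ℝ) + 1)⁻¹) atTop (𝓝 (ν i + (1/2) * 0)) :=
        tendsto_const_nhds.add (Tendsto.const_mul _ (tendsto_inv_atTop_zero.comp hl))
      rw [mul_zero, add_zero] at h2
      exact tendsto_const_nhds.div h2 h.ne'
    · simp only [q, Q, h, if_false]
      exact tendsto_const_nhds
  have hQ : 0 < ∏ i, Q i := by
    refine Finset.prod_pos fun i _ => ?_
    by_cases h : 0 < ν i
    · simp only [Q, h, if_true]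
      have := Real.pi_pos
      positivity
    · simp only [Q, h, if_false]
      have := Real.pi_pos
      positivity
  have hprod : Tendsto (fun k => ∏ i, q k i) atTop (𝓝 (∏ i, Q i)) :=
    tendsto_finsetProd _ fun i _ => hq i
  have hF : ∀ k : ℕ, ((k : ℝ) + 1) ^ (α / 2) * ∏ i, √(Real.pi / (((k : ℝ) + 1) * ν i + 1 / 2))
      = ((k : ℝ) + 1) ^ ((α - r) / 2) * ∏ i, q k i := by
    intro k
    have hk : (0 : ℝ) < (k : ℝ) + 1 := by positivity
    have h1 : ∀ i, √(Real.pi / (((k : ℝ) + 1) * ν i + 1 / 2)) * (if 0 < ν i then √((k : ℝ) + 1) else 1)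
        = q k i := by
      intro i
      by_cases h : 0 < ν i
      · simp only [q, h, if_true]
        rw [← Real.sqrt_mul (by have := hν i; have := Real.pi_pos; positivity)]
        congr 1
        ring
      · have h0 : ν i = 0 := le_antisymm (not_lt.mp h) (hν i)
        simp only [q, if_neg h, mul_one]
        rw [h0, mul_zero, zero_add]
        congr 1
        ring
    have h2 : ∏ i : Fin n, (if 0 < ν i then √((k : ℝ) + 1) else 1) = ((k : ℝ) + 1) ^ ((r : ℝ) / 2) := by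
      rw [Finset.prod_ite, Finset.prod_const_one, mul_one, Finset.prod_const, ← hr, Real.sqrt_eq_rpow,
        ← Real.rpow_natCast, ← Real.rpow_mul hk.le]
      congr 1
      ring
    have h3 : ∏ i, q k i = (∏ i, √(Real.pi / (((k : ℝ) + 1) * ν i + 1 / 2))) *
        ((k : ℝ) + 1) ^ ((r : ℝ) / 2) := by
      rw [← h2, ← Finset.prod_mul_distrib]
      exact Finset.prod_congr rfl fun i _ => (h1 i).symm
    rw [h3, show α / 2 = (α - r) / 2 + (r : ℝ) / 2 by ring, Real.rpow_add hk]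
    ring
  simp_rw [hF]
  rcases lt_or_gt_of_ne (hα r) with h | h
  · left
    have h1 : Tendsto (fun k : ℕ => ((k : ℝ) + 1) ^ ((α - r) / 2)) atTop (𝓝 0) := by
      have := (tendsto_rpow_neg_atTop (y := -((α - r) / 2)) (by linarith)).comp hl
      simpa [Function.comp_def] using this
    have h2 := h1.mul hprod
    rw [zero_mul] at h2
    simpa using ENNReal.tendsto_ofReal h2
  · right
    have h1 : Tendsto (fun k : ℕ => ((k : ℝ) + 1) ^ ((α - r) / 2)) atTop atTop :=
      (tendsto_rpow_atTop (y := (α - r) / 2) (by linarith)).comp hl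
    exact ENNReal.tendsto_ofReal_atTop.comp (h1.atTop_mul_pos hQ hprod)

theorem rpow_neg_anti {a b : ℝ≥0∞} {t : ℝ} (ht : 0 ≤ t) (h : a ≤ b) : b ^ (-t) ≤ a ^ (-t) := by
  rw [ENNReal.rpow_neg, ENNReal.rpow_neg]
  exact ENNReal.inv_le_inv.mpr (ENNReal.rpow_le_rpow h ht)

theorem sing_fin (β κ : ℝ) (hβ : β < 1) (hκ : 0 < κ) :
    ∫⁻ y : ℝ, (ENNReal.ofReal (κ * y ^ 2)) ^ (-(β / 2)) * ENNReal.ofReal (Real.exp (-(y ^ 2) / 2)) < ⊤ := by
  set f : ℝ → ℝ≥0∞ := fun y => (ENNReal.ofReal (κ * y ^ 2)) ^ (-(β / 2)) *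
    ENNReal.ofReal (Real.exp (-(y ^ 2) / 2)) with hf
  have hpos : ∫⁻ y in Ioi (0:ℝ), f y < ⊤ := by
    have h1 : IntegrableOn (fun y : ℝ => κ ^ (-(β/2)) * (y ^ (-β) * Real.exp (-(1/2) * y ^ 2))) (Ioi 0) :=
      (integrableOn_rpow_mul_exp_neg_mul_sq (by norm_num) (by linarith)).const_mul _
    have h2 : ∫⁻ y in Ioi (0:ℝ), f y =
        ∫⁻ y in Ioi (0:ℝ), ENNReal.ofReal (κ ^ (-(β/2)) * (y ^ (-β) * Real.exp (-(1/2) * y ^ 2))) := by
      refine setLIntegral_congr_fun measurableSet_Ioi fun y hy => ?_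
      have hy' : (0 : ℝ) < y := hy
      simp only [hf]
      rw [ENNReal.ofReal_rpow_of_pos (by positivity), ← ENNReal.ofReal_mul (by positivity)]
      congr 1
      rw [Real.mul_rpow hκ.le (by positivity), ← Real.rpow_natCast, ← Real.rpow_mul hy'.le, mul_assoc]
      congr 2
      · congr 1; push_cast; ring
      · congr 1; ring
    rw [h2]
    exact h1.lintegral_lt_top
  have heven : ∀ y, f (-y) = f y := by intro y; simp [hf]
  have hneg : ∫⁻ y in Iio (0:ℝ), f y = ∫⁻ y in Ioi (0:ℝ), f y := by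
    rw [← lintegral_indicator measurableSet_Iio, ← lintegral_indicator measurableSet_Ioi,
      ← lintegral_neg_eq_self]
    refine lintegral_congr fun y => ?_
    by_cases h : 0 < y
    · simp [indicator, h, heven]
    · simp [indicator, h]
  have h1 := lintegral_add_compl (μ := volume) f (measurableSet_Ioi (a := (0:ℝ)))
  rw [← h1, compl_Ioi, ← restrict_Iio_eq_restrict_Iic, hneg]
  exact ENNReal.add_lt_top.mpr ⟨hpos, hpos⟩

theorem exp_sum_prod {n : ℕ} (y : Fin n → ℝ) :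
    ENNReal.ofReal (Real.exp (-(∑ i, y i ^ 2) / 2)) = ∏ i, ENNReal.ofReal (Real.exp (-(y i ^ 2) / 2)) := by
  rw [← ENNReal.ofReal_prod_of_nonneg (fun i _ => (Real.exp_pos _).le), ← Real.exp_sum]
  congr 2
  rw [← Finset.sum_div, Finset.sum_neg_distrib]

theorem meas_f (β κ : ℝ) : Measurable (fun y : ℝ => (ENNReal.ofReal (κ * y ^ 2)) ^ (-(β / 2)) *
    ENNReal.ofReal (Real.exp (-(y ^ 2) / 2))) := by fun_prop

theorem intX {n : ℕ} (hn : 0 < n) (α : ℝ) (hα0 : 0 ≤ α) (hα : α < n) :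
    ∫⁻ x : Fin n → ℝ, (ENNReal.ofReal ((∑ i, x i ^ 2) / 2)) ^ (-(α / 2)) *
      ENNReal.ofReal (Real.exp (-(∑ i, x i ^ 2) / 2)) < ⊤ := by
  have hn' : (0 : ℝ) < n := by exact_mod_cast hn
  set β : ℝ := α / n with hβ
  have hβ1 : β < 1 := by rw [hβ, div_lt_one hn']; exact hα
  have hβ0 : 0 ≤ β := by positivity
  have hle : ∫⁻ x : Fin n → ℝ, (ENNReal.ofReal ((∑ i, x i ^ 2) / 2)) ^ (-(α / 2)) *
      ENNReal.ofReal (Real.exp (-(∑ i, x i ^ 2) / 2)) ≤
      ∫⁻ x : Fin n → ℝ, ∏ i, ((ENNReal.ofReal ((1 / 2) * x i ^ 2)) ^ (-(β / 2)) *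
        ENNReal.ofReal (Real.exp (-(x i ^ 2) / 2))) := by
    refine lintegral_mono fun x => ?_
    rw [exp_sum_prod, Finset.prod_mul_distrib]
    gcongr
    have h1 : (ENNReal.ofReal ((∑ i, x i ^ 2) / 2)) ^ (-(α / 2)) =
        ∏ _i : Fin n, (ENNReal.ofReal ((∑ i, x i ^ 2) / 2)) ^ (-(β / 2)) := by
      rw [Finset.prod_const, Finset.card_univ, Fintype.card_fin, ← ENNReal.rpow_natCast,
        ← ENNReal.rpow_mul]
      congr 1
      rw [hβ]; field_simp
    rw [h1]
    refine Finset.prod_le_prod' fun i _ => rpow_neg_anti (by positivity) (ENNReal.ofReal_le_ofReal ?_)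
    have : x i ^ 2 ≤ ∑ i, x i ^ 2 :=
      Finset.single_le_sum (f := fun i => x i ^ 2) (fun i _ => sq_nonneg _) (Finset.mem_univ i)
    linarith
  refine lt_of_le_of_lt hle ?_
  rw [lintegral_fin_prod (fun _ y => (ENNReal.ofReal ((1 / 2) * y ^ 2)) ^ (-(β / 2)) *
        ENNReal.ofReal (Real.exp (-(y ^ 2) / 2))) (fun _ => meas_f _ _)]
  exact ENNReal.prod_lt_top fun i _ => sing_fin β (1/2) hβ1 (by norm_num)

theorem intY {n : ℕ} (hn : 2 ≤ n) (α : ℝ) (hα0 : 0 ≤ α) (hα : α < (n : ℝ) - 1) :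
    ∃ C : ℝ≥0∞, C < ⊤ ∧ ∀ x : Fin n → ℝ, 0 < ∑ i, x i ^ 2 →
    ∫⁻ y : Fin n → ℝ, (ENNReal.ofReal ((∑ i, x i ^ 2) * (∑ i, y i ^ 2) - (∑ i, x i * y i) ^ 2)) ^ (-(α / 2)) *
      ENNReal.ofReal (Real.exp (-(∑ i, y i ^ 2) / 2)) ≤ C * (ENNReal.ofReal ((∑ i, x i ^ 2) / 2)) ^ (-(α / 2)) := by
  classical
  have hn' : (0 : ℝ) < (n : ℝ) - 1 := by
    have : (2 : ℝ) ≤ n := by exact_mod_cast hn
    linarith
  set β : ℝ := α / ((n : ℝ) - 1) with hβ
  have hβ1 : β < 1 := by rw [hβ, div_lt_one hn']; exact hα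
  have hβ0 : 0 ≤ β := by positivity
  set K1 : ℝ≥0∞ := ∫⁻ y : ℝ, ENNReal.ofReal (Real.exp (-(y ^ 2) / 2)) with hK1
  set Kβ : ℝ≥0∞ := ∫⁻ y : ℝ, (ENNReal.ofReal (1 * y ^ 2)) ^ (-(β / 2)) *
    ENNReal.ofReal (Real.exp (-(y ^ 2) / 2)) with hKβ
  have hK1' : K1 < ⊤ := by
    have := sing_fin 0 1 (by norm_num) (by norm_num)
    simpa [hK1] using this
  have hKβ' : Kβ < ⊤ := sing_fin β 1 hβ1 (by norm_num)
  refine ⟨(max K1 Kβ) ^ n, ENNReal.pow_lt_top (max_lt hK1' hKβ'), fun x hx => ?_⟩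
  set X : ℝ := ∑ i, x i ^ 2 with hX
  -- the form
  let A : Fin n → Fin n → ℝ := fun i j => X * (if i = j then 1 else 0) - x i * x j
  have hA : ∀ i j, A i j = A j i := by
    intro i j; simp only [A, eq_comm (a := i) (b := j)]; ring
  obtain ⟨ν, T, hT, hform, hnorm, htr, hsurj⟩ := diag_form A hA
  have hAform : ∀ y : Fin n → ℝ, ∑ i, ∑ j, y i * y j * A i j = X * (∑ i, y i ^ 2) - (∑ i, x i * y i) ^ 2 := by
    intro y
    have h1 : ∀ i, ∑ j, y i * y j * A i j = X * y i ^ 2 - (x i * y i) * ∑ j, x j * y j := by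
      intro i
      simp only [A, mul_sub, Finset.sum_sub_distrib, Finset.mul_sum]
      congr 1
      · simp only [mul_ite, mul_one, mul_zero, Finset.sum_ite_eq, Finset.mem_univ, if_true]
        ring
      · refine Finset.sum_congr rfl fun j _ => ?_
        ring
    simp_rw [h1]
    rw [Finset.sum_sub_distrib, ← Finset.mul_sum, ← Finset.sum_mul]
    ring
  have hCS : ∀ y : Fin n → ℝ, 0 ≤ X * (∑ i, y i ^ 2) - (∑ i, x i * y i) ^ 2 := by
    intro y
    have := Finset.sum_mul_sq_le_sq_mul_sq Finset.univ x y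
    linarith
  have hν0 : ∀ i, 0 ≤ ν i := by
    intro i
    obtain ⟨v, hv⟩ := hsurj i
    have h1 := hform v
    rw [hAform, hv] at h1
    simp only [Pi.single_apply, ite_pow, one_pow, ne_eq, OfNat.ofNat_ne_zero, not_false_eq_true,
      zero_pow, mul_ite, mul_one, mul_zero, Finset.sum_ite_eq', Finset.mem_univ, if_true] at h1
    rw [← h1]; exact hCS v
  have hνX : ∀ i, ν i ≤ X := by
    intro i
    obtain ⟨v, hv⟩ := hsurj i
    have h1 := hform v
    have h2 := hnorm v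
    rw [hAform, hv] at h1
    rw [hv] at h2
    simp only [Pi.single_apply, ite_pow, one_pow, ne_eq, OfNat.ofNat_ne_zero, not_false_eq_true,
      zero_pow, mul_ite, mul_one, mul_zero, Finset.sum_ite_eq', Finset.mem_univ, if_true] at h1 h2
    rw [← h1, ← h2]
    nlinarith [sq_nonneg (∑ i, x i * v i)]
  have htr' : ∑ i, (X - ν i) = X := by
    rw [Finset.sum_sub_distrib, htr]
    simp only [A, if_true, mul_one, Finset.sum_sub_distrib]
    have : ∑ i, x i * x i = X := by rw [hX]; exact Finset.sum_congr rfl fun i _ => by ring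
    rw [this]; ring
  obtain ⟨i0, hi0⟩ : ∃ i0, ∀ i, i ≠ i0 → X / 2 ≤ ν i := by
    by_contra hcon
    push Not at hcon
    obtain ⟨i1, -, h1⟩ := hcon ⟨0, by omega⟩
    obtain ⟨i2, h21, h2⟩ := hcon i1
    have h3 : ∑ i ∈ ({i1, i2} : Finset (Fin n)), (X - ν i) ≤ ∑ i, (X - ν i) :=
      Finset.sum_le_univ_sum_of_nonneg fun i => by linarith [hνX i]
    rw [htr', Finset.sum_pair h21.symm] at h3
    linarith
  -- bound the integrand
  let g : Fin n → ℝ → ℝ≥0∞ := fun i t => if i = i0 then ENNReal.ofReal (Real.exp (-(t ^ 2) / 2))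
    else (ENNReal.ofReal (1 * t ^ 2)) ^ (-(β / 2)) * ENNReal.ofReal (Real.exp (-(t ^ 2) / 2))
  have hgm : ∀ i, Measurable (g i) := by
    intro i
    by_cases h : i = i0
    · simp only [g, h, if_true]; fun_prop
    · simp only [g, h, if_false]; exact meas_f _ _
  have hpt : ∀ y : Fin n → ℝ, (ENNReal.ofReal (X * (∑ i, y i ^ 2) - (∑ i, x i * y i) ^ 2)) ^ (-(α / 2)) *
      ENNReal.ofReal (Real.exp (-(∑ i, y i ^ 2) / 2)) ≤
      (ENNReal.ofReal (X / 2)) ^ (-(α / 2)) * ∏ i, g i (T y i) := by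
    intro y
    rw [← hnorm y, exp_sum_prod, hnorm y]
    have hpow : ∀ a : ℝ≥0∞, a ^ (-(α / 2)) = ∏ _i ∈ Finset.univ.erase i0, a ^ (-(β / 2)) := by
      intro a
      rw [Finset.prod_const, Finset.card_erase_of_mem (Finset.mem_univ _), Finset.card_univ,
        Fintype.card_fin, ← ENNReal.rpow_natCast, ← ENNReal.rpow_mul]
      congr 1
      rw [hβ, Nat.cast_sub (by omega)]
      push_cast
      field_simp
    rw [hpow, hpow]
    have hg1 : ∏ i, g i (T y i) = (∏ i ∈ Finset.univ.erase i0, (ENNReal.ofReal (1 * (T y i) ^ 2)) ^ (-(β / 2))) *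
        ∏ i, ENNReal.ofReal (Real.exp (-((T y i) ^ 2) / 2)) := by
      rw [← Finset.mul_prod_erase Finset.univ _ (Finset.mem_univ i0),
        ← Finset.mul_prod_erase Finset.univ (fun i => ENNReal.ofReal (Real.exp (-((T y i) ^ 2) / 2))) (Finset.mem_univ i0)]
      have h1 : g i0 (T y i0) = ENNReal.ofReal (Real.exp (-((T y i0) ^ 2) / 2)) := by simp [g]
      have h2 : ∏ i ∈ Finset.univ.erase i0, g i (T y i) =
          (∏ i ∈ Finset.univ.erase i0, (ENNReal.ofReal (1 * (T y i) ^ 2)) ^ (-(β / 2))) *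
          ∏ i ∈ Finset.univ.erase i0, ENNReal.ofReal (Real.exp (-((T y i) ^ 2) / 2)) := by
        rw [← Finset.prod_mul_distrib]
        refine Finset.prod_congr rfl fun i hi => ?_
        simp only [g, if_neg (Finset.ne_of_mem_erase hi)]
      rw [h1, h2]
      ring
    rw [hg1, ← mul_assoc, ← Finset.prod_mul_distrib]
    gcongr with i hi
    have hine : i ≠ i0 := Finset.ne_of_mem_erase hi
    have h3 : ENNReal.ofReal (X / 2) ^ (-(β / 2)) * ENNReal.ofReal (1 * T y i ^ 2) ^ (-(β / 2)) =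
        (ENNReal.ofReal ((X / 2) * T y i ^ 2)) ^ (-(β / 2)) := by
      rw [one_mul, ENNReal.ofReal_mul (by positivity),
        ENNReal.mul_rpow_of_ne_top ENNReal.ofReal_ne_top ENNReal.ofReal_ne_top]
    rw [h3]
    refine rpow_neg_anti (by positivity) (ENNReal.ofReal_le_ofReal ?_)
    rw [← hAform, hform]
    have h4 : ν i * T y i ^ 2 ≤ ∑ i, ν i * T y i ^ 2 :=
      Finset.single_le_sum (f := fun i => ν i * T y i ^ 2)
      (fun i _ => mul_nonneg (hν0 i) (sq_nonneg _)) (Finset.mem_univ i)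
    refine le_trans ?_ h4
    exact mul_le_mul_of_nonneg_right (hi0 i hine) (sq_nonneg _)
  calc ∫⁻ y : Fin n → ℝ, (ENNReal.ofReal (X * (∑ i, y i ^ 2) - (∑ i, x i * y i) ^ 2)) ^ (-(α / 2)) *
      ENNReal.ofReal (Real.exp (-(∑ i, y i ^ 2) / 2))
      ≤ ∫⁻ y : Fin n → ℝ, (ENNReal.ofReal (X / 2)) ^ (-(α / 2)) * ∏ i, g i (T y i) := lintegral_mono hpt
    _ = (ENNReal.ofReal (X / 2)) ^ (-(α / 2)) * ∫⁻ y : Fin n → ℝ, ∏ i, g i (T y i) := by
        refine lintegral_const_mul _ ?_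
        exact Finset.measurable_prod _ fun i _ => (hgm i).comp ((measurable_pi_apply i).comp hT.measurable)
    _ = (ENNReal.ofReal (X / 2)) ^ (-(α / 2)) * ∫⁻ y : Fin n → ℝ, ∏ i, g i (y i) := by
        congr 1
        exact hT.lintegral_comp (f := fun y : Fin n → ℝ => ∏ i, g i (y i))
          (Finset.measurable_prod _ fun i _ => (hgm i).comp (measurable_pi_apply i))
    _ = (ENNReal.ofReal (X / 2)) ^ (-(α / 2)) * ∏ i, ∫⁻ t, g i t := by rw [lintegral_fin_prod g hgm]
    _ ≤ (ENNReal.ofReal (X / 2)) ^ (-(α / 2)) * ∏ _i : Fin n, max K1 Kβ := by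
        gcongr with i hi
        by_cases h : i = i0
        · simp only [g, h, if_true]; exact le_max_left _ _
        · simp only [g, h, if_false]; exact le_max_right _ _
    _ = (max K1 Kβ) ^ n * (ENNReal.ofReal (X / 2)) ^ (-(α / 2)) := by
        rw [Finset.prod_const, Finset.card_univ, Fintype.card_fin, mul_comm]

end Pool.Agent.R977.WI.G
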