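import Pool.Agent.R977.WI.Pw2

/-! Pathwise estimates, part 4: closeness of the exponents. -/

set_option autoImplicit false
set_option linter.unusedSectionVars false
set_option linter.unusedSimpArgs false
set_option linter.unusedVariables false

open MeasureTheory ProbabilityTheory Filter Set
open scoped ENNReal NNReal Topology RealInnerProductSpace

universe u v

namespace Pool.Agent.R977.WI

theorem log_close {Φ : ℝ → ℝ → ℝ} {p n : ℕ} (K1f K2f nz Sst : ℕ → ℝ) {ε ε' : ℝ} (hε : 0 ≤ ε)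
    (hstep : ∀ i : ℕ, i < 2 ^ n → Φ (((i : ℝ) + 1) / 2 ^ n) (rho p (i / 2 ^ (n - p)))
      - Φ ((i : ℝ) / 2 ^ n) (rho p (i / 2 ^ (n - p))) = K2f i + nz i)
    (herr : ∀ i : ℕ, i < 2 ^ n →
      |K2f i - Jmp Φ p (i / 2 ^ (n - p)) / 2 ^ (n - p) - K1f i / 2 ^ n| ≤ ε / 2 ^ n)
    (hnz : ∀ i ≤ 2 ^ n, |∑ i' ∈ Finset.range i, (nz i' - Sst i')| ≤ ε') (i : ℕ) (hi : i ≤ 2 ^ n) :
    |Cc Φ p n i - (Φ 0 1 + ∑ i' ∈ Finset.range i, Sst i'
      + (∑ i' ∈ Finset.range i, K1f i') / 2 ^ n)| ≤ ε + ε' := by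
  have hN : (0 : ℝ) < 2 ^ n := by positivity
  have e1 : Cc Φ p n i - (Φ 0 1 + ∑ i' ∈ Finset.range i, Sst i'
      + (∑ i' ∈ Finset.range i, K1f i') / 2 ^ n)
      = ∑ i' ∈ Finset.range i, (K2f i' - Jmp Φ p (i' / 2 ^ (n - p)) / 2 ^ (n - p) - K1f i' / 2 ^ n)
        + ∑ i' ∈ Finset.range i, (nz i' - Sst i') := by
    have h1 : ∑ i' ∈ Finset.range i, stp Φ p n i' = ∑ i' ∈ Finset.range i,
        (K2f i' + nz i' - Jmp Φ p (i' / 2 ^ (n - p)) / 2 ^ (n - p)) := by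
      apply Finset.sum_congr rfl
      intro i' hi'
      unfold stp
      rw [hstep i' (lt_of_lt_of_le (Finset.mem_range.1 hi') hi)]
    unfold Cc
    rw [h1]
    simp only [Finset.sum_sub_distrib, Finset.sum_add_distrib, Finset.sum_div]
    ring
  rw [e1]
  refine (abs_add_le _ _).trans (add_le_add ?_ (hnz i hi))
  calc _ ≤ ∑ i' ∈ Finset.range i,
        |K2f i' - Jmp Φ p (i' / 2 ^ (n - p)) / 2 ^ (n - p) - K1f i' / 2 ^ n| :=
        Finset.abs_sum_le_sum_abs _ _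
    _ ≤ ∑ i' ∈ Finset.range i, ε / 2 ^ n :=
        Finset.sum_le_sum (fun i' hi' => herr i' (lt_of_lt_of_le (Finset.mem_range.1 hi') hi))
    _ = (i : ℝ) * (ε / 2 ^ n) := by simp
    _ ≤ 2 ^ n * (ε / 2 ^ n) := by
        apply mul_le_mul_of_nonneg_right _ (by positivity)
        exact_mod_cast hi
    _ = ε := by field_simp

theorem good_of_close {Φ : ℝ → ℝ → ℝ} {p n : ℕ} (hpn : p ≤ n) (S V : ℕ → ℝ) {ε c0 : ℝ}
    (hε : 0 ≤ ε)
    (h : ∀ i ≤ 2 ^ n, |Cc Φ p n i - (Φ 0 1 + S i + V i / 2)| ≤ ε)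
    (hΦ : ∀ s ∈ Icc (0 : ℝ) 1, ∀ ρ ∈ Icc (0 : ℝ) 1, c0 ≤ Φ s ρ)
    (hJ : ∀ j : ℕ, j < 2 ^ p → |Jmp Φ p j| ≤ ε) :
    (∀ i ≤ 2 ^ n, Real.exp (-Φ 0 1) * Real.exp (-S i - V i / 2)
      ≤ Real.exp (-c0) * Real.exp (2 * ε)) ∧
    Real.exp (-Φ 0 1) * Real.exp (-S (2 ^ n) - V (2 ^ n) / 2)
      ≤ Real.exp (2 * ε) * Real.exp (-Φ 1 0) ∧
    Real.exp (-Φ 1 0) ≤ Real.exp (2 * ε) *
      (Real.exp (-Φ 0 1) * Real.exp (-S (2 ^ n) - V (2 ^ n) / 2)) := by
  have hend := Cc_end Φ hpn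
  have h2 := h (2 ^ n) le_rfl
  rw [hend, abs_le] at h2
  refine ⟨?_, ?_, ?_⟩
  · intro i hi
    rw [← Real.exp_add, ← Real.exp_add, Real.exp_le_exp]
    have h1 := h i hi
    rw [abs_le] at h1
    have hC : c0 - ε ≤ Cc Φ p n i := by
      rcases Nat.lt_or_ge i (2 ^ n) with hlt | hge
      · rw [(Cc_eq Φ hpn i hlt).1]
        have hjP : i / 2 ^ (n - p) < 2 ^ p := by
          rw [Nat.div_lt_iff_lt_mul (by positivity), ← pow_add, Nat.add_sub_cancel' hpn]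
          exact hlt
        have hP : (0 : ℝ) < 2 ^ p := by positivity
        have hM : (0 : ℝ) < 2 ^ (n - p) := by positivity
        have hj1 : (((i / 2 ^ (n - p) : ℕ) : ℝ) + 1) / 2 ^ p ≤ 1 := by
          rw [div_le_one hP]; exact_mod_cast hjP
        have hr : rho p (i / 2 ^ (n - p)) ∈ Icc (0 : ℝ) 1 := by
          unfold rho
          constructor
          · linarith
          · have : 0 ≤ (((i / 2 ^ (n - p) : ℕ) : ℝ) + 1) / 2 ^ p := by positivity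
            linarith
        have hs : (i : ℝ) / 2 ^ n ∈ Icc (0 : ℝ) 1 := by
          refine ⟨by positivity, ?_⟩
          rw [div_le_one (by positivity)]
          exact_mod_cast hi
        have h3 := hΦ _ hs _ hr
        have h4 := hJ _ hjP
        set fr : ℝ := 1 - ((i % 2 ^ (n - p) : ℕ) : ℝ) / 2 ^ (n - p) with hfr
        have hf0 : 0 ≤ fr := by
          rw [hfr, sub_nonneg, div_le_one hM]
          have := (Nat.mod_lt i (show 0 < 2 ^ (n - p) by positivity)).le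
          exact_mod_cast this
        have hf1 : fr ≤ 1 := by
          rw [hfr]
          have : 0 ≤ ((i % 2 ^ (n - p) : ℕ) : ℝ) / 2 ^ (n - p) := by positivity
          linarith
        have h5 : |fr * Jmp Φ p (i / 2 ^ (n - p))| ≤ ε := by
          rw [abs_mul, abs_of_nonneg hf0]
          calc fr * |Jmp Φ p (i / 2 ^ (n - p))| ≤ 1 * ε :=
                mul_le_mul hf1 h4 (abs_nonneg _) (by norm_num)
            _ = ε := one_mul _
        rw [abs_le] at h5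
        linarith [h5.1]
      · have hi' : i = 2 ^ n := le_antisymm hi hge
        rw [hi', hend]
        have := hΦ 1 (by simp) 0 (by simp)
        linarith
    linarith [h1.1, h1.2]
  · rw [← Real.exp_add, ← Real.exp_add, Real.exp_le_exp]
    linarith [h2.1, h2.2]
  · rw [← Real.exp_add, ← Real.exp_add, Real.exp_le_exp]
    linarith [h2.1, h2.2]

theorem mono_bd {U A B x y a b : ℝ} (hx : |x| ≤ U) (hy : |y| ≤ U) (ha : |a| ≤ A) (hb : |b| ≤ B) :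
    |b * (x * y * a)| ≤ U * U * A * B := by
  have hU : 0 ≤ U := (abs_nonneg _).trans hx
  have hA : 0 ≤ A := (abs_nonneg _).trans ha
  have hB : 0 ≤ B := (abs_nonneg _).trans hb
  rw [abs_mul, abs_mul, abs_mul]
  calc |b| * (|x| * |y| * |a|) ≤ B * (U * U * A) := by
        apply mul_le_mul hb _ (by positivity) hB
        apply mul_le_mul _ ha (abs_nonneg _) (by positivity)
        exact mul_le_mul hx hy (abs_nonneg _) hU
    _ = _ := by ring

theorem tr4_bd {U A B x y z a1 a2 a3 b1 b2 b3 : ℝ} (hx : |x| ≤ U) (hy : |y| ≤ U) (hz : |z| ≤ U)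
    (h1 : |a1| ≤ A) (h2 : |a2| ≤ A) (h3 : |a3| ≤ A) (g1 : |b1| ≤ B) (g2 : |b2| ≤ B)
    (g3 : |b3| ≤ B) : tr4 x y z a1 a2 a3 b1 b2 b3 ≤ 16 * (U * U * A * B) := by
  have t1 := (abs_le.1 (mono_bd hx hx h1 g1)).2
  have t2 := (abs_le.1 (mono_bd hx hy h2 g1)).2
  have t3 := (abs_le.1 (mono_bd hy hy h3 g1)).2
  have t4 := (abs_le.1 (mono_bd hx hy h1 g2)).2
  have t5 := (abs_le.1 (mono_bd hx hz h2 g2)).2
  have t6 := (abs_le.1 (mono_bd hy hy h2 g2)).2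
  have t7 := (abs_le.1 (mono_bd hy hz h3 g2)).2
  have t8 := (abs_le.1 (mono_bd hy hy h1 g3)).2
  have t9 := (abs_le.1 (mono_bd hy hz h2 g3)).2
  have t10 := (abs_le.1 (mono_bd hz hz h3 g3)).2
  unfold tr4
  have : b1 * (x ^ 2 * a1 + 2 * x * y * a2 + y ^ 2 * a3)
    + 2 * b2 * (x * y * a1 + (x * z + y ^ 2) * a2 + y * z * a3)
    + b3 * (y ^ 2 * a1 + 2 * y * z * a2 + z ^ 2 * a3)
    = b1 * (x * x * a1) + 2 * (b1 * (x * y * a2)) + b1 * (y * y * a3)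
      + 2 * (b2 * (x * y * a1)) + 2 * (b2 * (x * z * a2)) + 2 * (b2 * (y * y * a2))
      + 2 * (b2 * (y * z * a3)) + b3 * (y * y * a1) + 2 * (b3 * (y * z * a2))
      + b3 * (z * z * a3) := by ring
  rw [this]
  linarith

variable {H : Type u} [NormedAddCommGroup H] [InnerProductSpace ℝ H]

theorem An_bd (e : HilbertBasis ℕ ℝ H) {X R : H →L[ℝ] H} (hR : R.IsPositive)
    (hRR : R.comp R = X) (n : ℕ) (g h : H) : |An e R n g h| ≤ ⟪X g, g⟫ + ⟪X h, h⟫ := by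
  have h1 : ∀ g : H, An e R n g g ≤ ⟪X g, g⟫ := by
    intro g
    exact sum_le_hasSum _ (fun k _ => mul_self_nonneg _) (An_hasSum e hR hRR g g)
  have h0 : ∀ g : H, 0 ≤ An e R n g g :=
    fun g => Finset.sum_nonneg (fun k _ => mul_self_nonneg _)
  have h2 : |An e R n g h| ≤ An e R n g g + An e R n h h := by
    unfold An
    rw [← Finset.sum_add_distrib]
    refine (Finset.abs_sum_le_sum_abs _ _).trans (Finset.sum_le_sum (fun k _ => ?_))
    rw [abs_le]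
    constructor <;> nlinarith [sq_nonneg (⟪R g, e k⟫ - ⟪R h, e k⟫),
      sq_nonneg (⟪R g, e k⟫ + ⟪R h, e k⟫), sq_nonneg ⟪R g, e k⟫, sq_nonneg ⟪R h, e k⟫]
  linarith [h1 g, h1 h]

variable {T : ℝ → H →L[ℝ] H} {Q SQ : H →L[ℝ] H} {l : ℝ} {z1 z2 : H} {e : HilbertBasis ℕ ℝ H}

/-- the coefficients of the noise are bounded along a path -/
theorem K1n_bd (hT : IsC0Semigroup T) (hQ : Q.IsPositive) (hSQ : SQ.IsPositive)
    (hSQQ : SQ.comp SQ = Q) (hl : 0 ≤ l) {X R : ℝ → H →L[ℝ] H} (hX : Continuous X)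
    (hR : ∀ s, (R s).IsPositive) (hRR : ∀ s, (R s).comp (R s) = X s) :
    ∃ K : ℝ, ∀ n : ℕ, ∀ s ∈ Icc (0 : ℝ) 1, ∀ ρ ∈ Icc (0 : ℝ) 1,
      2 * K1n T Q SQ l z1 z2 e (R s) n ρ ≤ K := by
  have hc : IsCompact (Icc (0 : ℝ) 1 ×ˢ Icc (0 : ℝ) 1) := isCompact_Icc.prod isCompact_Icc
  obtain ⟨U1, hU1⟩ := isCompact_Icc.exists_bound_of_continuousOn
    ((u1_cont z1 z2 hT hQ hl).continuousOn (s := Icc (0 : ℝ) 1))
  obtain ⟨U2, hU2⟩ := isCompact_Icc.exists_bound_of_continuousOn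
    ((u2_cont z1 z2 hT hQ hl).continuousOn (s := Icc (0 : ℝ) 1))
  obtain ⟨U3, hU3⟩ := isCompact_Icc.exists_bound_of_continuousOn
    ((u3_cont z1 z2 hT hQ hl).continuousOn (s := Icc (0 : ℝ) 1))
  obtain ⟨A1, hA1⟩ := hc.exists_bound_of_continuousOn
    ((inner_cont2 hT hX z1 z1).continuousOn (s := Icc (0 : ℝ) 1 ×ˢ Icc (0 : ℝ) 1))
  obtain ⟨A2, hA2⟩ := hc.exists_bound_of_continuousOn
    ((inner_cont2 hT hX z2 z2).continuousOn (s := Icc (0 : ℝ) 1 ×ˢ Icc (0 : ℝ) 1))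
  obtain ⟨B1, hB1⟩ := isCompact_Icc.exists_bound_of_continuousOn
    ((gq_cont hT Q z1 z1).continuousOn (s := Icc (0 : ℝ) 1))
  obtain ⟨B2, hB2⟩ := isCompact_Icc.exists_bound_of_continuousOn
    ((gq_cont hT Q z2 z2).continuousOn (s := Icc (0 : ℝ) 1))
  set U := |U1| + |U2| + |U3|
  set A := 2 * (|A1| + |A2|)
  set B := 2 * (|B1| + |B2|)
  refine ⟨2 * (2 * (16 * (U * U * A * B))), fun n s hs ρ hρ => ?_⟩
  have nonn := abs_nonneg U1
  have nonn2 := abs_nonneg U2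
  have nonn3 := abs_nonneg U3
  have m1 := abs_nonneg A1
  have m2 := abs_nonneg A2
  have m3 := abs_nonneg B1
  have m4 := abs_nonneg B2
  have u1b : |u1 T Q l z1 z2 ρ| ≤ U := by
    have := hU1 ρ hρ; rw [Real.norm_eq_abs] at this; linarith [le_abs_self U1]
  have u2b : |u2 T Q l z1 z2 ρ| ≤ U := by
    have := hU2 ρ hρ; rw [Real.norm_eq_abs] at this; linarith [le_abs_self U2]
  have u3b : |u3 T Q l z1 z2 ρ| ≤ U := by
    have := hU3 ρ hρ; rw [Real.norm_eq_abs] at this; linarith [le_abs_self U3]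
  have x1 : ⟪X s (yy T z1 ρ), yy T z1 ρ⟫ ≤ |A1| := by
    have := hA1 (ρ, s) ⟨hρ, hs⟩
    rw [Real.norm_eq_abs] at this
    linarith [le_abs_self A1, le_abs_self ⟪X s (yy T z1 ρ), yy T z1 ρ⟫]
  have x2 : ⟪X s (yy T z2 ρ), yy T z2 ρ⟫ ≤ |A2| := by
    have := hA2 (ρ, s) ⟨hρ, hs⟩
    rw [Real.norm_eq_abs] at this
    linarith [le_abs_self A2, le_abs_self ⟪X s (yy T z2 ρ), yy T z2 ρ⟫]
  have q1 : ⟪Q (yy T z1 ρ), yy T z1 ρ⟫ ≤ |B1| := by
    have := hB1 ρ hρ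
    rw [Real.norm_eq_abs] at this
    have h := le_abs_self (gq T Q z1 z1 ρ)
    unfold gq at h this
    linarith [le_abs_self B1]
  have q2 : ⟪Q (yy T z2 ρ), yy T z2 ρ⟫ ≤ |B2| := by
    have := hB2 ρ hρ
    rw [Real.norm_eq_abs] at this
    have h := le_abs_self (gq T Q z2 z2 ρ)
    unfold gq at h this
    linarith [le_abs_self B2]
  unfold K1n
  have := tr4_bd u1b u2b u3b
    (A := A) (B := B)
    ((An_bd e (hR s) (hRR s) n (yy T z1 ρ) (yy T z1 ρ)).trans (by linarith))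
    ((An_bd e (hR s) (hRR s) n (yy T z1 ρ) (yy T z2 ρ)).trans (by linarith))
    ((An_bd e (hR s) (hRR s) n (yy T z2 ρ) (yy T z2 ρ)).trans (by linarith))
    ((An_bd e hSQ hSQQ n (yy T z1 ρ) (yy T z1 ρ)).trans (by linarith))
    ((An_bd e hSQ hSQQ n (yy T z1 ρ) (yy T z2 ρ)).trans (by linarith))
    ((An_bd e hSQ hSQQ n (yy T z2 ρ) (yy T z2 ρ)).trans (by linarith))
  linarith

end Pool.Agent.R977.WI
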