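import Mathlib

/-! Statements for MP_f9c8f0_pr (helper977): two self-contained pieces.
`StmAL`: passage to the limit for discrete exponential martingales.
`StmG`: the Gindikin type contradiction in finite dimension. -/

set_option autoImplicit false

open MeasureTheory ProbabilityTheory Filter Set
open scoped ENNReal NNReal Topology

universe u

namespace Pool.Agent.R977.WI

/-- a discrete system: `m` steps of length `δ`, increments `Δ i k` which are i.i.d. `N(0,δ)` and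
independent of the past `F i`, and coefficients `θ i k` which are `F i`-measurable -/
structure DSys {Ω : Type*} [mΩ : MeasurableSpace Ω] (P : Measure Ω) where
  m : ℕ
  δ : ℝ
  hδ : 0 ≤ δ
  κ : Type
  fin : Fintype κ
  F : ℕ → MeasurableSpace Ω
  mono : Monotone F
  le : ∀ i, F i ≤ mΩ
  Δ : ℕ → κ → Ω → ℝ
  hΔ : ∀ i k, Measurable[F (i + 1)] (Δ i k)
  law : ∀ i k, P.map (Δ i k) = gaussianReal 0 δ.toNNReal
  iid : ∀ i, iIndepFun (Δ i) P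
  ind : ∀ i, Indep (MeasurableSpace.comap (fun ω k => Δ i k ω) MeasurableSpace.pi) (F i) P
  θ : ℕ → κ → Ω → ℝ
  hθ : ∀ i k, Measurable[F i] (θ i k)

namespace DSys
variable {Ω : Type*} [mΩ : MeasurableSpace Ω] {P : Measure Ω} (D : DSys P)

/-- `∑_{j<i} θ_j · Δ_j` -/
noncomputable def S (i : ℕ) (ω : Ω) : ℝ :=
  letI := D.fin
  ∑ j ∈ Finset.range i, ∑ k, D.θ j k ω * D.Δ j k ω

/-- `δ ∑_{j<i} |θ_j|²` -/
noncomputable def V (i : ℕ) (ω : Ω) : ℝ :=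
  letI := D.fin
  ∑ j ∈ Finset.range i, (∑ k, D.θ j k ω ^ 2) * D.δ

/-- the exponential martingale `exp(-∑θΔ - ½ δ ∑|θ|²)` -/
noncomputable def E (i : ℕ) (ω : Ω) : ℝ := Real.exp (- D.S i ω - D.V i ω / 2)

end DSys

/-- Limit theorem for discrete exponential martingales. -/
def StmAL : Prop :=
  ∀ (Ω : Type u) [MeasurableSpace Ω] (P : Measure Ω) [IsProbabilityMeasure P]
    (Z0 Z1 : Ω → ℝ) (C : ℝ) (D : ℕ → ℕ → DSys P),
    Measurable Z1 → (∀ ω, 0 ≤ Z0 ω) → (∀ ω, Z0 ω ≤ C) → (∀ ω, 0 ≤ Z1 ω) →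
    (∀ p k, Measurable[(D p k).F 0] Z0) →
    (∀ p k, ((D p k).m : ℝ) * (D p k).δ ≤ 1) →
    (∀ᵐ ω ∂P, ∀ ε : ℝ, 0 < ε → ∀ᶠ p in atTop, ∀ᶠ k in atTop,
      (∀ i ≤ (D p k).m, Z0 ω * (D p k).E i ω ≤ C * Real.exp ε) ∧
      Z0 ω * (D p k).E (D p k).m ω ≤ Real.exp ε * Z1 ω ∧
      Z1 ω ≤ Real.exp ε * (Z0 ω * (D p k).E (D p k).m ω)) →
    (∀ᵐ ω ∂P, ∃ K : ℝ, ∀ p k i, i < (D p k).m →
      (letI := (D p k).fin; ∑ j, (D p k).θ i j ω ^ 2) ≤ K) →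
    ∫⁻ ω, ENNReal.ofReal (Z1 ω) ∂P = ∫⁻ ω, ENNReal.ofReal (Z0 ω) ∂P

/-- Gindikin type contradiction. -/
def StmG : Prop :=
  ∀ (Ω : Type u) [MeasurableSpace Ω] (P : Measure Ω) [IsProbabilityMeasure P]
    (L : ℕ) (α c : ℝ) (N : Fin (2 * L) → Fin (2 * L) → Ω → ℝ),
    0 < α → (∀ m : ℕ, α ≠ m) → 2 * α ≤ L → 0 < c →
    (∀ i j, Measurable (N i j)) → (∀ i j ω, N i j ω = N j i ω) →
    (∀ ω (x : Fin (2 * L) → ℝ), 0 ≤ ∑ i, ∑ j, x i * x j * N i j ω) →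
    (∀ (l : ℝ) (x : Fin (2 * L) → ℝ), 1 ≤ l →
      c * (1 + 2 * l * ∑ i, x i ^ 2) ^ (-(α / 2)) ≤
        ∫ ω, Real.exp (-(l * ∑ i, ∑ j, x i * x j * N i j ω)) ∂P) →
    (∀ (l : ℝ) (x y : Fin (2 * L) → ℝ), 1 ≤ l →
      ∫ ω, Real.exp (-(l * ((∑ i, ∑ j, x i * x j * N i j ω) + ∑ i, ∑ j, y i * y j * N i j ω))) ∂P
        ≤ (1 + 2 * l * ((∑ i, x i ^ 2) + ∑ i, y i ^ 2)
            + 4 * l ^ 2 * ((∑ i, x i ^ 2) * (∑ i, y i ^ 2) - (∑ i, x i * y i) ^ 2)) ^ (-(α / 2))) →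
    False

end Pool.Agent.R977.WI
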