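import Pool.Agent.R977.WI.Pw3
import Pool.Agent.R977.WI.Pw4
import Pool.Agent.R977.WI.Stm

/-! Probability part 1: the discrete systems. -/

set_option autoImplicit false
set_option linter.unusedSectionVars false
set_option linter.unusedSimpArgs false
set_option linter.unusedVariables false

open MeasureTheory ProbabilityTheory Filter Set
open scoped ENNReal NNReal Topology RealInnerProductSpace

universe u v

namespace Pool.Agent.R977.WI

variable {H : Type u} [NormedAddCommGroup H] [InnerProductSpace ℝ H]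
variable {Ω : Type v} [mΩ : MeasurableSpace Ω] {P : Measure Ω} {F : Filtration ℝ mΩ}
  {e : HilbertBasis ℕ ℝ H} {β : ℕ → ℕ → ℝ → Ω → ℝ} {T : ℝ → H →L[ℝ] H}
  {Q SQ : H →L[ℝ] H} {α : ℝ} {X R : ℝ → Ω → H →L[ℝ] H}

/-- one step of the simple stochastic integral -/
noncomputable def dRS (e : HilbertBasis ℕ ℝ H) (β : ℕ → ℕ → ℝ → Ω → ℝ) (f : ℝ → Ω → H) (v : H)
    (n i : ℕ) (ω : Ω) : ℝ :=
  ∑ k ∈ Finset.range n, ∑ m ∈ Finset.range n,
    ⟪f ((i : ℝ) / 2 ^ n) ω, e k⟫ * ⟪v, e m⟫ *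
      (β k m (((i : ℝ) + 1) / 2 ^ n) ω - β k m ((i : ℝ) / 2 ^ n) ω)

theorem itoSum_dyadic (f : ℝ → Ω → H) (v : H) (n i : ℕ) (ω : Ω) :
    itoSum e β f v n ((i : ℝ) / 2 ^ n) ω = ∑ i' ∈ Finset.range i, dRS e β f v n i' ω := by
  unfold itoSum dRS
  have h1 : ⌈(i : ℝ) / 2 ^ n * 2 ^ n⌉₊ = i := by
    rw [div_mul_cancel₀ _ (by positivity)]; exact Nat.ceil_natCast i
  rw [h1]
  apply Finset.sum_congr rfl
  intro i' hi'
  have h2 : ((i' : ℝ) + 1) / 2 ^ n ≤ (i : ℝ) / 2 ^ n := by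
    apply div_le_div_of_nonneg_right _ (by positivity)
    have := Finset.mem_range.1 hi'
    exact_mod_cast this
  rw [min_eq_right h2]

theorem itoSum_succ (f : ℝ → Ω → H) (v : H) (n i : ℕ) (ω : Ω) :
    itoSum e β f v n (((i : ℝ) + 1) / 2 ^ n) ω - itoSum e β f v n ((i : ℝ) / 2 ^ n) ω
      = dRS e β f v n i ω := by
  have h1 := itoSum_dyadic (e := e) (β := β) f v n i ω
  have h2 := itoSum_dyadic (e := e) (β := β) f v n (i + 1) ω
  rw [Finset.sum_range_succ] at h2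
  push_cast at h2
  rw [h1, h2]
  ring

/-- the discrete system at the levels `p ≤ n` -/
noncomputable def mkD (hsol : IsWishartSolution P F e β T Q SQ α X R) (l : ℝ) (z1 z2 : H)
    (p n : ℕ) : DSys P where
  m := 2 ^ n
  δ := 1 / 2 ^ n
  hδ := by positivity
  κ := Fin n × Fin n
  fin := inferInstance
  F := fun i => F ((i : ℝ) / 2 ^ n)
  mono := by
    intro i j hij
    apply F.mono
    apply div_le_div_of_nonneg_right _ (by positivity)
    exact_mod_cast hij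
  le := fun i => F.le _
  Δ := fun i km ω => β km.1 km.2 (((i : ℝ) + 1) / 2 ^ n) ω - β km.1 km.2 ((i : ℝ) / 2 ^ n) ω
  hΔ := by
    intro i km
    have hc : (((i + 1 : ℕ) : ℝ)) = (i : ℝ) + 1 := by push_cast; ring
    rw [hc]
    have h1 := hsol.bm.adapted km.1 km.2 (((i : ℝ) + 1) / 2 ^ n) (by positivity)
    have h2 := hsol.bm.adapted km.1 km.2 ((i : ℝ) / 2 ^ n) (by positivity)
    have hle : F ((i : ℝ) / 2 ^ n) ≤ F (((i : ℝ) + 1) / 2 ^ n) :=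
      F.mono (div_le_div_of_nonneg_right (by linarith) (by positivity))
    exact h1.sub (h2.mono hle le_rfl)
  law := by
    intro i km
    have hle : (i : ℝ) / 2 ^ n ≤ ((i : ℝ) + 1) / 2 ^ n :=
      div_le_div_of_nonneg_right (by linarith) (by positivity)
    have h := hsol.bm.law km.1 km.2 ((i : ℝ) / 2 ^ n) (((i : ℝ) + 1) / 2 ^ n) (by positivity) hle
    have h2 : ((i : ℝ) + 1) / 2 ^ n - (i : ℝ) / 2 ^ n = 1 / 2 ^ n := by ring
    rw [h2] at h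
    exact h
  iid := by
    intro i
    have hle : (i : ℝ) / 2 ^ n ≤ ((i : ℝ) + 1) / 2 ^ n :=
      div_le_div_of_nonneg_right (by linarith) (by positivity)
    have h := hsol.bm.iid ((i : ℝ) / 2 ^ n) (((i : ℝ) + 1) / 2 ^ n) (by positivity) hle
    have hinj : Function.Injective (fun km : Fin n × Fin n => ((km.1 : ℕ), (km.2 : ℕ))) := by
      intro a b hab
      simp only [Prod.mk.injEq] at hab
      exact Prod.ext (Fin.ext hab.1) (Fin.ext hab.2)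
    exact h.precomp hinj
  ind := by
    intro i
    have hle : (i : ℝ) / 2 ^ n ≤ ((i : ℝ) + 1) / 2 ^ n :=
      div_le_div_of_nonneg_right (by linarith) (by positivity)
    have h := hsol.bm.indep ((i : ℝ) / 2 ^ n) (((i : ℝ) + 1) / 2 ^ n) (by positivity) hle
    refine indep_of_indep_of_le_left h ?_
    have hg : Measurable (fun (x : ℕ × ℕ → ℝ) (km : Fin n × Fin n) => x ((km.1 : ℕ), (km.2 : ℕ))) :=
      measurable_pi_lambda _ (fun km => measurable_pi_apply _)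
    have h3 := MeasurableSpace.comap_mono
      (g := fun ω (kl : ℕ × ℕ) => β kl.1 kl.2 (((i : ℝ) + 1) / 2 ^ n) ω
        - β kl.1 kl.2 ((i : ℝ) / 2 ^ n) ω) hg.comap_le
    rw [MeasurableSpace.comap_comp] at h3
    exact h3
  θ := fun i km ω =>
    thet T Q SQ l z1 z2 e (R ((i : ℝ) / 2 ^ n) ω) (rho p (i / 2 ^ (n - p))) km.1 km.2
  hθ := by
    intro i km
    have m1 := hsol.adaptedR ((i : ℝ) / 2 ^ n) (by positivity)
      (yy T z1 (rho p (i / 2 ^ (n - p)))) (e km.1)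
    have m2 := hsol.adaptedR ((i : ℝ) / 2 ^ n) (by positivity)
      (yy T z2 (rho p (i / 2 ^ (n - p)))) (e km.1)
    unfold thet
    exact (((m1.mul_const _).const_mul _).add
      (((m2.mul_const _).add (m1.mul_const _)).const_mul _)).add ((m2.mul_const _).const_mul _)

/-- the six families of Ito integrals: the integrands -/
noncomputable def ff (T : ℝ → H →L[ℝ] H) (R : ℝ → Ω → H →L[ℝ] H) (z1 z2 : H) (ρ : ℝ) :
    Fin 6 → ℝ → Ω → H :=
  ![fun s ω => R s ω (yy T z1 ρ), fun s ω => R s ω (yy T z1 ρ), fun s ω => R s ω (yy T z2 ρ),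
    fun s ω => R s ω (yy T z1 ρ), fun s ω => R s ω (yy T z2 ρ), fun s ω => R s ω (yy T z2 ρ)]

/-- the six families of Ito integrals: the vectors -/
noncomputable def vv (T : ℝ → H →L[ℝ] H) (SQ : H →L[ℝ] H) (z1 z2 : H) (ρ : ℝ) : Fin 6 → H :=
  ![SQ (yy T z1 ρ), SQ (yy T z1 ρ), SQ (yy T z1 ρ), SQ (yy T z2 ρ), SQ (yy T z2 ρ),
    SQ (yy T z2 ρ)]

/-- the six coefficients -/
noncomputable def co (T : ℝ → H →L[ℝ] H) (Q : H →L[ℝ] H) (l : ℝ) (z1 z2 : H) (ρ : ℝ) :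
    Fin 6 → ℝ :=
  ![u1 T Q l z1 z2 ρ, u1 T Q l z1 z2 ρ, 2 * u2 T Q l z1 z2 ρ, 2 * u2 T Q l z1 z2 ρ,
    u3 T Q l z1 z2 ρ, u3 T Q l z1 z2 ρ]

theorem sum_theta (l : ℝ) (z1 z2 : H) (ρ : ℝ) (n i : ℕ) (ω : Ω) :
    ∑ km : Fin n × Fin n, thet T Q SQ l z1 z2 e (R ((i : ℝ) / 2 ^ n) ω) ρ km.1 km.2 *
      (β km.1 km.2 (((i : ℝ) + 1) / 2 ^ n) ω - β km.1 km.2 ((i : ℝ) / 2 ^ n) ω)
      = ∑ c : Fin 6, co T Q l z1 z2 ρ c * dRS e β (ff T R z1 z2 ρ c) (vv T SQ z1 z2 ρ c) n i ω := by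
  have h1 : ∑ km : Fin n × Fin n, thet T Q SQ l z1 z2 e (R ((i : ℝ) / 2 ^ n) ω) ρ km.1 km.2 *
      (β km.1 km.2 (((i : ℝ) + 1) / 2 ^ n) ω - β km.1 km.2 ((i : ℝ) / 2 ^ n) ω)
      = ∑ k ∈ Finset.range n, ∑ m ∈ Finset.range n,
        thet T Q SQ l z1 z2 e (R ((i : ℝ) / 2 ^ n) ω) ρ k m *
        (β k m (((i : ℝ) + 1) / 2 ^ n) ω - β k m ((i : ℝ) / 2 ^ n) ω) := by
    rw [Fintype.sum_prod_type, Finset.sum_range]
    apply Finset.sum_congr rfl
    intro k _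
    rw [Finset.sum_range]
  rw [h1, Fin.sum_univ_six]
  simp only [co, ff, vv, dRS, Finset.mul_sum, ← Finset.sum_add_distrib]
  apply Finset.sum_congr rfl
  intro k _
  apply Finset.sum_congr rfl
  intro m _
  simp only [thet, Matrix.cons_val]
  ring

theorem sum_theta_sq (l : ℝ) (z1 z2 : H) (ρ : ℝ) (n i : ℕ) (ω : Ω) :
    ∑ km : Fin n × Fin n, thet T Q SQ l z1 z2 e (R ((i : ℝ) / 2 ^ n) ω) ρ km.1 km.2 ^ 2
      = 2 * K1n T Q SQ l z1 z2 e (R ((i : ℝ) / 2 ^ n) ω) n ρ := by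
  rw [← thet_sq, Fintype.sum_prod_type, Finset.sum_range]
  apply Finset.sum_congr rfl
  intro k _
  rw [Finset.sum_range]

theorem mkD_S (hsol : IsWishartSolution P F e β T Q SQ α X R) (l : ℝ) (z1 z2 : H)
    (p n i : ℕ) (ω : Ω) :
    (mkD hsol l z1 z2 p n).S i ω = ∑ i' ∈ Finset.range i, ∑ c : Fin 6,
      co T Q l z1 z2 (rho p (i' / 2 ^ (n - p))) c *
        dRS e β (ff T R z1 z2 (rho p (i' / 2 ^ (n - p))) c)
          (vv T SQ z1 z2 (rho p (i' / 2 ^ (n - p))) c) n i' ω := by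
  unfold DSys.S
  apply Finset.sum_congr rfl
  intro i' _
  exact sum_theta l z1 z2 _ n i' ω

theorem mkD_V (hsol : IsWishartSolution P F e β T Q SQ α X R) (l : ℝ) (z1 z2 : H)
    (p n i : ℕ) (ω : Ω) :
    (mkD hsol l z1 z2 p n).V i ω / 2 = (∑ i' ∈ Finset.range i,
      K1n T Q SQ l z1 z2 e (R ((i' : ℝ) / 2 ^ n) ω) n (rho p (i' / 2 ^ (n - p)))) / 2 ^ n := by
  have h1 : (mkD hsol l z1 z2 p n).V i ω = ∑ i' ∈ Finset.range i,
      (2 * K1n T Q SQ l z1 z2 e (R ((i' : ℝ) / 2 ^ n) ω) n (rho p (i' / 2 ^ (n - p))))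
        * (1 / 2 ^ n) := by
    unfold DSys.V
    apply Finset.sum_congr rfl
    intro i' _
    exact congrArg (fun x => x * (1 / 2 ^ n : ℝ)) (sum_theta_sq l z1 z2 _ n i' ω)
  rw [h1, ← Finset.sum_mul, ← Finset.mul_sum]
  ring

/-- bound for the coefficients -/
theorem co_bd (hT : IsC0Semigroup T) (hQ : Q.IsPositive) {l : ℝ} (hl : 0 ≤ l) (z1 z2 : H) :
    ∃ C : ℝ, 0 ≤ C ∧ ∀ ρ ≤ (1 : ℝ), ∀ c : Fin 6, |co T Q l z1 z2 ρ c| ≤ C := by
  obtain ⟨U1, hU1⟩ := isCompact_Icc.exists_bound_of_continuousOn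
    ((u1_cont z1 z2 hT hQ hl).continuousOn (s := Icc (0 : ℝ) 1))
  obtain ⟨U2, hU2⟩ := isCompact_Icc.exists_bound_of_continuousOn
    ((u2_cont z1 z2 hT hQ hl).continuousOn (s := Icc (0 : ℝ) 1))
  obtain ⟨U3, hU3⟩ := isCompact_Icc.exists_bound_of_continuousOn
    ((u3_cont z1 z2 hT hQ hl).continuousOn (s := Icc (0 : ℝ) 1))
  have n1 := abs_nonneg U1
  have n2 := abs_nonneg U2
  have n3 := abs_nonneg U3
  refine ⟨|U1| + 2 * |U2| + |U3|, by positivity, fun ρ hρ c => ?_⟩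
  have hmem : max ρ 0 ∈ Icc (0 : ℝ) 1 := ⟨le_max_right _ _, max_le hρ (by norm_num)⟩
  have hsg : ∀ g h : H, sg T Q g h (max ρ 0) = sg T Q g h ρ := by
    intro g h
    unfold sg
    rw [max_eq_left (le_max_right ρ 0)]
  have e1 : u1 T Q l z1 z2 (max ρ 0) = u1 T Q l z1 z2 ρ := by
    unfold u1 DD; simp only [hsg]
  have e2 : u2 T Q l z1 z2 (max ρ 0) = u2 T Q l z1 z2 ρ := by
    unfold u2 DD; simp only [hsg]
  have e3 : u3 T Q l z1 z2 (max ρ 0) = u3 T Q l z1 z2 ρ := by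
    unfold u3 DD; simp only [hsg]
  have h1 := hU1 _ hmem
  have h2 := hU2 _ hmem
  have h3 := hU3 _ hmem
  rw [e1, Real.norm_eq_abs] at h1
  rw [e2, Real.norm_eq_abs] at h2
  rw [e3, Real.norm_eq_abs] at h3
  have k1 := le_abs_self U1
  have k2 := le_abs_self U2
  have k3 := le_abs_self U3
  fin_cases c
  · show |u1 T Q l z1 z2 ρ| ≤ _; linarith
  · show |u1 T Q l z1 z2 ρ| ≤ _; linarith
  · show |2 * u2 T Q l z1 z2 ρ| ≤ _; rw [abs_mul, abs_two]; linarith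
  · show |2 * u2 T Q l z1 z2 ρ| ≤ _; rw [abs_mul, abs_two]; linarith
  · show |u3 T Q l z1 z2 ρ| ≤ _; linarith
  · show |u3 T Q l z1 z2 ρ| ≤ _; linarith

/-- lower bound of the exponent on the unit square -/
theorem Hf_lower (hT : IsC0Semigroup T) (hQ : Q.IsPositive) {l : ℝ} (hl : 0 ≤ l) (α : ℝ)
    (z1 z2 : H) : ∃ c0 : ℝ, ∀ Y : H →L[ℝ] H, Y.IsPositive → ∀ ρ ∈ Icc (0 : ℝ) 1,
      c0 ≤ Hf T Q l α z1 z2 Y ρ := by
  have i4 : Continuous (fun ρ => Real.log (DD T Q l z1 z2 ρ)) :=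
    (DD_cont z1 z2 hT).log
      (fun ρ => ne_of_gt (lt_of_lt_of_le one_pos (DD_ge z1 z2 hT hQ hl ρ)))
  obtain ⟨M, hM⟩ := isCompact_Icc.exists_bound_of_continuousOn
    (i4.continuousOn (s := Icc (0 : ℝ) 1))
  refine ⟨-(|α / 2| * M), fun Y hY ρ hρ => ?_⟩
  refine le_trans ?_ (Hf_ge hT hQ hl hY ρ)
  have h1 := hM ρ hρ
  rw [Real.norm_eq_abs] at h1
  have h2 : |α / 2 * Real.log (DD T Q l z1 z2 ρ)| ≤ |α / 2| * M := by
    rw [abs_mul]; exact mul_le_mul_of_nonneg_left h1 (abs_nonneg _)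
  exact (abs_le.1 h2).1

end Pool.Agent.R977.WI
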