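import Pool.Agent.R977.WI.Pw6
import Pool.Agent.R977.WI.AL

/-! Probability part 2: the affine transform formula. -/

set_option autoImplicit false
set_option linter.unusedSectionVars false
set_option linter.unusedSimpArgs false
set_option linter.unusedVariables false

open MeasureTheory ProbabilityTheory Filter Set
open scoped ENNReal NNReal Topology RealInnerProductSpace

universe u v

namespace Pool.Agent.R977.WI

variable {H : Type u} [NormedAddCommGroup H] [InnerProductSpace ℝ H]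
variable {Ω : Type v} [mΩ : MeasurableSpace Ω] {P : Measure Ω} {F : Filtration ℝ mΩ}
  {e : HilbertBasis ℕ ℝ H} {β : ℕ → ℕ → ℝ → Ω → ℝ} {T : ℝ → H →L[ℝ] H}
  {Q SQ : H →L[ℝ] H} {α : ℝ} {X R : ℝ → Ω → H →L[ℝ] H}

/-- the bad event for one Ito integral -/
def Bd (P : Measure Ω) (e : HilbertBasis ℕ ℝ H) (β : ℕ → ℕ → ℝ → Ω → ℝ) (f : ℝ → Ω → H) (v : H)
    (I : ℝ → Ω → ℝ) (η : ℝ) (n : ℕ) : Set Ω :=
  {ω | ∃ t ∈ Icc (0 : ℝ) 1, η < |itoSum e β f v n t ω - I t ω|}

/-- choice of the fine level -/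
theorem choose_level (ffs : ℕ → Fin 6 → ℝ → Ω → H) (vvs : ℕ → Fin 6 → H)
    (II : ℕ → Fin 6 → ℝ → Ω → ℝ) (hI : ∀ j c, IsIto P e β (ffs j c) (vvs j c) (II j c))
    (N k p : ℕ) : ∃ n : ℕ, k ≤ n ∧ p ≤ n ∧
      P (⋃ j ∈ Finset.range N, ⋃ c ∈ (Finset.univ : Finset (Fin 6)),
        Bd P e β (ffs j c) (vvs j c) (II j c) ((1 / 2 : ℝ) ^ k) n) ≤ (1 / 2 : ℝ≥0∞) ^ k := by
  have h1 : Tendsto (fun n => ∑ j ∈ Finset.range N, ∑ c : Fin 6,
      P (Bd P e β (ffs j c) (vvs j c) (II j c) ((1 / 2 : ℝ) ^ k) n)) atTop (𝓝 0) := by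
    have : (0 : ℝ≥0∞) = ∑ j ∈ Finset.range N, ∑ c : Fin 6, 0 := by simp
    rw [this]
    refine tendsto_finsetSum _ (fun j _ => tendsto_finsetSum _ (fun c _ => ?_))
    exact (hI j c).2 1 ((1 / 2 : ℝ) ^ k) one_pos (by positivity)
  have h2 : (0 : ℝ≥0∞) < (1 / 2 : ℝ≥0∞) ^ k := by
    apply ENNReal.pow_pos
    simp
  have h3 := (h1.eventually (gt_mem_nhds h2)).and ((eventually_ge_atTop k).and
    (eventually_ge_atTop p))
  obtain ⟨n, hn1, hn2, hn3⟩ := h3.exists
  refine ⟨n, hn2, hn3, le_trans ?_ hn1.le⟩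
  refine (measure_biUnion_finset_le _ _).trans (Finset.sum_le_sum (fun j _ => ?_))
  exact measure_biUnion_finset_le _ _

theorem meas_inner (hsol : IsWishartSolution P F e β T Q SQ α X R) {t : ℝ} (ht : 0 ≤ t)
    (g h : H) : Measurable[F t] (fun ω => ⟪X t ω g, h⟫) := by
  have h1 : Continuous (fun A : H →L[ℝ] H => ⟪A g, h⟫) :=
    (continuous_id.clm_apply continuous_const).inner continuous_const
  exact (h1.comp_stronglyMeasurable (hsol.adapted t ht)).measurable

theorem meas_Hf (hsol : IsWishartSolution P F e β T Q SQ α X R) {t : ℝ} (ht : 0 ≤ t)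
    (l : ℝ) (z1 z2 : H) (ρ : ℝ) :
    Measurable[F t] (fun ω => Real.exp (-Hf T Q l α z1 z2 (X t ω) ρ)) := by
  have m1 := meas_inner hsol ht (yy T z1 ρ) (yy T z1 ρ)
  have m2 := meas_inner hsol ht (yy T z1 ρ) (yy T z2 ρ)
  have m3 := meas_inner hsol ht (yy T z2 ρ) (yy T z2 ρ)
  have h : Measurable[F t] (fun ω => Hf T Q l α z1 z2 (X t ω) ρ) := by
    unfold Hf
    exact ((((m1.const_mul _).add (m2.const_mul _)).add (m3.const_mul _)).add_const _)
  exact Real.measurable_exp.comp h.neg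

/-- the affine transform formula -/
theorem affine [IsProbabilityMeasure P] (hT : IsC0Semigroup T) (hQ : Q.IsPositive)
    (hSQ : SQ.IsPositive) (hSQQ : SQ.comp SQ = Q)
    (hsol : IsWishartSolution P F e β T Q SQ α X R) {l : ℝ} (hl : 0 ≤ l) {z1 z2 a1 a2 : H}
    (hz1 : Gen T z1 a1) (hz2 : Gen T z2 a2) :
    ∫⁻ ω, ENNReal.ofReal (Real.exp (-Hf T Q l α z1 z2 (X 1 ω) 0)) ∂P
      = ∫⁻ ω, ENNReal.ofReal (Real.exp (-Hf T Q l α z1 z2 (X 0 ω) 1)) ∂P := by
  choose I11 J11 hI11 hJ11 hE11 using fun (p j : ℕ) =>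
    hsol.eqn _ _ _ _ (gen_yy hT hz1 (rho p j)) (gen_yy hT hz1 (rho p j))
  choose I12 J12 hI12 hJ12 hE12 using fun (p j : ℕ) =>
    hsol.eqn _ _ _ _ (gen_yy hT hz1 (rho p j)) (gen_yy hT hz2 (rho p j))
  choose I22 J22 hI22 hJ22 hE22 using fun (p j : ℕ) =>
    hsol.eqn _ _ _ _ (gen_yy hT hz2 (rho p j)) (gen_yy hT hz2 (rho p j))
  set II : ℕ → ℕ → Fin 6 → ℝ → Ω → ℝ := fun p j =>
    ![I11 p j, J11 p j, I12 p j, J12 p j, I22 p j, J22 p j] with hII
  have hIto : ∀ p j c, IsIto P e β (ff T R z1 z2 (rho p j) c) (vv T SQ z1 z2 (rho p j) c)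
      (II p j c) := by
    intro p j c
    fin_cases c
    · exact hI11 p j
    · exact hJ11 p j
    · exact hI12 p j
    · exact hJ12 p j
    · exact hI22 p j
    · exact hJ22 p j
  choose nk hnk1 hnk2 hnk3 using fun (p k : ℕ) =>
    choose_level (P := P) (e := e) (β := β) (fun j => ff T R z1 z2 (rho p j))
      (fun j => vv T SQ z1 z2 (rho p j)) (II p) (hIto p) (2 ^ p + 1) k p
  obtain ⟨c0, hc0⟩ := Hf_lower hT hQ hl α z1 z2
  obtain ⟨C, hC, hco⟩ := co_bd hT hQ hl z1 z2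
  -- almost sure statements
  have hae2 : ∀ᵐ ω ∂P, ∀ p : ℕ, ∀ᶠ k in atTop, ω ∉ (⋃ j ∈ Finset.range (2 ^ p + 1),
      ⋃ c ∈ (Finset.univ : Finset (Fin 6)), Bd P e β (ff T R z1 z2 (rho p j) c)
        (vv T SQ z1 z2 (rho p j) c) (II p j c) ((1 / 2 : ℝ) ^ k) (nk p k)) := by
    rw [ae_all_iff]
    intro p
    apply ae_eventually_notMem
    refine ne_top_of_le_ne_top ?_ (ENNReal.tsum_le_tsum (fun k => hnk3 p k))
    rw [ENNReal.tsum_geometric]
    simp
  have hae11 : ∀ᵐ ω ∂P, ∀ (p j n i : ℕ), EqP (fun s => X s ω) Q α (yy T z1 (rho p j))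
      (yy T a1 (rho p j)) (yy T z1 (rho p j)) (yy T a1 (rho p j)) (fun t => I11 p j t ω)
      (fun t => J11 p j t ω) ((i : ℝ) / 2 ^ n) := by
    rw [ae_all_iff]; intro p
    rw [ae_all_iff]; intro j
    rw [ae_all_iff]; intro n
    rw [ae_all_iff]; intro i
    exact hE11 p j ((i : ℝ) / 2 ^ n) (by positivity)
  have hae12 : ∀ᵐ ω ∂P, ∀ (p j n i : ℕ), EqP (fun s => X s ω) Q α (yy T z1 (rho p j))
      (yy T a1 (rho p j)) (yy T z2 (rho p j)) (yy T a2 (rho p j)) (fun t => I12 p j t ω)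
      (fun t => J12 p j t ω) ((i : ℝ) / 2 ^ n) := by
    rw [ae_all_iff]; intro p
    rw [ae_all_iff]; intro j
    rw [ae_all_iff]; intro n
    rw [ae_all_iff]; intro i
    exact hE12 p j ((i : ℝ) / 2 ^ n) (by positivity)
  have hae22 : ∀ᵐ ω ∂P, ∀ (p j n i : ℕ), EqP (fun s => X s ω) Q α (yy T z2 (rho p j))
      (yy T a2 (rho p j)) (yy T z2 (rho p j)) (yy T a2 (rho p j)) (fun t => I22 p j t ω)
      (fun t => J22 p j t ω) ((i : ℝ) / 2 ^ n) := by
    rw [ae_all_iff]; intro p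
    rw [ae_all_iff]; intro j
    rw [ae_all_iff]; intro n
    rw [ae_all_iff]; intro i
    exact hE22 p j ((i : ℝ) / 2 ^ n) (by positivity)
  -- the extended paths
  have hxc : ∀ᵐ ω ∂P, Continuous (fun s : ℝ => X (max s 0) ω) := by
    filter_upwards [hsol.cont] with ω hω
    exact hω.comp_continuous (by fun_prop) (fun s => le_max_right s 0)
  have hxt : ∀ᵐ ω ∂P, Continuous (fun s : ℝ => ∑' k, ⟪X (max s 0) ω (e k), e k⟫) := by
    filter_upwards [hsol.contTrace] with ω hω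
    exact hω.comp_continuous (f := fun s : ℝ => max s 0) (by fun_prop)
      (fun s => le_max_right s 0)
  have hfin : ∀ n i : ℕ, max ((i : ℝ) / 2 ^ n) 0 = (i : ℝ) / 2 ^ n := fun n i =>
    max_eq_left (by positivity)
  have hAL := stmAL Ω P (fun ω => Real.exp (-Hf T Q l α z1 z2 (X 0 ω) 1))
    (fun ω => Real.exp (-Hf T Q l α z1 z2 (X 1 ω) 0)) (Real.exp (-c0))
    (fun p k => mkD hsol l z1 z2 p (nk p k))
  refine hAL ?_ (fun ω => (Real.exp_pos _).le) ?_ (fun ω => (Real.exp_pos _).le) ?_ ?_ ?_ ?_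
  · exact (meas_Hf hsol zero_le_one l z1 z2 0).mono (F.le 1) le_rfl
  · intro ω
    apply Real.exp_le_exp.2
    have := hc0 (X 0 ω) (hsol.pos 0 ω le_rfl) 1 (by simp)
    linarith
  · intro p k
    show Measurable[F (((0 : ℕ) : ℝ) / 2 ^ (nk p k))] _
    have h0 : ((0 : ℕ) : ℝ) / 2 ^ (nk p k) = 0 := by simp
    rw [h0]
    exact meas_Hf hsol le_rfl l z1 z2 1
  · intro p k
    simp only [mkD]
    push_cast
    rw [mul_one_div_cancel (by positivity)]
  · filter_upwards [hae2, hae11, hae12, hae22, hxc, hxt] with ω w2 w11 w12 w22 hxcω hxtω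
    intro ε hε
    have hpg := path_good (α := α) (z1 := z1) (z2 := z2) (a1 := a1) (a2 := a2) (e := e) (l := l)
      hT hQ hSQ hSQQ hl hz1 hz2
      (x := fun s => X (max s 0) ω) (r := fun s => R (max s 0) ω) hxcω
      (fun s => hsol.pos _ ω (le_max_right s 0)) (fun s => hsol.trace _ ω (le_max_right s 0))
      hxtω (fun s => hsol.posR _ ω (le_max_right s 0))
      (fun s => hsol.sqR _ ω (le_max_right s 0))
      (fun p j c t => II p j c t ω)
      (fun p j n i => EqP_max (by positivity) (w11 p j n i))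
      (fun p j n i => EqP_max (by positivity) (w12 p j n i))
      (fun p j n i => EqP_max (by positivity) (w22 p j n i))
      (fun n p j c t => itoSum e β (ff T R z1 z2 (rho p j) c) (vv T SQ z1 z2 (rho p j) c) n t ω)
      nk hnk1 hnk2
      (by
        intro p
        filter_upwards [w2 p] with k hk
        intro j hj c t ht
        by_contra hcon
        apply hk
        simp only [mem_iUnion]
        exact ⟨j, Finset.mem_range.2 (by omega), c, Finset.mem_univ _, t, ht, not_le.1 hcon⟩)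
      (fun p k i => (mkD hsol l z1 z2 p (nk p k)).S i ω)
      (fun p k i => (mkD hsol l z1 z2 p (nk p k)).V i ω)
      (by
        intro p k i
        rw [mkD_S]
        apply Finset.sum_congr rfl
        intro i' _
        apply Finset.sum_congr rfl
        intro c _
        rw [itoSum_succ])
      (by
        intro p k i
        rw [mkD_V]
        simp only [hfin])
      hc0 hC hco hε
    simp only [max_self, max_eq_left (zero_le_one (α := ℝ))] at hpg
    exact hpg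
  · filter_upwards [hxc] with ω hxcω
    obtain ⟨K, hK⟩ := K1n_bd (z1 := z1) (z2 := z2) (e := e) (l := l) hT hQ hSQ hSQQ hl
      (X := fun s => X (max s 0) ω) (R := fun s => R (max s 0) ω) hxcω
      (fun s => hsol.posR _ ω (le_max_right s 0))
      (fun s => hsol.sqR _ ω (le_max_right s 0))
    refine ⟨K, fun p k i hi => ?_⟩
    have hi' : i < 2 ^ (nk p k) := hi
    have h1 := sum_theta_sq (T := T) (Q := Q) (SQ := SQ) (e := e) (R := R) l z1 z2
      (rho p (i / 2 ^ (nk p k - p))) (nk p k) i ω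
    refine le_trans (le_of_eq h1) ?_
    have hs : (i : ℝ) / 2 ^ (nk p k) ∈ Icc (0 : ℝ) 1 := by
      refine ⟨by positivity, ?_⟩
      rw [div_le_one (by positivity)]
      exact_mod_cast hi'.le
    have hjP := div_lt_pow (hnk2 p k) hi'
    have hr : rho p (i / 2 ^ (nk p k - p)) ∈ Icc (0 : ℝ) 1 := by
      have hj1 : (((i / 2 ^ (nk p k - p) : ℕ) : ℝ) + 1) / 2 ^ p ≤ 1 := by
        rw [div_le_one (by positivity)]; exact_mod_cast hjP
      have hj0 : 0 ≤ (((i / 2 ^ (nk p k - p) : ℕ) : ℝ) + 1) / 2 ^ p := by positivity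
      unfold rho
      constructor <;> linarith
    have h2 := hK (nk p k) _ hs _ hr
    simp only [hfin] at h2
    exact h2

end Pool.Agent.R977.WI
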