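import Pool.Agent.R977.WI.Sg

/-! Pathwise estimates, part 1: the two-level dyadic grid. -/

set_option autoImplicit false
set_option linter.unusedSectionVars false
set_option linter.unusedSimpArgs false
set_option linter.unusedVariables false

open MeasureTheory ProbabilityTheory Filter Set
open scoped ENNReal NNReal Topology RealInnerProductSpace

universe u v

namespace Pool.Agent.R977.WI

/-- remaining time at the end of the `j`-th coarse block -/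
noncomputable def rho (p j : ℕ) : ℝ := 1 - ((j : ℝ) + 1) / 2 ^ p

/-- the jump of the exponent when the test vectors are changed -/
noncomputable def Jmp (Φ : ℝ → ℝ → ℝ) (p j : ℕ) : ℝ :=
  Φ ((j : ℝ) / 2 ^ p) (rho p j + 1 / 2 ^ p) - Φ ((j : ℝ) / 2 ^ p) (rho p j)

/-- one step -/
noncomputable def stp (Φ : ℝ → ℝ → ℝ) (p n i : ℕ) : ℝ :=
  Φ (((i : ℝ) + 1) / 2 ^ n) (rho p (i / 2 ^ (n - p))) - Φ ((i : ℝ) / 2 ^ n) (rho p (i / 2 ^ (n - p)))
    - Jmp Φ p (i / 2 ^ (n - p)) / 2 ^ (n - p)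

noncomputable def Cc (Φ : ℝ → ℝ → ℝ) (p n i : ℕ) : ℝ :=
  Φ 0 1 + ∑ j ∈ Finset.range i, stp Φ p n j

theorem pow_split {p n : ℕ} (h : p ≤ n) : (2 : ℝ) ^ n = 2 ^ p * 2 ^ (n - p) := by
  rw [← pow_add, Nat.add_sub_cancel' h]

theorem rho_succ (p j : ℕ) : rho p (j + 1) + 1 / 2 ^ p = rho p j := by
  unfold rho
  push_cast
  ring

theorem Cc_eq (Φ : ℝ → ℝ → ℝ) {p n : ℕ} (h : p ≤ n) (i : ℕ) (hi : i < 2 ^ n) :
    Cc Φ p n i = Φ ((i : ℝ) / 2 ^ n) (rho p (i / 2 ^ (n - p)))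
      + (1 - ((i % 2 ^ (n - p) : ℕ) : ℝ) / 2 ^ (n - p)) * Jmp Φ p (i / 2 ^ (n - p)) ∧
    Cc Φ p n (i + 1) = Φ (((i : ℝ) + 1) / 2 ^ n) (rho p (i / 2 ^ (n - p)))
      + (1 - (((i % 2 ^ (n - p) : ℕ) : ℝ) + 1) / 2 ^ (n - p)) * Jmp Φ p (i / 2 ^ (n - p)) := by
  have hM : (0 : ℝ) < 2 ^ (n - p) := by positivity
  have hP : (0 : ℝ) < 2 ^ p := by positivity
  have key : ∀ i : ℕ, Cc Φ p n i = Φ ((i : ℝ) / 2 ^ n) (rho p (i / 2 ^ (n - p)))
      + (1 - ((i % 2 ^ (n - p) : ℕ) : ℝ) / 2 ^ (n - p)) * Jmp Φ p (i / 2 ^ (n - p)) →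
      Cc Φ p n (i + 1) = Φ (((i : ℝ) + 1) / 2 ^ n) (rho p (i / 2 ^ (n - p)))
      + (1 - (((i % 2 ^ (n - p) : ℕ) : ℝ) + 1) / 2 ^ (n - p)) * Jmp Φ p (i / 2 ^ (n - p)) := by
    intro i hh
    have : Cc Φ p n (i + 1) = Cc Φ p n i + stp Φ p n i := by
      unfold Cc; rw [Finset.sum_range_succ]; ring
    rw [this, hh]
    unfold stp
    ring
  have main : ∀ i : ℕ, Cc Φ p n i = Φ ((i : ℝ) / 2 ^ n) (rho p (i / 2 ^ (n - p)))
      + (1 - ((i % 2 ^ (n - p) : ℕ) : ℝ) / 2 ^ (n - p)) * Jmp Φ p (i / 2 ^ (n - p)) := by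
    intro i
    induction i with
    | zero =>
      simp only [Cc, Finset.range_zero, Finset.sum_empty, add_zero, Nat.cast_zero, zero_div,
        Nat.zero_div, Nat.zero_mod, sub_zero, one_mul, Jmp, rho]
      have : (1 : ℝ) - (0 + 1) / 2 ^ p + 1 / 2 ^ p = 1 := by ring
      rw [this]
      ring
    | succ i ih =>
      have h1 := key i ih
      rw [h1]
      by_cases hd : 2 ^ (n - p) ∣ i + 1
      · have e1 : (i + 1) / 2 ^ (n - p) = i / 2 ^ (n - p) + 1 := by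
          rw [Nat.succ_div, if_pos hd]
        have e2 : (i + 1) % 2 ^ (n - p) = 0 := Nat.mod_eq_zero_of_dvd hd
        have e3 : i % 2 ^ (n - p) + 1 = 2 ^ (n - p) := by
          have a1 := Nat.div_add_mod i (2 ^ (n - p))
          have a2 := Nat.div_add_mod (i + 1) (2 ^ (n - p))
          rw [e1, e2] at a2
          have : 2 ^ (n - p) * (i / 2 ^ (n - p) + 1) = 2 ^ (n - p) * (i / 2 ^ (n - p)) + 2 ^ (n - p) := by
            ring
          omega
        have e3' : (((i % 2 ^ (n - p) : ℕ) : ℝ) + 1) = 2 ^ (n - p) := by exact_mod_cast e3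
        have e4 : (((i + 1 : ℕ) : ℝ)) / 2 ^ n = ((i / 2 ^ (n - p) + 1 : ℕ) : ℝ) / 2 ^ p := by
          obtain ⟨c, hc⟩ := hd
          have : (i + 1) / 2 ^ (n - p) = c := by
            rw [hc]; exact Nat.mul_div_cancel_left c (by positivity)
          rw [← e1, this, hc, pow_split h]
          push_cast
          field_simp
        rw [e1, e2, e3', div_self (ne_of_gt hM)]
        unfold Jmp
        rw [rho_succ]
        push_cast at e4 ⊢
        rw [e4]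
        ring
      · have e1 : (i + 1) / 2 ^ (n - p) = i / 2 ^ (n - p) := by
          rw [Nat.succ_div, if_neg hd]; rfl
        have e2 : (i + 1) % 2 ^ (n - p) = i % 2 ^ (n - p) + 1 := by
          have a1 := Nat.div_add_mod i (2 ^ (n - p))
          have a2 := Nat.div_add_mod (i + 1) (2 ^ (n - p))
          rw [e1] at a2
          omega
        rw [e1, e2]
        push_cast
        ring
  exact ⟨main i, key i (main i)⟩

theorem Cc_end (Φ : ℝ → ℝ → ℝ) {p n : ℕ} (h : p ≤ n) : Cc Φ p n (2 ^ n) = Φ 1 0 := by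
  have hn : 0 < 2 ^ n := by positivity
  have h1 := (Cc_eq Φ h (2 ^ n - 1) (by omega)).2
  rw [Nat.sub_add_cancel hn] at h1
  rw [h1]
  have hdiv : (2 ^ n - 1) / 2 ^ (n - p) = 2 ^ p - 1 := by
    have e : 2 ^ n = 2 ^ p * 2 ^ (n - p) := by rw [← pow_add, Nat.add_sub_cancel' h]
    have hp : 0 < 2 ^ p := by positivity
    have hm : 0 < 2 ^ (n - p) := by positivity
    rw [Nat.div_eq_iff hm, e]
    constructor
    · have : (2 ^ p - 1) * 2 ^ (n - p) = 2 ^ p * 2 ^ (n - p) - 2 ^ (n - p) := by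
        rw [Nat.sub_mul, one_mul]
      have h3 : 2 ^ (n - p) ≤ 2 ^ p * 2 ^ (n - p) := Nat.le_mul_of_pos_left _ hp
      omega
    · have : (2 ^ p - 1) * 2 ^ (n - p) = 2 ^ p * 2 ^ (n - p) - 2 ^ (n - p) := by
        rw [Nat.sub_mul, one_mul]
      have h3 : 2 ^ (n - p) ≤ 2 ^ p * 2 ^ (n - p) := Nat.le_mul_of_pos_left _ hp
      omega
  have hmod : (2 ^ n - 1) % 2 ^ (n - p) + 1 = 2 ^ (n - p) := by
    have a1 := Nat.div_add_mod (2 ^ n - 1) (2 ^ (n - p))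
    have e : 2 ^ n = 2 ^ (n - p) * 2 ^ p := by rw [← pow_add, Nat.sub_add_cancel h]
    have hp : 0 < 2 ^ p := by positivity
    rw [hdiv, Nat.mul_sub, mul_one, ← e] at a1
    have h3 : 2 ^ (n - p) ≤ 2 ^ n := Nat.pow_le_pow_right (by norm_num) (by omega)
    omega
  have hmod' : ((((2 ^ n - 1) % 2 ^ (n - p) : ℕ) : ℝ) + 1) = 2 ^ (n - p) := by exact_mod_cast hmod
  have hM : (0 : ℝ) < 2 ^ (n - p) := by positivity
  rw [hmod', div_self (ne_of_gt hM), hdiv]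
  have e5 : (((2 ^ n - 1 : ℕ) : ℝ) + 1) = 2 ^ n := by
    have : 2 ^ n - 1 + 1 = 2 ^ n := Nat.sub_add_cancel hn
    exact_mod_cast this
  have e6 : rho p (2 ^ p - 1) = 0 := by
    unfold rho
    have hp : 0 < 2 ^ p := by positivity
    have : (((2 ^ p - 1 : ℕ) : ℝ) + 1) = 2 ^ p := by
      have : 2 ^ p - 1 + 1 = 2 ^ p := Nat.sub_add_cancel hp
      exact_mod_cast this
    rw [this, div_self (by positivity)]
    ring
  rw [e5, e6, div_self (by positivity)]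
  ring

/-- telescoping over the blocks -/
theorem block_bound (μ : ℕ → ℝ → ℝ) (c : ℕ → ℝ) {p n : ℕ} (h : p ≤ n) (C η : ℝ) (hC : 0 ≤ C)
    (hη : 0 ≤ η) (hc : ∀ j, |c j| ≤ C)
    (hμ : ∀ j ≤ 2 ^ p, ∀ t ∈ Icc (0 : ℝ) 1, |μ j t| ≤ η) (i : ℕ) (hi : i ≤ 2 ^ n) :
    |∑ i' ∈ Finset.range i, c (i' / 2 ^ (n - p)) * (μ (i' / 2 ^ (n - p)) (((i' : ℝ) + 1) / 2 ^ n)
      - μ (i' / 2 ^ (n - p)) ((i' : ℝ) / 2 ^ n))| ≤ (2 ^ p + 1) * (2 * C * η) := by
  have hM : (0 : ℝ) < 2 ^ (n - p) := by positivity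
  have hmain : ∀ i : ℕ, ∑ i' ∈ Finset.range i, c (i' / 2 ^ (n - p)) *
      (μ (i' / 2 ^ (n - p)) (((i' : ℝ) + 1) / 2 ^ n) - μ (i' / 2 ^ (n - p)) ((i' : ℝ) / 2 ^ n))
      = ∑ j ∈ Finset.range (i / 2 ^ (n - p)), c j * (μ j (((j : ℝ) + 1) / 2 ^ p) - μ j ((j : ℝ) / 2 ^ p))
        + c (i / 2 ^ (n - p)) * (μ (i / 2 ^ (n - p)) ((i : ℝ) / 2 ^ n)
          - μ (i / 2 ^ (n - p)) (((i / 2 ^ (n - p) : ℕ) : ℝ) / 2 ^ p)) := by
    intro i
    induction i with
    | zero => simp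
    | succ i ih =>
      rw [Finset.sum_range_succ, ih]
      by_cases hd : 2 ^ (n - p) ∣ i + 1
      · have e1 : (i + 1) / 2 ^ (n - p) = i / 2 ^ (n - p) + 1 := by
          rw [Nat.succ_div, if_pos hd]
        have e4 : (((i : ℝ) + 1)) / 2 ^ n = (((i / 2 ^ (n - p) : ℕ) : ℝ) + 1) / 2 ^ p := by
          obtain ⟨q, hq⟩ := hd
          have h7 : (i + 1) / 2 ^ (n - p) = q := by
            rw [hq]; exact Nat.mul_div_cancel_left q (by positivity)
          have h8 : ((i : ℝ) + 1) = 2 ^ (n - p) * (q : ℝ) := by exact_mod_cast hq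
          have h9 : (((i / 2 ^ (n - p) : ℕ) : ℝ) + 1) = (q : ℝ) := by
            have : i / 2 ^ (n - p) + 1 = q := by rw [← e1, h7]
            exact_mod_cast this
          rw [h8, h9, pow_split h]
          field_simp
        rw [e1, Finset.sum_range_succ]
        push_cast
        rw [e4]
        ring
      · have e1 : (i + 1) / 2 ^ (n - p) = i / 2 ^ (n - p) := by
          rw [Nat.succ_div, if_neg hd]; rfl
        rw [e1]
        push_cast
        ring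
  rw [hmain i]
  have hq : i / 2 ^ (n - p) ≤ 2 ^ p := by
    have e : 2 ^ n = 2 ^ p * 2 ^ (n - p) := by rw [← pow_add, Nat.add_sub_cancel' h]
    calc i / 2 ^ (n - p) ≤ 2 ^ n / 2 ^ (n - p) := Nat.div_le_div_right hi
      _ = 2 ^ p := by rw [e]; exact Nat.mul_div_cancel _ (by positivity)
  have hone : ∀ j ≤ 2 ^ p, ∀ s ∈ Icc (0 : ℝ) 1, ∀ t ∈ Icc (0 : ℝ) 1,
      |c j * (μ j s - μ j t)| ≤ 2 * C * η := by
    intro j hj s hs t ht
    rw [abs_mul]
    have h1 : |μ j s - μ j t| ≤ 2 * η := by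
      have h3 := abs_sub (μ j s) (μ j t)
      have h4 := hμ j hj s hs
      have h5 := hμ j hj t ht
      linarith
    calc |c j| * |μ j s - μ j t| ≤ C * (2 * η) :=
          mul_le_mul (hc j) h1 (abs_nonneg _) hC
      _ = 2 * C * η := by ring
  have hin : ∀ j : ℕ, j ≤ 2 ^ p → (j : ℝ) / 2 ^ p ∈ Icc (0 : ℝ) 1 := by
    intro j hj
    refine ⟨by positivity, ?_⟩
    rw [div_le_one (by positivity)]
    exact_mod_cast hj
  have hin' : (i : ℝ) / 2 ^ n ∈ Icc (0 : ℝ) 1 := by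
    refine ⟨by positivity, ?_⟩
    rw [div_le_one (by positivity)]
    exact_mod_cast hi
  have h1 : |∑ j ∈ Finset.range (i / 2 ^ (n - p)), c j * (μ j (((j : ℝ) + 1) / 2 ^ p)
      - μ j ((j : ℝ) / 2 ^ p))| ≤ 2 ^ p * (2 * C * η) := by
    calc _ ≤ ∑ j ∈ Finset.range (i / 2 ^ (n - p)), |c j * (μ j (((j : ℝ) + 1) / 2 ^ p)
          - μ j ((j : ℝ) / 2 ^ p))| := Finset.abs_sum_le_sum_abs _ _
      _ ≤ ∑ j ∈ Finset.range (i / 2 ^ (n - p)), (2 * C * η) := by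
          apply Finset.sum_le_sum
          intro j hj
          have hj' : j + 1 ≤ 2 ^ p := by
            have := Finset.mem_range.1 hj
            omega
          have h3 := hin (j + 1) hj'
          push_cast at h3
          exact hone j (by omega) _ h3 _ (hin j (by omega))
      _ = ((i / 2 ^ (n - p) : ℕ) : ℝ) * (2 * C * η) := by simp
      _ ≤ 2 ^ p * (2 * C * η) := by
          apply mul_le_mul_of_nonneg_right _ (by positivity)
          exact_mod_cast hq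
  have h2 := hone _ hq _ hin' _ (hin _ hq)
  calc _ ≤ |∑ j ∈ Finset.range (i / 2 ^ (n - p)), c j * (μ j (((j : ℝ) + 1) / 2 ^ p)
          - μ j ((j : ℝ) / 2 ^ p))| + _ := abs_add_le _ _
    _ ≤ 2 ^ p * (2 * C * η) + 2 * C * η := add_le_add h1 h2
    _ = (2 ^ p + 1) * (2 * C * η) := by ring

/-- uniform continuity on the blocks -/
theorem block_osc {F : ℝ × ℝ → ℝ} (hF : Continuous F) {ε : ℝ} (hε : 0 < ε) :
    ∀ᶠ p : ℕ in atTop, ∀ j : ℕ, j < 2 ^ p → ∀ s ∈ Icc ((j : ℝ) / 2 ^ p) (((j : ℝ) + 1) / 2 ^ p),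
      ∀ ρ ∈ Icc (rho p j) (rho p j + 1 / 2 ^ p),
        |F (ρ, s) - F (rho p j, (j : ℝ) / 2 ^ p)| ≤ ε := by
  have hc : IsCompact (Icc (0 : ℝ) 1 ×ˢ Icc (0 : ℝ) 1) := isCompact_Icc.prod isCompact_Icc
  have hu := hc.uniformContinuousOn_of_continuous hF.continuousOn
  obtain ⟨δ, hδ, h⟩ := Metric.uniformContinuousOn_iff.1 hu ε hε
  have ht : Tendsto (fun p : ℕ => (1 : ℝ) / 2 ^ p) atTop (𝓝 0) := by
    have := tendsto_pow_atTop_nhds_zero_of_lt_one (r := (1 / 2 : ℝ)) (by norm_num) (by norm_num)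
    simpa [one_div, inv_pow] using this
  filter_upwards [ht.eventually (gt_mem_nhds hδ)] with p hp
  intro j hj s hs ρ hρ
  have hP : (0 : ℝ) < 2 ^ p := by positivity
  have hj1 : ((j : ℝ) + 1) / 2 ^ p ≤ 1 := by
    rw [div_le_one hP]; exact_mod_cast hj
  have hj0 : 0 ≤ (j : ℝ) / 2 ^ p := by positivity
  have hr0 : 0 ≤ rho p j := by unfold rho; linarith
  have hjj : ((j : ℝ) + 1) / 2 ^ p = (j : ℝ) / 2 ^ p + 1 / 2 ^ p := by ring
  have hr1 : rho p j + 1 / 2 ^ p ≤ 1 := by unfold rho; rw [hjj]; linarith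
  have hq : 0 < 1 / (2 : ℝ) ^ p := by positivity
  have h1 := h (ρ, s) ⟨⟨hr0.trans hρ.1, hρ.2.trans hr1⟩, ⟨hj0.trans hs.1, hs.2.trans hj1⟩⟩
    (rho p j, (j : ℝ) / 2 ^ p) ⟨⟨hr0, by linarith⟩, ⟨hj0, by rw [hjj] at hj1; linarith⟩⟩ ?_
  · rw [Real.dist_eq] at h1; exact h1.le
  · rw [Prod.dist_eq, Real.dist_eq, Real.dist_eq]
    apply max_lt
    · rw [abs_of_nonneg (by linarith [hρ.1])]
      have := hρ.2
      simp only at *
      linarith
    · rw [abs_of_nonneg (by linarith [hs.1])]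
      have := hs.2
      rw [hjj] at this
      simp only at *
      linarith

end Pool.Agent.R977.WI
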