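import Pool.Agent.R977.WI.Pw1

/-! Pathwise estimates, part 2: truncated quadratic variation and the error of one step. -/

set_option autoImplicit false
set_option linter.unusedSectionVars false
set_option linter.unusedSimpArgs false
set_option linter.unusedVariables false

open MeasureTheory ProbabilityTheory Filter Set
open scoped ENNReal NNReal Topology RealInnerProductSpace

universe u v

namespace Pool.Agent.R977.WI

variable {H : Type u} [NormedAddCommGroup H] [InnerProductSpace ℝ H]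

/-- truncated inner product -/
noncomputable def An (e : HilbertBasis ℕ ℝ H) (R : H →L[ℝ] H) (n : ℕ) (g h : H) : ℝ :=
  ∑ k ∈ Finset.range n, ⟪R g, e k⟫ * ⟪R h, e k⟫

theorem An_hasSum (e : HilbertBasis ℕ ℝ H) {X R : H →L[ℝ] H} (hR : R.IsPositive)
    (hRR : R.comp R = X) (g h : H) :
    HasSum (fun k => ⟪R g, e k⟫ * ⟪R h, e k⟫) ⟪X g, h⟫ := by
  have h1 := e.hasSum_inner_mul_inner (R g) (R h)
  have h2 : ⟪X g, h⟫ = ⟪R g, R h⟫ := by
    rw [← hRR, ContinuousLinearMap.comp_apply, hR.inner_left_eq_inner_right]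
  rw [h2]
  refine h1.congr_fun ?_ |> fun h => h
  intro k
  rw [real_inner_comm (e k) (R h)]

theorem An_tendsto (e : HilbertBasis ℕ ℝ H) {X R : H →L[ℝ] H} (hR : R.IsPositive)
    (hRR : R.comp R = X) (g h : H) :
    Tendsto (fun n => An e R n g h) atTop (𝓝 ⟪X g, h⟫) :=
  (An_hasSum e hR hRR g h).tendsto_sum_nat

theorem An_tail (e : HilbertBasis ℕ ℝ H) {X R : H →L[ℝ] H} (hR : R.IsPositive)
    (hRR : R.comp R = X) (hs : Summable (fun k => ⟪X (e k), e k⟫)) (g h : H) (n : ℕ) :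
    |An e R n g h - ⟪X g, h⟫| ≤ (‖g‖ ^ 2 + ‖h‖ ^ 2) / 2 *
      (∑' k, ⟪X (e k), e k⟫ - ∑ k ∈ Finset.range n, ⟪X (e k), e k⟫) := by
  have hS := An_hasSum e hR hRR g h
  have hf : ∀ k, |⟪R g, e k⟫ * ⟪R h, e k⟫| ≤ (‖g‖ ^ 2 + ‖h‖ ^ 2) / 2 * ⟪X (e k), e k⟫ := by
    intro k
    have h1 : ⟪X (e k), e k⟫ = ‖R (e k)‖ ^ 2 := by
      rw [← hRR, ContinuousLinearMap.comp_apply, hR.inner_left_eq_inner_right,
        real_inner_self_eq_norm_sq]
    have h2 : |⟪R g, e k⟫| ≤ ‖g‖ * ‖R (e k)‖ := by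
      rw [hR.inner_left_eq_inner_right]; exact abs_real_inner_le_norm _ _
    have h3 : |⟪R h, e k⟫| ≤ ‖h‖ * ‖R (e k)‖ := by
      rw [hR.inner_left_eq_inner_right]; exact abs_real_inner_le_norm _ _
    rw [abs_mul, h1]
    calc |⟪R g, e k⟫| * |⟪R h, e k⟫| ≤ (‖g‖ * ‖R (e k)‖) * (‖h‖ * ‖R (e k)‖) :=
          mul_le_mul h2 h3 (abs_nonneg _) (by positivity)
      _ = (‖g‖ * ‖h‖) * ‖R (e k)‖ ^ 2 := by ring
      _ ≤ (‖g‖ ^ 2 + ‖h‖ ^ 2) / 2 * ‖R (e k)‖ ^ 2 := by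
          apply mul_le_mul_of_nonneg_right _ (by positivity)
          nlinarith [sq_nonneg (‖g‖ - ‖h‖)]
  have hsum := hS.summable
  have e1 := hsum.sum_add_tsum_nat_add n
  have e2 := hs.sum_add_tsum_nat_add n
  rw [hS.tsum_eq] at e1
  have e3 : An e R n g h - ⟪X g, h⟫ = -∑' i, ⟪R g, e (i + n)⟫ * ⟪R h, e (i + n)⟫ := by
    rw [← e1]; unfold An; ring
  rw [e3, abs_neg, ← e2, add_sub_cancel_left, ← tsum_mul_left]
  have hs' : Summable (fun i => (‖g‖ ^ 2 + ‖h‖ ^ 2) / 2 * ⟪X (e (i + n)), e (i + n)⟫) :=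
    ((summable_nat_add_iff n).2 hs).mul_left _
  have h5 : ‖∑' i, ⟪R g, e (i + n)⟫ * ⟪R h, e (i + n)⟫‖
      ≤ ∑' i, (‖g‖ ^ 2 + ‖h‖ ^ 2) / 2 * ⟪X (e (i + n)), e (i + n)⟫ :=
    tsum_of_norm_bounded hs'.hasSum (fun i => hf (i + n))
  rwa [Real.norm_eq_abs] at h5

/-- uniform smallness of the tail of the trace (Dini) -/
theorem trace_tail (e : HilbertBasis ℕ ℝ H) {X : ℝ → H →L[ℝ] H} (hX : Continuous X)
    (hpos : ∀ s, (X s).IsPositive) (hs : ∀ s, Summable (fun k => ⟪X s (e k), e k⟫))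
    (htr : Continuous (fun s => ∑' k, ⟪X s (e k), e k⟫)) :
    Tendsto (fun x : ℕ × ℝ => ∑' k, ⟪X x.2 (e k), e k⟫
      - ∑ k ∈ Finset.range x.1, ⟪X x.2 (e k), e k⟫) (atTop ×ˢ 𝓟 (Icc 0 1)) (𝓝 0) := by
  have h1 : TendstoUniformlyOn (fun (n : ℕ) (s : ℝ) => ∑ k ∈ Finset.range n, ⟪X s (e k), e k⟫)
      (fun s => ∑' k, ⟪X s (e k), e k⟫) atTop (Icc 0 1) := by
    refine Monotone.tendstoUniformlyOn_of_forall_tendsto isCompact_Icc ?_ ?_ htr.continuousOn ?_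
    · intro n
      apply Continuous.continuousOn
      refine continuous_finset_sum _ (fun k _ => ?_)
      exact (hX.clm_apply continuous_const).inner continuous_const
    · intro s _
      refine monotone_nat_of_le_succ (fun n => ?_)
      rw [Finset.sum_range_succ]
      have := (hpos s).inner_nonneg_left (e n)
      linarith
    · intro s _
      exact (hs s).hasSum.tendsto_sum_nat
  rw [Metric.tendsto_nhds]
  intro ε hε
  rw [eventually_prod_principal_iff]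
  filter_upwards [Metric.tendstoUniformlyOn_iff.1 h1 ε hε] with n hn s hs'
  have := hn s hs'
  rw [Real.dist_eq] at this ⊢
  simpa using this

/-- bounded function times function tending to zero, along the uniform filter -/
theorem bdd_mul {f : ℝ → ℝ} (hf : Continuous f) {g : ℕ → ℝ} (hg : Tendsto g atTop (𝓝 0)) :
    Tendsto (fun x : ℕ × ℝ => f x.2 * g x.1) (atTop ×ˢ 𝓟 (Icc 0 1)) (𝓝 0) := by
  obtain ⟨C, hC⟩ := isCompact_Icc.exists_bound_of_continuousOn (hf.continuousOn (s := Icc (0 : ℝ) 1))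
  have h1 : Tendsto (fun x : ℕ × ℝ => C * |g x.1|) (atTop ×ˢ 𝓟 (Icc 0 1)) (𝓝 0) := by
    have : Tendsto (fun n => C * |g n|) atTop (𝓝 (C * |(0 : ℝ)|)) := (hg.abs).const_mul C
    rw [abs_zero, mul_zero] at this
    exact this.comp tendsto_fst
  refine squeeze_zero_norm' ?_ h1
  rw [eventually_prod_principal_iff]
  filter_upwards with n s hs
  rw [norm_mul, Real.norm_eq_abs (g n)]
  exact mul_le_mul_of_nonneg_right (hC s hs) (abs_nonneg _)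

section Trunc

variable (T : ℝ → H →L[ℝ] H) (Q SQ : H →L[ℝ] H) (l : ℝ) (z1 z2 : H) (e : HilbertBasis ℕ ℝ H)

/-- truncated version of `K1` -/
noncomputable def K1n (R : H →L[ℝ] H) (n : ℕ) (ρ : ℝ) : ℝ :=
  2 * tr4 (u1 T Q l z1 z2 ρ) (u2 T Q l z1 z2 ρ) (u3 T Q l z1 z2 ρ)
    (An e R n (yy T z1 ρ) (yy T z1 ρ)) (An e R n (yy T z1 ρ) (yy T z2 ρ))
    (An e R n (yy T z2 ρ) (yy T z2 ρ))
    (An e SQ n (yy T z1 ρ) (yy T z1 ρ)) (An e SQ n (yy T z1 ρ) (yy T z2 ρ))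
    (An e SQ n (yy T z2 ρ) (yy T z2 ρ))

/-- the coefficients of the noise -/
noncomputable def thet (R : H →L[ℝ] H) (ρ : ℝ) (k m : ℕ) : ℝ :=
  2 * u1 T Q l z1 z2 ρ * (⟪R (yy T z1 ρ), e k⟫ * ⟪SQ (yy T z1 ρ), e m⟫)
    + 2 * u2 T Q l z1 z2 ρ * (⟪R (yy T z2 ρ), e k⟫ * ⟪SQ (yy T z1 ρ), e m⟫
      + ⟪R (yy T z1 ρ), e k⟫ * ⟪SQ (yy T z2 ρ), e m⟫)
    + 2 * u3 T Q l z1 z2 ρ * (⟪R (yy T z2 ρ), e k⟫ * ⟪SQ (yy T z2 ρ), e m⟫)

theorem thet_sq (R : H →L[ℝ] H) (n : ℕ) (ρ : ℝ) :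
    ∑ k ∈ Finset.range n, ∑ m ∈ Finset.range n, thet T Q SQ l z1 z2 e R ρ k m ^ 2
      = 2 * K1n T Q SQ l z1 z2 e R n ρ := by
  set a := u1 T Q l z1 z2 ρ with ha
  set b := u2 T Q l z1 z2 ρ with hb
  set c := u3 T Q l z1 z2 ρ with hc
  have key : ∀ (s : Finset ℕ) (x y p q : ℕ → ℝ),
      ∑ k ∈ s, ∑ m ∈ s, (2 * a * (x k * p m) + 2 * b * (y k * p m + x k * q m)
        + 2 * c * (y k * q m)) ^ 2
      = 4 * tr4 a b c (∑ k ∈ s, x k * x k) (∑ k ∈ s, x k * y k) (∑ k ∈ s, y k * y k)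
        (∑ m ∈ s, p m * p m) (∑ m ∈ s, p m * q m) (∑ m ∈ s, q m * q m) := by
    intro s x y p q
    have e1 : ∀ k m, (2 * a * (x k * p m) + 2 * b * (y k * p m + x k * q m)
        + 2 * c * (y k * q m)) ^ 2
        = 4 * ((x k * x k) * (a ^ 2 * (p m * p m) + 2 * a * b * (p m * q m) + b ^ 2 * (q m * q m)))
        + 8 * ((x k * y k) * (a * b * (p m * p m) + (a * c + b ^ 2) * (p m * q m)
            + b * c * (q m * q m)))
        + 4 * ((y k * y k) * (b ^ 2 * (p m * p m) + 2 * b * c * (p m * q m)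
            + c ^ 2 * (q m * q m))) := by
      intro k m; ring
    simp only [e1]
    simp only [Finset.sum_add_distrib, ← Finset.mul_sum, ← Finset.sum_mul]
    unfold tr4
    ring
  have h := key (Finset.range n) (fun k => ⟪R (yy T z1 ρ), e k⟫) (fun k => ⟪R (yy T z2 ρ), e k⟫)
    (fun m => ⟪SQ (yy T z1 ρ), e m⟫) (fun m => ⟪SQ (yy T z2 ρ), e m⟫)
  unfold thet K1n An
  rw [← ha, ← hb, ← hc]
  rw [h]
  ring

variable {T Q SQ l z1 z2 e}

theorem K1n_tendsto (hT : IsC0Semigroup T) (hSQ : SQ.IsPositive) (hSQQ : SQ.comp SQ = Q)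
    {X R : ℝ → H →L[ℝ] H} (hX : Continuous X)
    (hpos : ∀ s, (X s).IsPositive) (hs : ∀ s, Summable (fun k => ⟪X s (e k), e k⟫))
    (htr : Continuous (fun s => ∑' k, ⟪X s (e k), e k⟫))
    (hR : ∀ s, (R s).IsPositive) (hRR : ∀ s, (R s).comp (R s) = X s) (ρ : ℝ) :
    Tendsto (fun x : ℕ × ℝ => K1n T Q SQ l z1 z2 e (R x.2) x.1 ρ - K1 T Q l z1 z2 (X x.2) ρ)
      (atTop ×ˢ 𝓟 (Icc 0 1)) (𝓝 0) := by
  set a := u1 T Q l z1 z2 ρ with ha
  set b := u2 T Q l z1 z2 ρ with hb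
  set c := u3 T Q l z1 z2 ρ with hc
  have hA : ∀ g h : H, Tendsto (fun x : ℕ × ℝ => An e (R x.2) x.1 g h - ⟪X x.2 g, h⟫)
      (atTop ×ˢ 𝓟 (Icc 0 1)) (𝓝 0) := by
    intro g h
    have h1 := (trace_tail e hX hpos hs htr).const_mul ((‖g‖ ^ 2 + ‖h‖ ^ 2) / 2)
    rw [mul_zero] at h1
    exact squeeze_zero_norm (fun x => An_tail e (hR x.2) (hRR x.2) (hs x.2) g h x.1) h1
  have hB : ∀ g h : H, Tendsto (fun n => An e SQ n g h) atTop (𝓝 ⟪Q g, h⟫) :=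
    fun g h => An_tendsto e hSQ hSQQ g h
  have hN : ∀ g h : H, Continuous (fun s => ⟪X s g, h⟫) :=
    fun g h => (hX.clm_apply continuous_const).inner continuous_const
  -- the three linear functionals of `B`
  set y1 := yy T z1 ρ
  set y2 := yy T z2 ρ
  have hG : ∀ c1 c2 c3 : ℝ, Tendsto (fun n => c1 * An e SQ n y1 y1 + c2 * An e SQ n y1 y2
      + c3 * An e SQ n y2 y2) atTop
      (𝓝 (c1 * ⟪Q y1, y1⟫ + c2 * ⟪Q y1, y2⟫ + c3 * ⟪Q y2, y2⟫)) := by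
    intro c1 c2 c3
    exact (((hB y1 y1).const_mul c1).add ((hB y1 y2).const_mul c2)).add ((hB y2 y2).const_mul c3)
  have hG0 : ∀ c1 c2 c3 : ℝ, Tendsto (fun n => (c1 * An e SQ n y1 y1 + c2 * An e SQ n y1 y2
      + c3 * An e SQ n y2 y2) - (c1 * ⟪Q y1, y1⟫ + c2 * ⟪Q y1, y2⟫ + c3 * ⟪Q y2, y2⟫)) atTop
      (𝓝 0) := by
    intro c1 c2 c3
    have := (hG c1 c2 c3).sub_const (c1 * ⟪Q y1, y1⟫ + c2 * ⟪Q y1, y2⟫ + c3 * ⟪Q y2, y2⟫)
    rwa [sub_self] at this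
  have term : ∀ (g h : H) (c1 c2 c3 : ℝ), Tendsto (fun x : ℕ × ℝ =>
      An e (R x.2) x.1 g h * (c1 * An e SQ x.1 y1 y1 + c2 * An e SQ x.1 y1 y2
        + c3 * An e SQ x.1 y2 y2)
      - ⟪X x.2 g, h⟫ * (c1 * ⟪Q y1, y1⟫ + c2 * ⟪Q y1, y2⟫ + c3 * ⟪Q y2, y2⟫))
      (atTop ×ˢ 𝓟 (Icc 0 1)) (𝓝 0) := by
    intro g h c1 c2 c3
    have t1 := (hA g h).mul ((hG c1 c2 c3).comp (tendsto_fst (f := atTop) (g := 𝓟 (Icc (0:ℝ) 1))))
    have t2 := bdd_mul (hN g h) (hG0 c1 c2 c3)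
    rw [zero_mul] at t1
    have t3 := t1.add t2
    rw [add_zero] at t3
    refine t3.congr (fun x => ?_)
    simp only [Function.comp]
    ring
  have T1 := term y1 y1 (a ^ 2) (2 * a * b) (b ^ 2)
  have T2 := term y1 y2 (2 * (a * b)) (2 * (a * c + b ^ 2)) (2 * (b * c))
  have T3 := term y2 y2 (b ^ 2) (2 * b * c) (c ^ 2)
  have T4 := ((T1.add T2).add T3).const_mul 2
  simp only [add_zero, mul_zero] at T4
  refine T4.congr (fun x => ?_)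
  unfold K1n K1 tr4 gq
  ring

end Trunc

end Pool.Agent.R977.WI
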