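import Pool.Agent.R977.WI.Pw2

/-! Pathwise estimates, part 3: error of one step. -/

set_option autoImplicit false
set_option linter.unusedSectionVars false
set_option linter.unusedSimpArgs false
set_option linter.unusedVariables false

open MeasureTheory ProbabilityTheory Filter Set
open scoped ENNReal NNReal Topology RealInnerProductSpace

universe u v

namespace Pool.Agent.R977.WI

variable {H : Type u} [NormedAddCommGroup H] [InnerProductSpace ℝ H]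

theorem int_close {f : ℝ → ℝ} (hf : Continuous f) {a b c ε : ℝ} (hab : a ≤ b)
    (h : ∀ x ∈ Icc a b, |f x - c| ≤ ε) : |(∫ x in a..b, f x) - c * (b - a)| ≤ ε * (b - a) := by
  have h1 : (∫ x in a..b, f x) - c * (b - a) = ∫ x in a..b, (f x - c) := by
    rw [intervalIntegral.integral_sub (hf.intervalIntegrable _ _) (by simp)]
    simp [mul_comm]
  rw [h1]
  have h2 := intervalIntegral.norm_integral_le_of_norm_le_const (a := a) (b := b)
    (f := fun x => f x - c) (C := ε) (fun x hx => by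
      rw [uIoc_of_le hab] at hx
      exact h x ⟨hx.1.le, hx.2⟩)
  rw [abs_of_nonneg (sub_nonneg.2 hab)] at h2
  exact h2

variable {T : ℝ → H →L[ℝ] H} {Q SQ : H →L[ℝ] H} {l α : ℝ} {z1 z2 a1 a2 : H}
  {e : HilbertBasis ℕ ℝ H}

theorem div_lt_pow {p n i : ℕ} (h : p ≤ n) (hi : i < 2 ^ n) : i / 2 ^ (n - p) < 2 ^ p := by
  rw [Nat.div_lt_iff_lt_mul (by positivity), ← pow_add, Nat.add_sub_cancel' h]
  exact hi

theorem fine_mem {p n i : ℕ} (h : p ≤ n) :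
    ((i / 2 ^ (n - p) : ℕ) : ℝ) / 2 ^ p ≤ (i : ℝ) / 2 ^ n ∧
      ((i : ℝ) + 1) / 2 ^ n ≤ (((i / 2 ^ (n - p) : ℕ) : ℝ) + 1) / 2 ^ p := by
  have hM : (0 : ℝ) < 2 ^ (n - p) := by positivity
  have hP : (0 : ℝ) < 2 ^ p := by positivity
  rw [pow_split h]
  constructor
  · rw [div_le_div_iff₀ hP (by positivity)]
    have h1 : (i / 2 ^ (n - p)) * 2 ^ (n - p) ≤ i := Nat.div_mul_le_self i _
    have h2 : ((i / 2 ^ (n - p) : ℕ) : ℝ) * 2 ^ (n - p) ≤ i := by exact_mod_cast h1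
    calc ((i / 2 ^ (n - p) : ℕ) : ℝ) * (2 ^ p * 2 ^ (n - p))
        = (((i / 2 ^ (n - p) : ℕ) : ℝ) * 2 ^ (n - p)) * 2 ^ p := by ring
      _ ≤ i * 2 ^ p := mul_le_mul_of_nonneg_right h2 hP.le
  · rw [div_le_div_iff₀ (by positivity) hP]
    have h1 : i < (i / 2 ^ (n - p) + 1) * 2 ^ (n - p) := (Nat.div_lt_iff_lt_mul (by positivity)).1 (Nat.lt_succ_self _)
    have h2 : ((i : ℝ) + 1) ≤ (((i / 2 ^ (n - p) : ℕ) : ℝ) + 1) * 2 ^ (n - p) := by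
      exact_mod_cast h1
    calc ((i : ℝ) + 1) * 2 ^ p ≤ ((((i / 2 ^ (n - p) : ℕ) : ℝ) + 1) * 2 ^ (n - p)) * 2 ^ p :=
          mul_le_mul_of_nonneg_right h2 hP.le
      _ = _ := by ring

theorem step_err (hT : IsC0Semigroup T) (hQ : Q.IsPositive) (hSQ : SQ.IsPositive)
    (hSQQ : SQ.comp SQ = Q) (hl : 0 ≤ l) (hz1 : Gen T z1 a1) (hz2 : Gen T z2 a2)
    {X R : ℝ → H →L[ℝ] H} (hX : Continuous X)
    (hpos : ∀ s, (X s).IsPositive) (hs : ∀ s, Summable (fun k => ⟪X s (e k), e k⟫))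
    (htr : Continuous (fun s => ∑' k, ⟪X s (e k), e k⟫))
    (hR : ∀ s, (R s).IsPositive) (hRR : ∀ s, (R s).comp (R s) = X s) {ε : ℝ} (hε : 0 < ε) :
    ∀ᶠ p : ℕ in atTop, ∀ᶠ n : ℕ in atTop, ∀ i : ℕ, i < 2 ^ n →
      |(∫ s in ((i : ℝ) / 2 ^ n)..(((i : ℝ) + 1) / 2 ^ n),
          K2 T Q l α z1 z2 a1 a2 (X s) (rho p (i / 2 ^ (n - p))))
        - Jmp (fun s ρ => Hf T Q l α z1 z2 (X s) ρ) p (i / 2 ^ (n - p)) / 2 ^ (n - p)
        - K1n T Q SQ l z1 z2 e (R ((i : ℝ) / 2 ^ n)) n (rho p (i / 2 ^ (n - p))) / 2 ^ n|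
        ≤ ε / 2 ^ n := by
  have cK1 := K1_cont (z1 := z1) (z2 := z2) hT hQ hl hX
  have cK2 := K2_cont (α := α) (z1 := z1) (z2 := z2) (a1 := a1) (a2 := a2) hT hQ hl hX
  have cK2s : ∀ r : ℝ, Continuous (fun s => K2 T Q l α z1 z2 a1 a2 (X s) r) := by
    intro r
    have := cK2.comp (Continuous.prodMk_right (Y := ℝ) r)
    simp only [Function.comp_def] at this
    exact this
  have cKd : ∀ Y : H →L[ℝ] H, Continuous (fun ρ => K2 T Q l α z1 z2 a1 a2 Y ρ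
      - K1 T Q l z1 z2 Y ρ) := by
    intro Y
    have k1 := (K1_cont (z1 := z1) (z2 := z2) hT hQ hl (X := fun _ => Y) continuous_const).comp
      (Continuous.prodMk_left (0 : ℝ))
    have k2 := (K2_cont (α := α) (z1 := z1) (z2 := z2) (a1 := a1) (a2 := a2) hT hQ hl
      (X := fun _ => Y) continuous_const).comp (Continuous.prodMk_left (0 : ℝ))
    simp only [Function.comp_def] at k1 k2
    exact k2.sub k1
  have hε5 : 0 < ε / 5 := by positivity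
  filter_upwards [block_osc cK1 hε5, block_osc cK2 hε5] with p hp1 hp2
  have hfin : ∀ᶠ n : ℕ in atTop, ∀ j ∈ Finset.range (2 ^ p), ∀ s ∈ Icc (0 : ℝ) 1,
      |K1n T Q SQ l z1 z2 e (R s) n (rho p j) - K1 T Q l z1 z2 (X s) (rho p j)| ≤ ε / 5 := by
    rw [Finset.eventually_all]
    intro j hj
    have h1 := K1n_tendsto (z1 := z1) (z2 := z2) (e := e) (l := l) hT hSQ hSQQ hX hpos hs htr hR
      hRR (rho p j)
    have h2 := (Metric.tendsto_nhds.1 h1) (ε / 5) hε5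
    rw [eventually_prod_principal_iff] at h2
    filter_upwards [h2] with n hn s hs'
    have := hn s hs'
    rw [dist_zero_right, Real.norm_eq_abs] at this
    exact this.le
  filter_upwards [hfin, eventually_ge_atTop p] with n hn hpn
  intro i hi
  have hN1 : (0 : ℝ) < 1 / 2 ^ n := by positivity
  have hi01 : (i : ℝ) / 2 ^ n ∈ Icc (0 : ℝ) 1 := by
    refine ⟨by positivity, ?_⟩
    rw [div_le_one (by positivity)]
    exact_mod_cast hi.le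
  set j := i / 2 ^ (n - p) with hj
  have hjP : j < 2 ^ p := div_lt_pow hpn hi
  have hM : (0 : ℝ) < 2 ^ (n - p) := by positivity
  have hP : (0 : ℝ) < 2 ^ p := by positivity
  have hN : (0 : ℝ) < 2 ^ n := by positivity
  obtain ⟨f1, f2⟩ := fine_mem (i := i) hpn
  rw [← hj] at f1 f2
  have hii : (i : ℝ) / 2 ^ n ≤ ((i : ℝ) + 1) / 2 ^ n := by
    apply div_le_div_of_nonneg_right _ hN.le; linarith
  have hjj : ((j : ℝ) + 1) / 2 ^ p = (j : ℝ) / 2 ^ p + 1 / 2 ^ p := by ring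
  have hinn : ((i : ℝ) + 1) / 2 ^ n - (i : ℝ) / 2 ^ n = 1 / 2 ^ n := by ring
  have hj1 : ((j : ℝ) + 1) / 2 ^ p ≤ 1 := by
    rw [div_le_one hP]; exact_mod_cast hjP
  have hr0 : 0 ≤ rho p j := by unfold rho; linarith
  have hq : 0 < 1 / (2 : ℝ) ^ p := by positivity
  set c1 := K1 T Q l z1 z2 (X ((j : ℝ) / 2 ^ p)) (rho p j) with hc1
  set c2 := K2 T Q l α z1 z2 a1 a2 (X ((j : ℝ) / 2 ^ p)) (rho p j) with hc2
  -- (A)
  have A := int_close (f := fun s => K2 T Q l α z1 z2 a1 a2 (X s) (rho p j))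
    (cK2s (rho p j)) (c := c2) (ε := ε / 5) hii
    (fun s hs' => hp2 j hjP s ⟨f1.trans hs'.1, hs'.2.trans f2⟩ (rho p j) ⟨le_refl _, by linarith⟩)
  rw [hinn] at A
  -- (B)
  have B0 := Hf_int (α := α) hT hQ hl (X ((j : ℝ) / 2 ^ p)) hz1 hz2 hr0
    (r' := rho p j + 1 / 2 ^ p) (by linarith)
  have B := int_close (f := fun ρ => K2 T Q l α z1 z2 a1 a2 (X ((j : ℝ) / 2 ^ p)) ρ
      - K1 T Q l z1 z2 (X ((j : ℝ) / 2 ^ p)) ρ)
    (a := rho p j) (b := rho p j + 1 / 2 ^ p)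
    (cKd (X ((j : ℝ) / 2 ^ p))) (c := c2 - c1)
    (ε := 2 * (ε / 5)) (by linarith)
    (fun ρ hρ => by
      have h1 := hp1 j hjP ((j : ℝ) / 2 ^ p) ⟨le_refl _, by rw [hjj]; linarith⟩ ρ hρ
      have h2 := hp2 j hjP ((j : ℝ) / 2 ^ p) ⟨le_refl _, by rw [hjj]; linarith⟩ ρ hρ
      rw [abs_le] at h1 h2 ⊢
      constructor <;> linarith [h1.1, h1.2, h2.1, h2.2])
  rw [B0] at B
  have hJ : Jmp (fun s ρ => Hf T Q l α z1 z2 (X s) ρ) p j
      = Hf T Q l α z1 z2 (X ((j : ℝ) / 2 ^ p)) (rho p j + 1 / 2 ^ p)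
        - Hf T Q l α z1 z2 (X ((j : ℝ) / 2 ^ p)) (rho p j) := rfl
  rw [← hJ, add_sub_cancel_left] at B
  -- (C)
  have C := hn j (Finset.mem_range.2 hjP) _ hi01
  -- (D)
  have D := hp1 j hjP ((i : ℝ) / 2 ^ n) ⟨f1, hii.trans f2⟩ (rho p j) ⟨le_refl _, by linarith⟩
  rw [← hc1] at D
  -- assembling
  have e1 : (2 : ℝ) ^ n = 2 ^ p * 2 ^ (n - p) := pow_split hpn
  have B' : |Jmp (fun s ρ => Hf T Q l α z1 z2 (X s) ρ) p j / 2 ^ (n - p) - (c2 - c1) * (1 / 2 ^ n)|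
      ≤ 2 * (ε / 5) * (1 / 2 ^ n) := by
    have hB1 : Jmp (fun s ρ => Hf T Q l α z1 z2 (X s) ρ) p j / 2 ^ (n - p)
        - (c2 - c1) * (1 / 2 ^ n)
        = (Jmp (fun s ρ => Hf T Q l α z1 z2 (X s) ρ) p j
          - (c2 - c1) * (1 / 2 ^ p)) / 2 ^ (n - p) := by
      rw [e1]; field_simp
    have hB2 : 2 * (ε / 5) * (1 / 2 ^ n) = 2 * (ε / 5) * (1 / 2 ^ p) / 2 ^ (n - p) := by
      rw [e1]; field_simp
    rw [hB1, hB2, abs_div, abs_of_pos hM]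
    exact div_le_div_of_nonneg_right B hM.le
  have CD : |K1n T Q SQ l z1 z2 e (R ((i : ℝ) / 2 ^ n)) n (rho p j) / 2 ^ n - c1 * (1 / 2 ^ n)|
      ≤ 2 * (ε / 5) * (1 / 2 ^ n) := by
    have : K1n T Q SQ l z1 z2 e (R ((i : ℝ) / 2 ^ n)) n (rho p j) / 2 ^ n - c1 * (1 / 2 ^ n)
        = (K1n T Q SQ l z1 z2 e (R ((i : ℝ) / 2 ^ n)) n (rho p j) - c1) * (1 / 2 ^ n) := by ring
    rw [this, abs_mul, abs_of_pos hN1]
    refine mul_le_mul_of_nonneg_right ?_ hN1.le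
    rw [abs_le] at C D ⊢
    constructor <;> linarith [C.1, C.2, D.1, D.2]
  have hfinal : ε / 2 ^ n = (ε / 5) * (1 / 2 ^ n) + 2 * (ε / 5) * (1 / 2 ^ n)
      + 2 * (ε / 5) * (1 / 2 ^ n) := by ring
  rw [hfinal]
  rw [abs_le] at A B' CD ⊢
  constructor <;> linarith [A.1, A.2, B'.1, B'.2, CD.1, CD.2]

/-- the jumps are small -/
theorem jmp_small (hT : IsC0Semigroup T) (hQ : Q.IsPositive) (hl : 0 ≤ l)
    (hz1 : Gen T z1 a1) (hz2 : Gen T z2 a2)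
    {X : ℝ → H →L[ℝ] H} (hX : Continuous X) {ε : ℝ} (hε : 0 < ε) :
    ∀ᶠ p : ℕ in atTop, ∀ j : ℕ, j < 2 ^ p →
      |Jmp (fun s ρ => Hf T Q l α z1 z2 (X s) ρ) p j| ≤ ε := by
  have cK1 := K1_cont (z1 := z1) (z2 := z2) hT hQ hl hX
  have cK2 := K2_cont (α := α) (z1 := z1) (z2 := z2) (a1 := a1) (a2 := a2) hT hQ hl hX
  obtain ⟨C, hC⟩ := (isCompact_Icc.prod isCompact_Icc).exists_bound_of_continuousOn
    ((cK2.sub cK1).continuousOn (s := Icc (0 : ℝ) 1 ×ˢ Icc (0 : ℝ) 1))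
  have ht : Tendsto (fun p : ℕ => |C| * ((1 : ℝ) / 2 ^ p)) atTop (𝓝 0) := by
    have := (tendsto_pow_atTop_nhds_zero_of_lt_one (r := (1 / 2 : ℝ)) (by norm_num)
      (by norm_num)).const_mul |C|
    simpa [one_div, inv_pow] using this
  filter_upwards [ht.eventually (gt_mem_nhds hε)] with p hp j hj
  have hP : (0 : ℝ) < 2 ^ p := by positivity
  have hj1 : ((j : ℝ) + 1) / 2 ^ p ≤ 1 := by
    rw [div_le_one hP]; exact_mod_cast hj
  have hj0 : 0 ≤ (j : ℝ) / 2 ^ p := by positivity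
  have hr0 : 0 ≤ rho p j := by unfold rho; linarith
  have hjj : ((j : ℝ) + 1) / 2 ^ p = (j : ℝ) / 2 ^ p + 1 / 2 ^ p := by ring
  have hr1 : rho p j + 1 / 2 ^ p ≤ 1 := by unfold rho; rw [hjj]; linarith
  have hq : 0 < 1 / (2 : ℝ) ^ p := by positivity
  have B0 := Hf_int (α := α) hT hQ hl (X ((j : ℝ) / 2 ^ p)) hz1 hz2 hr0
    (r' := rho p j + 1 / 2 ^ p) (by linarith)
  have hJ : Jmp (fun s ρ => Hf T Q l α z1 z2 (X s) ρ) p j
      = Hf T Q l α z1 z2 (X ((j : ℝ) / 2 ^ p)) (rho p j + 1 / 2 ^ p)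
        - Hf T Q l α z1 z2 (X ((j : ℝ) / 2 ^ p)) (rho p j) := rfl
  rw [hJ, ← B0]
  have h2 := intervalIntegral.norm_integral_le_of_norm_le_const (a := rho p j)
    (b := rho p j + 1 / 2 ^ p)
    (f := fun ρ => K2 T Q l α z1 z2 a1 a2 (X ((j : ℝ) / 2 ^ p)) ρ
      - K1 T Q l z1 z2 (X ((j : ℝ) / 2 ^ p)) ρ) (C := |C|) (fun x hx => by
      rw [uIoc_of_le (by linarith)] at hx
      have := hC (x, (j : ℝ) / 2 ^ p) ⟨⟨hr0.trans hx.1.le, hx.2.trans hr1⟩,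
        ⟨hj0, by rw [hjj] at hj1; linarith⟩⟩
      exact this.trans (le_abs_self C))
  rw [add_sub_cancel_left, abs_of_pos hq] at h2
  exact h2.trans hp.le

end Pool.Agent.R977.WI
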