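import Pool.Agent.R977.WI.Pr1

/-! Pathwise part 5: the equation along one path. -/

set_option autoImplicit false
set_option linter.unusedSectionVars false
set_option linter.unusedSimpArgs false
set_option linter.unusedVariables false

open MeasureTheory ProbabilityTheory Filter Set
open scoped ENNReal NNReal Topology RealInnerProductSpace

universe u v

namespace Pool.Agent.R977.WI

variable {H : Type u} [NormedAddCommGroup H] [InnerProductSpace ℝ H]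
variable {T : ℝ → H →L[ℝ] H} {Q SQ : H →L[ℝ] H} {l α : ℝ} {z1 z2 a1 a2 : H}
  {e : HilbertBasis ℕ ℝ H}

/-- the equation along one path -/
def EqP (x : ℝ → H →L[ℝ] H) (Q : H →L[ℝ] H) (α : ℝ) (g a h b : H) (I J : ℝ → ℝ) (t : ℝ) : Prop :=
  ⟪x t g, h⟫ = ⟪x 0 g, h⟫
      + (∫ s in (0 : ℝ)..t, (α * ⟪Q g, h⟫ + ⟪x s a, h⟫ + ⟪x s g, b⟫)) + I t + J t

theorem EqP_max {x : ℝ → H →L[ℝ] H} {g a h b : H} {I J : ℝ → ℝ} {t : ℝ} (ht : 0 ≤ t)
    (hE : EqP x Q α g a h b I J t) : EqP (fun s => x (max s 0)) Q α g a h b I J t := by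
  unfold EqP at hE ⊢
  simp only [max_eq_left ht, max_self]
  rw [hE]
  congr 3
  apply intervalIntegral.integral_congr
  intro s hs
  rw [uIcc_of_le ht] at hs
  simp only [max_eq_left hs.1]

theorem EqP_sub {x : ℝ → H →L[ℝ] H} (hx : Continuous x) {g a h b : H} {I J : ℝ → ℝ} {t t' : ℝ}
    (hE : EqP x Q α g a h b I J t) (hE' : EqP x Q α g a h b I J t') :
    ⟪x t' g, h⟫ - ⟪x t g, h⟫ = (∫ s in t..t', (α * ⟪Q g, h⟫ + ⟪x s a, h⟫ + ⟪x s g, b⟫))
      + (I t' - I t) + (J t' - J t) := by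
  unfold EqP at hE hE'
  have hc : Continuous (fun s => α * ⟪Q g, h⟫ + ⟪x s a, h⟫ + ⟪x s g, b⟫) :=
    (continuous_const.add ((hx.clm_apply continuous_const).inner continuous_const)).add
      ((hx.clm_apply continuous_const).inner continuous_const)
  have h1 := intervalIntegral.integral_interval_sub_left (hc.intervalIntegrable 0 t')
    (hc.intervalIntegrable 0 t) (μ := volume)
  rw [hE, hE', ← h1]
  ring

theorem int3 {f1 f2 f3 : ℝ → ℝ} (h1 : Continuous f1) (h2 : Continuous f2) (h3 : Continuous f3)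
    (a b c t t' : ℝ) : ∫ s in t..t', (a * f1 s + b * f2 s + c * f3 s)
      = a * (∫ s in t..t', f1 s) + b * (∫ s in t..t', f2 s) + c * (∫ s in t..t', f3 s) := by
  have h12 : Continuous (fun s => a * f1 s + b * f2 s) := by fun_prop
  have h33 : Continuous (fun s => c * f3 s) := by fun_prop
  have h11 : Continuous (fun s => a * f1 s) := by fun_prop
  have h22 : Continuous (fun s => b * f2 s) := by fun_prop
  rw [intervalIntegral.integral_add (h12.intervalIntegrable _ _) (h33.intervalIntegrable _ _),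
    intervalIntegral.integral_add (h11.intervalIntegrable _ _) (h22.intervalIntegrable _ _),
    intervalIntegral.integral_const_mul, intervalIntegral.integral_const_mul,
    intervalIntegral.integral_const_mul]

theorem step_eqn {x : ℝ → H →L[ℝ] H} (hx : Continuous x) (ρ : ℝ) (II : Fin 6 → ℝ → ℝ) {t t' : ℝ}
    (h11 : ∀ s ∈ ({t, t'} : Set ℝ),
      EqP x Q α (yy T z1 ρ) (yy T a1 ρ) (yy T z1 ρ) (yy T a1 ρ) (II 0) (II 1) s)
    (h12 : ∀ s ∈ ({t, t'} : Set ℝ),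
      EqP x Q α (yy T z1 ρ) (yy T a1 ρ) (yy T z2 ρ) (yy T a2 ρ) (II 2) (II 3) s)
    (h22 : ∀ s ∈ ({t, t'} : Set ℝ),
      EqP x Q α (yy T z2 ρ) (yy T a2 ρ) (yy T z2 ρ) (yy T a2 ρ) (II 4) (II 5) s) :
    Hf T Q l α z1 z2 (x t') ρ - Hf T Q l α z1 z2 (x t) ρ
      = (∫ s in t..t', K2 T Q l α z1 z2 a1 a2 (x s) ρ)
        + ∑ c : Fin 6, co T Q l z1 z2 ρ c * (II c t' - II c t) := by
  have e11 := EqP_sub hx (h11 t (by simp)) (h11 t' (by simp))
  have e12 := EqP_sub hx (h12 t (by simp)) (h12 t' (by simp))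
  have e22 := EqP_sub hx (h22 t (by simp)) (h22 t' (by simp))
  have cc : ∀ g a h b : H, Continuous (fun s => α * ⟪Q g, h⟫ + ⟪x s a, h⟫ + ⟪x s g, b⟫) :=
    fun g a h b =>
    (continuous_const.add ((hx.clm_apply continuous_const).inner continuous_const)).add
      ((hx.clm_apply continuous_const).inner continuous_const)
  have hK : (∫ s in t..t', K2 T Q l α z1 z2 a1 a2 (x s) ρ)
      = u1 T Q l z1 z2 ρ * (∫ s in t..t', (α * ⟪Q (yy T z1 ρ), yy T z1 ρ⟫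
          + ⟪x s (yy T a1 ρ), yy T z1 ρ⟫ + ⟪x s (yy T z1 ρ), yy T a1 ρ⟫))
        + 2 * u2 T Q l z1 z2 ρ * (∫ s in t..t', (α * ⟪Q (yy T z1 ρ), yy T z2 ρ⟫
          + ⟪x s (yy T a1 ρ), yy T z2 ρ⟫ + ⟪x s (yy T z1 ρ), yy T a2 ρ⟫))
        + u3 T Q l z1 z2 ρ * (∫ s in t..t', (α * ⟪Q (yy T z2 ρ), yy T z2 ρ⟫
          + ⟪x s (yy T a2 ρ), yy T z2 ρ⟫ + ⟪x s (yy T z2 ρ), yy T a2 ρ⟫)) := by
    exact int3 (cc (yy T z1 ρ) (yy T a1 ρ) (yy T z1 ρ) (yy T a1 ρ))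
      (cc (yy T z1 ρ) (yy T a1 ρ) (yy T z2 ρ) (yy T a2 ρ))
      (cc (yy T z2 ρ) (yy T a2 ρ) (yy T z2 ρ) (yy T a2 ρ)) _ _ _ t t'
  rw [hK, Fin.sum_univ_six]
  unfold Hf
  simp only [co, Matrix.cons_val]
  linear_combination (u1 T Q l z1 z2 ρ) * e11 + (2 * u2 T Q l z1 z2 ρ) * e12
    + (u3 T Q l z1 z2 ρ) * e22

/-- the noise mismatch -/
theorem noise_mis {p n : ℕ} (hpn : p ≤ n) {C η : ℝ} (hC : 0 ≤ C) (hη : 0 ≤ η)
    (hco : ∀ ρ ≤ (1 : ℝ), ∀ c : Fin 6, |co T Q l z1 z2 ρ c| ≤ C)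
    (II RR : ℕ → Fin 6 → ℝ → ℝ)
    (hμ : ∀ j ≤ 2 ^ p, ∀ c : Fin 6, ∀ t ∈ Icc (0 : ℝ) 1, |RR j c t - II j c t| ≤ η)
    (i : ℕ) (hi : i ≤ 2 ^ n) :
    |∑ i' ∈ Finset.range i,
      ((∑ c : Fin 6, co T Q l z1 z2 (rho p (i' / 2 ^ (n - p))) c *
          (II (i' / 2 ^ (n - p)) c (((i' : ℝ) + 1) / 2 ^ n)
            - II (i' / 2 ^ (n - p)) c ((i' : ℝ) / 2 ^ n)))
        - ∑ c : Fin 6, co T Q l z1 z2 (rho p (i' / 2 ^ (n - p))) c *
          (RR (i' / 2 ^ (n - p)) c (((i' : ℝ) + 1) / 2 ^ n)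
            - RR (i' / 2 ^ (n - p)) c ((i' : ℝ) / 2 ^ n)))|
      ≤ 6 * ((2 ^ p + 1) * (2 * C * η)) := by
  have hρ : ∀ j : ℕ, rho p j ≤ 1 := by
    intro j
    unfold rho
    have : (0 : ℝ) ≤ ((j : ℝ) + 1) / 2 ^ p := by positivity
    linarith
  have h1 : ∀ c : Fin 6, |∑ i' ∈ Finset.range i, co T Q l z1 z2 (rho p (i' / 2 ^ (n - p))) c *
      ((fun j t => II j c t - RR j c t) (i' / 2 ^ (n - p)) (((i' : ℝ) + 1) / 2 ^ n)
        - (fun j t => II j c t - RR j c t) (i' / 2 ^ (n - p)) ((i' : ℝ) / 2 ^ n))|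
      ≤ (2 ^ p + 1) * (2 * C * η) := by
    intro c
    exact block_bound (fun j t => II j c t - RR j c t) (fun j => co T Q l z1 z2 (rho p j) c) hpn
      C η hC hη (fun j => hco _ (hρ j) c)
      (fun j hj t ht => by rw [abs_sub_comm]; exact hμ j hj c t ht) i hi
  have h2 : ∑ i' ∈ Finset.range i,
      ((∑ c : Fin 6, co T Q l z1 z2 (rho p (i' / 2 ^ (n - p))) c *
          (II (i' / 2 ^ (n - p)) c (((i' : ℝ) + 1) / 2 ^ n)
            - II (i' / 2 ^ (n - p)) c ((i' : ℝ) / 2 ^ n)))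
        - ∑ c : Fin 6, co T Q l z1 z2 (rho p (i' / 2 ^ (n - p))) c *
          (RR (i' / 2 ^ (n - p)) c (((i' : ℝ) + 1) / 2 ^ n)
            - RR (i' / 2 ^ (n - p)) c ((i' : ℝ) / 2 ^ n)))
      = ∑ c : Fin 6, ∑ i' ∈ Finset.range i, co T Q l z1 z2 (rho p (i' / 2 ^ (n - p))) c *
      ((fun j t => II j c t - RR j c t) (i' / 2 ^ (n - p)) (((i' : ℝ) + 1) / 2 ^ n)
        - (fun j t => II j c t - RR j c t) (i' / 2 ^ (n - p)) ((i' : ℝ) / 2 ^ n)) := by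
    rw [Finset.sum_comm]
    apply Finset.sum_congr rfl
    intro i' _
    rw [← Finset.sum_sub_distrib]
    apply Finset.sum_congr rfl
    intro c _
    ring
  rw [h2]
  refine (Finset.abs_sum_le_sum_abs _ _).trans ?_
  refine (Finset.sum_le_sum (fun c _ => h1 c)).trans ?_
  simp

end Pool.Agent.R977.WI
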