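import Pool.Agent.R977.WI.Pw5

/-! Pathwise part 6: the good event along one path. -/

set_option autoImplicit false
set_option linter.unusedSectionVars false
set_option linter.unusedSimpArgs false
set_option linter.unusedVariables false

open MeasureTheory ProbabilityTheory Filter Set
open scoped ENNReal NNReal Topology RealInnerProductSpace

universe u v

namespace Pool.Agent.R977.WI

variable {H : Type u} [NormedAddCommGroup H] [InnerProductSpace ℝ H]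
variable {T : ℝ → H →L[ℝ] H} {Q SQ : H →L[ℝ] H} {l α : ℝ} {z1 z2 a1 a2 : H}
  {e : HilbertBasis ℕ ℝ H}

theorem ev_small (p : ℕ) (C ε : ℝ) (hε : 0 < ε) :
    ∀ᶠ k : ℕ in atTop, 6 * ((2 ^ p + 1) * (2 * C * (1 / 2 : ℝ) ^ k)) ≤ ε := by
  have h1 : Tendsto (fun k : ℕ => 6 * ((2 ^ p + 1) * (2 * C * (1 / 2 : ℝ) ^ k))) atTop
      (𝓝 (6 * ((2 ^ p + 1) * (2 * C * 0)))) :=
    (((tendsto_pow_atTop_nhds_zero_of_lt_one (by norm_num) (by norm_num)).const_mul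
      (2 * C)).const_mul (2 ^ p + 1)).const_mul 6
  rw [mul_zero, mul_zero, mul_zero] at h1
  filter_upwards [h1.eventually (gt_mem_nhds hε)] with k hk
  exact hk.le

theorem path_good (hT : IsC0Semigroup T) (hQ : Q.IsPositive) (hSQ : SQ.IsPositive)
    (hSQQ : SQ.comp SQ = Q) (hl : 0 ≤ l) (hz1 : Gen T z1 a1) (hz2 : Gen T z2 a2)
    {x r : ℝ → H →L[ℝ] H} (hx : Continuous x)
    (hpos : ∀ s, (x s).IsPositive) (hs : ∀ s, Summable (fun k => ⟪x s (e k), e k⟫))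
    (htr : Continuous (fun s => ∑' k, ⟪x s (e k), e k⟫))
    (hr : ∀ s, (r s).IsPositive) (hrr : ∀ s, (r s).comp (r s) = x s)
    (II : ℕ → ℕ → Fin 6 → ℝ → ℝ)
    (h11 : ∀ p j n i : ℕ, EqP x Q α (yy T z1 (rho p j)) (yy T a1 (rho p j)) (yy T z1 (rho p j))
      (yy T a1 (rho p j)) (II p j 0) (II p j 1) ((i : ℝ) / 2 ^ n))
    (h12 : ∀ p j n i : ℕ, EqP x Q α (yy T z1 (rho p j)) (yy T a1 (rho p j)) (yy T z2 (rho p j))
      (yy T a2 (rho p j)) (II p j 2) (II p j 3) ((i : ℝ) / 2 ^ n))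
    (h22 : ∀ p j n i : ℕ, EqP x Q α (yy T z2 (rho p j)) (yy T a2 (rho p j)) (yy T z2 (rho p j))
      (yy T a2 (rho p j)) (II p j 4) (II p j 5) ((i : ℝ) / 2 ^ n))
    (RR : ℕ → ℕ → ℕ → Fin 6 → ℝ → ℝ) (nk : ℕ → ℕ → ℕ) (hnk1 : ∀ p k, k ≤ nk p k)
    (hnk2 : ∀ p k, p ≤ nk p k)
    (hmis : ∀ p : ℕ, ∀ᶠ k : ℕ in atTop, ∀ j ≤ 2 ^ p, ∀ c : Fin 6, ∀ t ∈ Icc (0 : ℝ) 1,
      |RR (nk p k) p j c t - II p j c t| ≤ (1 / 2 : ℝ) ^ k)
    (S V : ℕ → ℕ → ℕ → ℝ)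
    (hS : ∀ p k i, S p k i = ∑ i' ∈ Finset.range i, ∑ c : Fin 6,
      co T Q l z1 z2 (rho p (i' / 2 ^ (nk p k - p))) c *
        (RR (nk p k) p (i' / 2 ^ (nk p k - p)) c (((i' : ℝ) + 1) / 2 ^ (nk p k))
          - RR (nk p k) p (i' / 2 ^ (nk p k - p)) c ((i' : ℝ) / 2 ^ (nk p k))))
    (hV : ∀ p k i, V p k i / 2 = (∑ i' ∈ Finset.range i,
      K1n T Q SQ l z1 z2 e (r ((i' : ℝ) / 2 ^ (nk p k))) (nk p k)
        (rho p (i' / 2 ^ (nk p k - p)))) / 2 ^ (nk p k))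
    {c0 : ℝ} (hc0 : ∀ Y : H →L[ℝ] H, Y.IsPositive → ∀ ρ ∈ Icc (0 : ℝ) 1,
      c0 ≤ Hf T Q l α z1 z2 Y ρ)
    {C : ℝ} (hC : 0 ≤ C) (hco : ∀ ρ ≤ (1 : ℝ), ∀ c : Fin 6, |co T Q l z1 z2 ρ c| ≤ C)
    {ε : ℝ} (hε : 0 < ε) :
    ∀ᶠ p : ℕ in atTop, ∀ᶠ k : ℕ in atTop,
      (∀ i ≤ 2 ^ (nk p k), Real.exp (-Hf T Q l α z1 z2 (x 0) 1)
        * Real.exp (-S p k i - V p k i / 2) ≤ Real.exp (-c0) * Real.exp ε) ∧
      Real.exp (-Hf T Q l α z1 z2 (x 0) 1)
        * Real.exp (-S p k (2 ^ (nk p k)) - V p k (2 ^ (nk p k)) / 2)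
        ≤ Real.exp ε * Real.exp (-Hf T Q l α z1 z2 (x 1) 0) ∧
      Real.exp (-Hf T Q l α z1 z2 (x 1) 0) ≤ Real.exp ε *
        (Real.exp (-Hf T Q l α z1 z2 (x 0) 1)
          * Real.exp (-S p k (2 ^ (nk p k)) - V p k (2 ^ (nk p k)) / 2)) := by
  have hε4 : 0 < ε / 4 := by positivity
  have s1 := step_err (α := α) (z1 := z1) (z2 := z2) (a1 := a1) (a2 := a2) (e := e)
    hT hQ hSQ hSQQ hl hz1 hz2 hx hpos hs htr hr hrr hε4
  have s2 := jmp_small (α := α) hT hQ hl hz1 hz2 hx (show 0 < ε / 2 by positivity)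
  filter_upwards [s1, s2] with p hp1 hp2
  have htend : Tendsto (nk p) atTop atTop := tendsto_atTop_mono (hnk1 p) tendsto_id
  filter_upwards [htend.eventually hp1, ev_small p C (ε / 4) hε4, hmis p] with k hk1 hk2 hk3
  have hpn := hnk2 p k
  have close := log_close (Φ := fun s ρ => Hf T Q l α z1 z2 (x s) ρ) (p := p) (n := nk p k)
    (fun i => K1n T Q SQ l z1 z2 e (r ((i : ℝ) / 2 ^ (nk p k))) (nk p k)
        (rho p (i / 2 ^ (nk p k - p))))
    (fun i => ∫ s in ((i : ℝ) / 2 ^ (nk p k))..(((i : ℝ) + 1) / 2 ^ (nk p k)),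
          K2 T Q l α z1 z2 a1 a2 (x s) (rho p (i / 2 ^ (nk p k - p))))
    (fun i' => ∑ c : Fin 6, co T Q l z1 z2 (rho p (i' / 2 ^ (nk p k - p))) c *
          (II p (i' / 2 ^ (nk p k - p)) c (((i' : ℝ) + 1) / 2 ^ (nk p k))
            - II p (i' / 2 ^ (nk p k - p)) c ((i' : ℝ) / 2 ^ (nk p k))))
    (fun i' => ∑ c : Fin 6, co T Q l z1 z2 (rho p (i' / 2 ^ (nk p k - p))) c *
        (RR (nk p k) p (i' / 2 ^ (nk p k - p)) c (((i' : ℝ) + 1) / 2 ^ (nk p k))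
          - RR (nk p k) p (i' / 2 ^ (nk p k - p)) c ((i' : ℝ) / 2 ^ (nk p k))))
    (ε := ε / 4) (ε' := ε / 4) hε4.le
    (fun i hi => by
      have hcast : ((i : ℝ) + 1) = ((i + 1 : ℕ) : ℝ) := by push_cast; ring
      exact step_eqn hx _ (II p (i / 2 ^ (nk p k - p)))
        (by
          intro s hs
          rcases hs with rfl | rfl
          · exact h11 p _ (nk p k) i
          · rw [hcast]; exact h11 p _ (nk p k) (i + 1))
        (by
          intro s hs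
          rcases hs with rfl | rfl
          · exact h12 p _ (nk p k) i
          · rw [hcast]; exact h12 p _ (nk p k) (i + 1))
        (by
          intro s hs
          rcases hs with rfl | rfl
          · exact h22 p _ (nk p k) i
          · rw [hcast]; exact h22 p _ (nk p k) (i + 1)))
    hk1
    (fun i hi => (noise_mis hpn hC (by positivity) hco (II p) (RR (nk p k) p) hk3 i hi).trans hk2)
  have good := good_of_close (Φ := fun s ρ => Hf T Q l α z1 z2 (x s) ρ) hpn (S p k) (V p k)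
    (ε := ε / 2) (c0 := c0) (by positivity)
    (fun i hi => by
      have h1 := close i hi
      rw [hS, hV]
      refine h1.trans (le_of_eq ?_)
      ring)
    (fun s hs' ρ hρ => hc0 (x s) (hpos s) ρ hρ) hp2
  have e2 : 2 * (ε / 2) = ε := by ring
  rw [e2] at good
  exact good

end Pool.Agent.R977.WI
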