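import Pool.Agent.R977.WI.Defs

/-! Semigroup facts, the Riccati functions and the derivative of the exponent. -/

set_option autoImplicit false
set_option linter.unusedSectionVars false
set_option linter.unusedSimpArgs false
set_option linter.unusedVariables false

open MeasureTheory ProbabilityTheory Filter Set
open scoped ENNReal NNReal Topology RealInnerProductSpace

universe u v

namespace Pool.Agent.R977.WI

variable {H : Type u} [NormedAddCommGroup H] [InnerProductSpace ℝ H]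

theorem gen_T {T : ℝ → H →L[ℝ] H} (hT : IsC0Semigroup T) {g a : H} (hg : Gen T g a) {s : ℝ}
    (hs : 0 ≤ s) : Gen T (T s g) (T s a) := by
  have h1 : Tendsto (fun t : ℝ => T s (t⁻¹ • (T t g - g))) (𝓝[>] 0) (𝓝 (T s a)) :=
    ((T s).continuous.tendsto a).comp hg
  refine h1.congr' ?_
  filter_upwards [self_mem_nhdsWithin] with t ht
  have e1 := hT.add s t hs (le_of_lt ht)
  have e2 := hT.add t s (le_of_lt ht) hs
  have e3 : (T s).comp (T t) = (T t).comp (T s) := by rw [← e1, ← e2, add_comm]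
  have e4 : T s (T t g) = T t (T s g) := by
    have := congrArg (fun A : H →L[ℝ] H => A g) e3
    simpa using this
  rw [map_smul, map_sub, e4]

theorem deriv_T {T : ℝ → H →L[ℝ] H} (hT : IsC0Semigroup T) {g a : H} (hg : Gen T g a) {s : ℝ}
    (hs : 0 ≤ s) : HasDerivWithinAt (fun r => T r g) (T s a) (Ioi s) s := by
  rw [hasDerivWithinAt_iff_tendsto_slope' (by simp)]
  have h1 : Tendsto (fun t : ℝ => T s (t⁻¹ • (T t g - g))) (𝓝[>] 0) (𝓝 (T s a)) :=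
    ((T s).continuous.tendsto a).comp hg
  have h2 : Tendsto (fun r : ℝ => r - s) (𝓝[>] s) (𝓝[>] 0) := by
    refine tendsto_nhdsWithin_iff.2 ⟨?_, ?_⟩
    · have : Tendsto (fun r : ℝ => r - s) (𝓝 s) (𝓝 (s - s)) :=
        (continuous_id.sub continuous_const).tendsto s
      rw [sub_self] at this
      exact this.mono_left nhdsWithin_le_nhds
    · filter_upwards [self_mem_nhdsWithin] with r hr
      simpa using hr
  refine (h1.comp h2).congr' ?_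
  filter_upwards [self_mem_nhdsWithin] with r hr
  have hr' : s < r := hr
  have e1 := hT.add s (r - s) hs (by linarith)
  rw [add_sub_cancel] at e1
  simp only [Function.comp, slope_def_module, map_smul, map_sub]
  rw [e1]
  simp

/-- the orbit, extended to a function on all of `ℝ` -/
noncomputable def yy (T : ℝ → H →L[ℝ] H) (z : H) (ρ : ℝ) : H := T (max ρ 0) z

theorem yy_cont {T : ℝ → H →L[ℝ] H} (hT : IsC0Semigroup T) (z : H) : Continuous (yy T z) := by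
  have h := (hT.cont z).comp_continuous (f := fun ρ : ℝ => max ρ 0) (by fun_prop)
    (fun ρ => le_max_right ρ 0)
  exact h

theorem yy_of_nonneg (T : ℝ → H →L[ℝ] H) (z : H) {ρ : ℝ} (h : 0 ≤ ρ) : yy T z ρ = T ρ z := by
  rw [yy, max_eq_left h]

theorem yy_deriv {T : ℝ → H →L[ℝ] H} (hT : IsC0Semigroup T) {z a : H} (hz : Gen T z a) {ρ : ℝ}
    (hρ : 0 ≤ ρ) : HasDerivWithinAt (yy T z) (yy T a ρ) (Ioi ρ) ρ := by
  have h := deriv_T hT hz hρ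
  rw [← yy_of_nonneg T a hρ] at h
  refine h.congr ?_ (yy_of_nonneg T z hρ)
  intro r hr
  exact yy_of_nonneg T z (le_of_lt (lt_of_le_of_lt hρ hr))

theorem gen_yy {T : ℝ → H →L[ℝ] H} (hT : IsC0Semigroup T) {z a : H} (hz : Gen T z a) (ρ : ℝ) :
    Gen T (yy T z ρ) (yy T a ρ) := gen_T hT hz (le_max_right ρ 0)

/-- `⟨Q T_ρ g, T_ρ h⟩` -/
noncomputable def gq (T : ℝ → H →L[ℝ] H) (Q : H →L[ℝ] H) (g h : H) (ρ : ℝ) : ℝ :=
  ⟪Q (yy T g ρ), yy T h ρ⟫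

theorem gq_cont {T : ℝ → H →L[ℝ] H} (hT : IsC0Semigroup T) (Q : H →L[ℝ] H) (g h : H) :
    Continuous (gq T Q g h) := by
  unfold gq
  exact (Q.continuous.comp (yy_cont hT g)).inner (yy_cont hT h)

/-- `∫_0^ρ ⟨Q T_r g, T_r h⟩ dr` -/
noncomputable def sg (T : ℝ → H →L[ℝ] H) (Q : H →L[ℝ] H) (g h : H) (ρ : ℝ) : ℝ :=
  ∫ r in (0 : ℝ)..(max ρ 0), gq T Q g h r

theorem sg_cont {T : ℝ → H →L[ℝ] H} (hT : IsC0Semigroup T) (Q : H →L[ℝ] H) (g h : H) :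
    Continuous (sg T Q g h) := by
  unfold sg
  have h1 : Continuous (fun x : ℝ => ∫ r in (0 : ℝ)..x, gq T Q g h r) :=
    intervalIntegral.continuous_primitive
      (fun a b => (gq_cont hT Q g h).intervalIntegrable a b) 0
  exact h1.comp (by fun_prop)

theorem sg_zero (T : ℝ → H →L[ℝ] H) (Q : H →L[ℝ] H) (g h : H) : sg T Q g h 0 = 0 := by
  simp [sg]

theorem sg_deriv {T : ℝ → H →L[ℝ] H} (hT : IsC0Semigroup T) (Q : H →L[ℝ] H) (g h : H) {ρ : ℝ}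
    (hρ : 0 ≤ ρ) : HasDerivWithinAt (sg T Q g h) (gq T Q g h ρ) (Ioi ρ) ρ := by
  have hc := gq_cont hT Q g h
  have h1 : HasDerivAt (fun x : ℝ => ∫ r in (0 : ℝ)..x, gq T Q g h r) (gq T Q g h ρ) ρ :=
    intervalIntegral.integral_hasDerivAt_right (hc.intervalIntegrable 0 ρ)
      (hc.stronglyMeasurableAtFilter _ _) hc.continuousAt
  refine h1.hasDerivWithinAt.congr ?_ ?_
  · intro r hr
    simp only [sg]
    rw [max_eq_left (le_of_lt (lt_of_le_of_lt hρ hr))]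
  · simp only [sg]
    rw [max_eq_left hρ]

theorem gq_nonneg {T : ℝ → H →L[ℝ] H} {Q : H →L[ℝ] H} (hQ : Q.IsPositive) (g : H) (ρ : ℝ) :
    0 ≤ gq T Q g g ρ := by
  have := hQ.inner_nonneg_left (yy T g ρ)
  exact this

theorem sg_nonneg {T : ℝ → H →L[ℝ] H} {Q : H →L[ℝ] H} (hQ : Q.IsPositive) (g : H) (ρ : ℝ) :
    0 ≤ sg T Q g g ρ :=
  intervalIntegral.integral_nonneg (le_max_right ρ 0) (fun r _ => gq_nonneg hQ g r)

theorem gq_symm {T : ℝ → H →L[ℝ] H} {Q : H →L[ℝ] H} (hQ : Q.IsPositive) (g h : H) (ρ : ℝ) :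
    gq T Q g h ρ = gq T Q h g ρ := by
  unfold gq
  rw [real_inner_comm, ← hQ.inner_left_eq_inner_right]

theorem yy_add (T : ℝ → H →L[ℝ] H) (g h : H) (ρ : ℝ) :
    yy T (g + h) ρ = yy T g ρ + yy T h ρ := by simp [yy]

theorem yy_smul (T : ℝ → H →L[ℝ] H) (c : ℝ) (g : H) (ρ : ℝ) :
    yy T (c • g) ρ = c • yy T g ρ := by simp [yy]

theorem sg_symm {T : ℝ → H →L[ℝ] H} {Q : H →L[ℝ] H} (hQ : Q.IsPositive) (g h : H) (ρ : ℝ) :
    sg T Q g h ρ = sg T Q h g ρ := by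
  unfold sg
  congr 1
  funext r
  exact gq_symm hQ g h r

theorem sg_add_left {T : ℝ → H →L[ℝ] H} (hT : IsC0Semigroup T) (Q : H →L[ℝ] H) (g g' h : H)
    (ρ : ℝ) : sg T Q (g + g') h ρ = sg T Q g h ρ + sg T Q g' h ρ := by
  unfold sg
  rw [← intervalIntegral.integral_add ((gq_cont hT Q g h).intervalIntegrable _ _)
    ((gq_cont hT Q g' h).intervalIntegrable _ _)]
  congr 1
  funext r
  simp [gq, yy_add, inner_add_left]

theorem sg_smul_left {T : ℝ → H →L[ℝ] H} (hT : IsC0Semigroup T) (Q : H →L[ℝ] H) (c : ℝ) (g h : H)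
    (ρ : ℝ) : sg T Q (c • g) h ρ = c * sg T Q g h ρ := by
  unfold sg
  rw [← intervalIntegral.integral_const_mul]
  congr 1
  funext r
  simp [gq, yy_smul, inner_smul_left]

/-- Cauchy-Schwarz for the form `sg` -/
theorem sg_cs {T : ℝ → H →L[ℝ] H} (hT : IsC0Semigroup T) {Q : H →L[ℝ] H} (hQ : Q.IsPositive)
    (g h : H) (ρ : ℝ) : sg T Q g h ρ ^ 2 ≤ sg T Q g g ρ * sg T Q h h ρ := by
  have h1 : ∀ x : ℝ, 0 ≤ sg T Q h h ρ * (x * x) + (2 * sg T Q g h ρ) * x + sg T Q g g ρ := by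
    intro x
    have h2 := sg_nonneg (T := T) hQ (g + x • h) ρ
    rw [sg_add_left hT, sg_smul_left hT, sg_symm hQ g, sg_symm hQ h (g + x • h),
      sg_add_left hT, sg_add_left hT, sg_smul_left hT, sg_smul_left hT, sg_symm hQ h g] at h2
    linarith
  have h3 := discrim_le_zero h1
  unfold discrim at h3
  nlinarith

/-- the trace of `U A U B` for symmetric `2 × 2` matrices -/
def tr4 (u1 u2 u3 a1 a2 a3 b1 b2 b3 : ℝ) : ℝ :=
  b1 * (u1 ^ 2 * a1 + 2 * u1 * u2 * a2 + u2 ^ 2 * a3)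
    + 2 * b2 * (u1 * u2 * a1 + (u1 * u3 + u2 ^ 2) * a2 + u2 * u3 * a3)
    + b3 * (u2 ^ 2 * a1 + 2 * u2 * u3 * a2 + u3 ^ 2 * a3)

section Riccati

variable (T : ℝ → H →L[ℝ] H) (Q : H →L[ℝ] H) (l : ℝ) (z1 z2 : H)

/-- determinant of `1 + 2 l Σ` -/
noncomputable def DD (ρ : ℝ) : ℝ :=
  (1 + 2 * l * sg T Q z1 z1 ρ) * (1 + 2 * l * sg T Q z2 z2 ρ) - 4 * l ^ 2 * sg T Q z1 z2 ρ ^ 2

noncomputable def u1 (ρ : ℝ) : ℝ := l * (1 + 2 * l * sg T Q z2 z2 ρ) / DD T Q l z1 z2 ρ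
noncomputable def u2 (ρ : ℝ) : ℝ := -(2 * l ^ 2 * sg T Q z1 z2 ρ) / DD T Q l z1 z2 ρ
noncomputable def u3 (ρ : ℝ) : ℝ := l * (1 + 2 * l * sg T Q z1 z1 ρ) / DD T Q l z1 z2 ρ

variable {T Q l}

theorem DD_ge (hT : IsC0Semigroup T) (hQ : Q.IsPositive) (hl : 0 ≤ l) (ρ : ℝ) :
    1 ≤ DD T Q l z1 z2 ρ := by
  have h1 := sg_cs hT hQ z1 z2 ρ
  have h2 := sg_nonneg (T := T) hQ z1 ρ
  have h3 := sg_nonneg (T := T) hQ z2 ρ
  unfold DD
  have h4 : 0 ≤ l ^ 2 := sq_nonneg l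
  have h5 := mul_le_mul_of_nonneg_left h1 h4
  have h6 := mul_nonneg hl h2
  have h7 := mul_nonneg hl h3
  nlinarith

theorem DD_cont (hT : IsC0Semigroup T) : Continuous (DD T Q l z1 z2) := by
  unfold DD
  have h1 := sg_cont hT Q z1 z1
  have h2 := sg_cont hT Q z2 z2
  have h3 := sg_cont hT Q z1 z2
  fun_prop

theorem u1_cont (hT : IsC0Semigroup T) (hQ : Q.IsPositive) (hl : 0 ≤ l) :
    Continuous (u1 T Q l z1 z2) := by
  unfold u1
  have h1 := sg_cont hT Q z2 z2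
  exact Continuous.div (by fun_prop) (DD_cont z1 z2 hT)
    (fun ρ => ne_of_gt (lt_of_lt_of_le one_pos (DD_ge z1 z2 hT hQ hl ρ)))

theorem u2_cont (hT : IsC0Semigroup T) (hQ : Q.IsPositive) (hl : 0 ≤ l) :
    Continuous (u2 T Q l z1 z2) := by
  unfold u2
  have h1 := sg_cont hT Q z1 z2
  exact Continuous.div (by fun_prop) (DD_cont z1 z2 hT)
    (fun ρ => ne_of_gt (lt_of_lt_of_le one_pos (DD_ge z1 z2 hT hQ hl ρ)))

theorem u3_cont (hT : IsC0Semigroup T) (hQ : Q.IsPositive) (hl : 0 ≤ l) :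
    Continuous (u3 T Q l z1 z2) := by
  unfold u3
  have h1 := sg_cont hT Q z1 z1
  exact Continuous.div (by fun_prop) (DD_cont z1 z2 hT)
    (fun ρ => ne_of_gt (lt_of_lt_of_le one_pos (DD_ge z1 z2 hT hQ hl ρ)))

theorem u1_nonneg (hT : IsC0Semigroup T) (hQ : Q.IsPositive) (hl : 0 ≤ l) (ρ : ℝ) :
    0 ≤ u1 T Q l z1 z2 ρ := by
  unfold u1
  have h1 := DD_ge z1 z2 hT hQ hl ρ
  have h3 := sg_nonneg (T := T) hQ z2 ρ
  have h4 := mul_nonneg hl h3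
  apply div_nonneg (mul_nonneg hl (by nlinarith)) (by linarith)

theorem u3_nonneg (hT : IsC0Semigroup T) (hQ : Q.IsPositive) (hl : 0 ≤ l) (ρ : ℝ) :
    0 ≤ u3 T Q l z1 z2 ρ := by
  unfold u3
  have h1 := DD_ge z1 z2 hT hQ hl ρ
  have h3 := sg_nonneg (T := T) hQ z1 ρ
  have h4 := mul_nonneg hl h3
  apply div_nonneg (mul_nonneg hl (by nlinarith)) (by linarith)

theorem u_det (hT : IsC0Semigroup T) (hQ : Q.IsPositive) (hl : 0 ≤ l) (ρ : ℝ) :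
    u2 T Q l z1 z2 ρ ^ 2 ≤ u1 T Q l z1 z2 ρ * u3 T Q l z1 z2 ρ := by
  have h1 := DD_ge z1 z2 hT hQ hl ρ
  have hD : 0 < DD T Q l z1 z2 ρ := by linarith
  unfold u1 u2 u3
  rw [div_pow, div_mul_div_comm, ← pow_two (DD T Q l z1 z2 ρ)]
  apply div_le_div_of_nonneg_right _ (by positivity)
  have h2 : l * (1 + 2 * l * sg T Q z2 z2 ρ) * (l * (1 + 2 * l * sg T Q z1 z1 ρ))
      - (-(2 * l ^ 2 * sg T Q z1 z2 ρ)) ^ 2 = l ^ 2 * DD T Q l z1 z2 ρ := by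
    unfold DD; ring
  have h3 : 0 ≤ l ^ 2 * DD T Q l z1 z2 ρ := by positivity
  linarith

theorem u1_deriv (hT : IsC0Semigroup T) (hQ : Q.IsPositive) (hl : 0 ≤ l) {ρ : ℝ} (hρ : 0 ≤ ρ) :
    HasDerivWithinAt (u1 T Q l z1 z2)
      (-2 * (u1 T Q l z1 z2 ρ ^ 2 * gq T Q z1 z1 ρ
        + 2 * u1 T Q l z1 z2 ρ * u2 T Q l z1 z2 ρ * gq T Q z1 z2 ρ
        + u2 T Q l z1 z2 ρ ^ 2 * gq T Q z2 z2 ρ)) (Ioi ρ) ρ := by
  have hD : DD T Q l z1 z2 ρ ≠ 0 :=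
    ne_of_gt (lt_of_lt_of_le one_pos (DD_ge z1 z2 hT hQ hl ρ))
  have h11 := sg_deriv hT Q z1 z1 hρ
  have h12 := sg_deriv hT Q z1 z2 hρ
  have h22 := sg_deriv hT Q z2 z2 hρ
  have hDD := (((h11.const_mul (2 * l)).const_add 1).mul ((h22.const_mul (2 * l)).const_add 1)).sub
    ((h12.pow 2).const_mul (4 * l ^ 2))
  have hN := ((h22.const_mul (2 * l)).const_add 1).const_mul l
  have h := hN.div hDD hD
  refine h.congr_deriv ?_
  unfold u1 u2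
  unfold DD at hD ⊢
  simp only [Pi.mul_apply, Pi.add_apply, Pi.sub_apply, Pi.pow_apply]
  field_simp
  ring

theorem u3_deriv (hT : IsC0Semigroup T) (hQ : Q.IsPositive) (hl : 0 ≤ l) {ρ : ℝ} (hρ : 0 ≤ ρ) :
    HasDerivWithinAt (u3 T Q l z1 z2)
      (-2 * (u2 T Q l z1 z2 ρ ^ 2 * gq T Q z1 z1 ρ
        + 2 * u2 T Q l z1 z2 ρ * u3 T Q l z1 z2 ρ * gq T Q z1 z2 ρ
        + u3 T Q l z1 z2 ρ ^ 2 * gq T Q z2 z2 ρ)) (Ioi ρ) ρ := by
  have hD : DD T Q l z1 z2 ρ ≠ 0 :=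
    ne_of_gt (lt_of_lt_of_le one_pos (DD_ge z1 z2 hT hQ hl ρ))
  have h11 := sg_deriv hT Q z1 z1 hρ
  have h12 := sg_deriv hT Q z1 z2 hρ
  have h22 := sg_deriv hT Q z2 z2 hρ
  have hDD := (((h11.const_mul (2 * l)).const_add 1).mul ((h22.const_mul (2 * l)).const_add 1)).sub
    ((h12.pow 2).const_mul (4 * l ^ 2))
  have hN := ((h11.const_mul (2 * l)).const_add 1).const_mul l
  have h := hN.div hDD hD
  refine h.congr_deriv ?_
  unfold u2 u3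
  unfold DD at hD ⊢
  simp only [Pi.mul_apply, Pi.add_apply, Pi.sub_apply, Pi.pow_apply]
  field_simp
  ring

theorem u2_deriv (hT : IsC0Semigroup T) (hQ : Q.IsPositive) (hl : 0 ≤ l) {ρ : ℝ} (hρ : 0 ≤ ρ) :
    HasDerivWithinAt (u2 T Q l z1 z2)
      (-2 * (u1 T Q l z1 z2 ρ * u2 T Q l z1 z2 ρ * gq T Q z1 z1 ρ
        + (u1 T Q l z1 z2 ρ * u3 T Q l z1 z2 ρ + u2 T Q l z1 z2 ρ ^ 2) * gq T Q z1 z2 ρ
        + u2 T Q l z1 z2 ρ * u3 T Q l z1 z2 ρ * gq T Q z2 z2 ρ)) (Ioi ρ) ρ := by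
  have hD : DD T Q l z1 z2 ρ ≠ 0 :=
    ne_of_gt (lt_of_lt_of_le one_pos (DD_ge z1 z2 hT hQ hl ρ))
  have h11 := sg_deriv hT Q z1 z1 hρ
  have h12 := sg_deriv hT Q z1 z2 hρ
  have h22 := sg_deriv hT Q z2 z2 hρ
  have hDD := (((h11.const_mul (2 * l)).const_add 1).mul ((h22.const_mul (2 * l)).const_add 1)).sub
    ((h12.pow 2).const_mul (4 * l ^ 2))
  have hN := (h12.const_mul (2 * l ^ 2)).neg
  have h := hN.div hDD hD
  refine h.congr_deriv ?_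
  unfold u1 u2 u3
  unfold DD at hD ⊢
  simp only [Pi.mul_apply, Pi.add_apply, Pi.sub_apply, Pi.pow_apply, Pi.neg_apply]
  field_simp
  ring

theorem logDD_deriv (hT : IsC0Semigroup T) (hQ : Q.IsPositive) (hl : 0 ≤ l) {ρ : ℝ} (hρ : 0 ≤ ρ) :
    HasDerivWithinAt (fun r => Real.log (DD T Q l z1 z2 r))
      (2 * (u1 T Q l z1 z2 ρ * gq T Q z1 z1 ρ + 2 * u2 T Q l z1 z2 ρ * gq T Q z1 z2 ρ
        + u3 T Q l z1 z2 ρ * gq T Q z2 z2 ρ)) (Ioi ρ) ρ := by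
  have hD : DD T Q l z1 z2 ρ ≠ 0 :=
    ne_of_gt (lt_of_lt_of_le one_pos (DD_ge z1 z2 hT hQ hl ρ))
  have h11 := sg_deriv hT Q z1 z1 hρ
  have h12 := sg_deriv hT Q z1 z2 hρ
  have h22 := sg_deriv hT Q z2 z2 hρ
  have hDD := (((h11.const_mul (2 * l)).const_add 1).mul ((h22.const_mul (2 * l)).const_add 1)).sub
    ((h12.pow 2).const_mul (4 * l ^ 2))
  have h := hDD.log hD
  refine h.congr_deriv ?_
  unfold u1 u2 u3
  unfold DD at hD ⊢
  simp only [Pi.mul_apply, Pi.add_apply, Pi.sub_apply, Pi.pow_apply, Pi.neg_apply]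
  field_simp
  ring

end Riccati

section Exponent

variable (T : ℝ → H →L[ℝ] H) (Q : H →L[ℝ] H) (l α : ℝ) (z1 z2 a1 a2 : H)

/-- the exponent: `tr (U(ρ) N) + φ(ρ)`, for the operator `X` -/
noncomputable def Hf (X : H →L[ℝ] H) (ρ : ℝ) : ℝ :=
  u1 T Q l z1 z2 ρ * ⟪X (yy T z1 ρ), yy T z1 ρ⟫
    + 2 * u2 T Q l z1 z2 ρ * ⟪X (yy T z1 ρ), yy T z2 ρ⟫
    + u3 T Q l z1 z2 ρ * ⟪X (yy T z2 ρ), yy T z2 ρ⟫
    + α / 2 * Real.log (DD T Q l z1 z2 ρ)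

/-- `2 tr (U N U q)` -/
noncomputable def K1 (X : H →L[ℝ] H) (ρ : ℝ) : ℝ :=
  2 * tr4 (u1 T Q l z1 z2 ρ) (u2 T Q l z1 z2 ρ) (u3 T Q l z1 z2 ρ)
    ⟪X (yy T z1 ρ), yy T z1 ρ⟫ ⟪X (yy T z1 ρ), yy T z2 ρ⟫ ⟪X (yy T z2 ρ), yy T z2 ρ⟫
    (gq T Q z1 z1 ρ) (gq T Q z1 z2 ρ) (gq T Q z2 z2 ρ)

/-- the drift of `tr (U N)` for frozen `ρ` -/
noncomputable def K2 (X : H →L[ℝ] H) (ρ : ℝ) : ℝ :=
  u1 T Q l z1 z2 ρ * (α * gq T Q z1 z1 ρ + ⟪X (yy T a1 ρ), yy T z1 ρ⟫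
      + ⟪X (yy T z1 ρ), yy T a1 ρ⟫)
    + 2 * u2 T Q l z1 z2 ρ * (α * gq T Q z1 z2 ρ + ⟪X (yy T a1 ρ), yy T z2 ρ⟫
      + ⟪X (yy T z1 ρ), yy T a2 ρ⟫)
    + u3 T Q l z1 z2 ρ * (α * gq T Q z2 z2 ρ + ⟪X (yy T a2 ρ), yy T z2 ρ⟫
      + ⟪X (yy T z2 ρ), yy T a2 ρ⟫)

variable {T Q l α z1 z2 a1 a2}

theorem Hf_deriv (hT : IsC0Semigroup T) (hQ : Q.IsPositive) (hl : 0 ≤ l) (X : H →L[ℝ] H)
    (h1 : Gen T z1 a1) (h2 : Gen T z2 a2) {ρ : ℝ} (hρ : 0 ≤ ρ) :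
    HasDerivWithinAt (Hf T Q l α z1 z2 X)
      (K2 T Q l α z1 z2 a1 a2 X ρ - K1 T Q l z1 z2 X ρ) (Ioi ρ) ρ := by
  have d1 := yy_deriv hT h1 hρ
  have d2 := yy_deriv hT h2 hρ
  have X1 : HasDerivWithinAt (fun r => X (yy T z1 r)) (X (yy T a1 ρ)) (Ioi ρ) ρ := by
    have := (X.hasFDerivAt (x := yy T z1 ρ)).comp_hasDerivWithinAt ρ d1
    exact this
  have X2 : HasDerivWithinAt (fun r => X (yy T z2 r)) (X (yy T a2 ρ)) (Ioi ρ) ρ := by
    have := (X.hasFDerivAt (x := yy T z2 ρ)).comp_hasDerivWithinAt ρ d2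
    exact this
  have n11 := HasDerivWithinAt.inner ℝ X1 d1
  have n12 := HasDerivWithinAt.inner ℝ X1 d2
  have n22 := HasDerivWithinAt.inner ℝ X2 d2
  have U1 := u1_deriv z1 z2 hT hQ hl hρ
  have U2 := u2_deriv z1 z2 hT hQ hl hρ
  have U3 := u3_deriv z1 z2 hT hQ hl hρ
  have LD := logDD_deriv z1 z2 hT hQ hl hρ
  have h := (((U1.mul n11).add ((U2.const_mul 2).mul n12)).add (U3.mul n22)).add
    (LD.const_mul (α / 2))
  refine (h.congr_deriv ?_).congr ?_ ?_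
  · unfold K2 K1 tr4
    ring
  · intro r hr
    unfold Hf
    rfl
  · unfold Hf
    rfl

theorem inner_cont2 {T : ℝ → H →L[ℝ] H} (hT : IsC0Semigroup T) {X : ℝ → H →L[ℝ] H}
    (hX : Continuous X) (g h : H) :
    Continuous (fun x : ℝ × ℝ => ⟪X x.2 (yy T g x.1), yy T h x.1⟫) := by
  have c1 : Continuous (fun x : ℝ × ℝ => X x.2 (yy T g x.1)) :=
    (hX.comp continuous_snd).clm_apply ((yy_cont hT g).comp continuous_fst)
  exact c1.inner ((yy_cont hT h).comp continuous_fst)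

theorem K1_cont (hT : IsC0Semigroup T) (hQ : Q.IsPositive) (hl : 0 ≤ l) {X : ℝ → H →L[ℝ] H}
    (hX : Continuous X) : Continuous (fun x : ℝ × ℝ => K1 T Q l z1 z2 (X x.2) x.1) := by
  unfold K1 tr4
  have c1 := (u1_cont z1 z2 hT hQ hl).comp (continuous_fst (X := ℝ) (Y := ℝ))
  have c2 := (u2_cont z1 z2 hT hQ hl).comp (continuous_fst (X := ℝ) (Y := ℝ))
  have c3 := (u3_cont z1 z2 hT hQ hl).comp (continuous_fst (X := ℝ) (Y := ℝ))
  have g1 := (gq_cont hT Q z1 z1).comp (continuous_fst (X := ℝ) (Y := ℝ))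
  have g2 := (gq_cont hT Q z1 z2).comp (continuous_fst (X := ℝ) (Y := ℝ))
  have g3 := (gq_cont hT Q z2 z2).comp (continuous_fst (X := ℝ) (Y := ℝ))
  have i1 := inner_cont2 hT hX z1 z1
  have i2 := inner_cont2 hT hX z1 z2
  have i3 := inner_cont2 hT hX z2 z2
  simp only [Function.comp_def] at c1 c2 c3 g1 g2 g3
  fun_prop

theorem K2_cont (hT : IsC0Semigroup T) (hQ : Q.IsPositive) (hl : 0 ≤ l) {X : ℝ → H →L[ℝ] H}
    (hX : Continuous X) : Continuous (fun x : ℝ × ℝ => K2 T Q l α z1 z2 a1 a2 (X x.2) x.1) := by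
  unfold K2
  have c1 := (u1_cont z1 z2 hT hQ hl).comp (continuous_fst (X := ℝ) (Y := ℝ))
  have c2 := (u2_cont z1 z2 hT hQ hl).comp (continuous_fst (X := ℝ) (Y := ℝ))
  have c3 := (u3_cont z1 z2 hT hQ hl).comp (continuous_fst (X := ℝ) (Y := ℝ))
  have g1 := (gq_cont hT Q z1 z1).comp (continuous_fst (X := ℝ) (Y := ℝ))
  have g2 := (gq_cont hT Q z1 z2).comp (continuous_fst (X := ℝ) (Y := ℝ))
  have g3 := (gq_cont hT Q z2 z2).comp (continuous_fst (X := ℝ) (Y := ℝ))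
  have i1 := inner_cont2 hT hX a1 z1
  have i2 := inner_cont2 hT hX z1 a1
  have i3 := inner_cont2 hT hX a1 z2
  have i4 := inner_cont2 hT hX z1 a2
  have i5 := inner_cont2 hT hX a2 z2
  have i6 := inner_cont2 hT hX z2 a2
  simp only [Function.comp_def] at c1 c2 c3 g1 g2 g3
  fun_prop

theorem Hf_cont (hT : IsC0Semigroup T) (hQ : Q.IsPositive) (hl : 0 ≤ l) (X : H →L[ℝ] H) :
    Continuous (Hf T Q l α z1 z2 X) := by
  unfold Hf
  have c1 := (u1_cont z1 z2 hT hQ hl)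
  have c2 := (u2_cont z1 z2 hT hQ hl)
  have c3 := (u3_cont z1 z2 hT hQ hl)
  have y1 := yy_cont hT z1
  have y2 := yy_cont hT z2
  have i1 : Continuous (fun ρ => ⟪X (yy T z1 ρ), yy T z1 ρ⟫) := (X.continuous.comp y1).inner y1
  have i2 : Continuous (fun ρ => ⟪X (yy T z1 ρ), yy T z2 ρ⟫) := (X.continuous.comp y1).inner y2
  have i3 : Continuous (fun ρ => ⟪X (yy T z2 ρ), yy T z2 ρ⟫) := (X.continuous.comp y2).inner y2
  have i4 : Continuous (fun ρ => Real.log (DD T Q l z1 z2 ρ)) :=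
    (DD_cont z1 z2 hT).log
      (fun ρ => ne_of_gt (lt_of_lt_of_le one_pos (DD_ge z1 z2 hT hQ hl ρ)))
  fun_prop

theorem Hf_int (hT : IsC0Semigroup T) (hQ : Q.IsPositive) (hl : 0 ≤ l) (X : H →L[ℝ] H)
    (h1 : Gen T z1 a1) (h2 : Gen T z2 a2) {r r' : ℝ} (hr : 0 ≤ r) (hrr : r ≤ r') :
    ∫ ρ in r..r', (K2 T Q l α z1 z2 a1 a2 X ρ - K1 T Q l z1 z2 X ρ)
      = Hf T Q l α z1 z2 X r' - Hf T Q l α z1 z2 X r := by
  have k1 := (K1_cont (z1 := z1) (z2 := z2) hT hQ hl (X := fun _ => X) continuous_const).comp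
    (Continuous.prodMk_left (0 : ℝ))
  have k2 := (K2_cont (α := α) (z1 := z1) (z2 := z2) (a1 := a1) (a2 := a2) hT hQ hl
    (X := fun _ => X) continuous_const).comp (Continuous.prodMk_left (0 : ℝ))
  simp only [Function.comp_def] at k1 k2
  refine intervalIntegral.integral_eq_sub_of_hasDeriv_right (Hf_cont hT hQ hl X).continuousOn
    (fun x hx => Hf_deriv hT hQ hl X h1 h2 ?_) ((k2.sub k1).intervalIntegrable _ _)
  rw [min_eq_left hrr] at hx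
  exact hr.trans hx.1.le

/-- lower bound of the exponent -/
theorem Hf_ge (hT : IsC0Semigroup T) (hQ : Q.IsPositive) (hl : 0 ≤ l) {X : H →L[ℝ] H}
    (hX : X.IsPositive) (ρ : ℝ) :
    α / 2 * Real.log (DD T Q l z1 z2 ρ) ≤ Hf T Q l α z1 z2 X ρ := by
  unfold Hf
  have h1 := u1_nonneg z1 z2 hT hQ hl ρ
  have h3 := u3_nonneg z1 z2 hT hQ hl ρ
  have h2 := u_det z1 z2 hT hQ hl ρ
  have n1 := hX.inner_nonneg_left (yy T z1 ρ)
  have n3 := hX.inner_nonneg_left (yy T z2 ρ)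
  have n2 : ⟪X (yy T z1 ρ), yy T z2 ρ⟫ ^ 2
      ≤ ⟪X (yy T z1 ρ), yy T z1 ρ⟫ * ⟪X (yy T z2 ρ), yy T z2 ρ⟫ := by
    set g := yy T z1 ρ
    set h := yy T z2 ρ
    have h1 : ∀ x : ℝ, 0 ≤ ⟪X h, h⟫ * (x * x) + (2 * ⟪X g, h⟫) * x + ⟪X g, g⟫ := by
      intro x
      have h2 := hX.inner_nonneg_left (g + x • h)
      have h3 : ⟪X h, g⟫ = ⟪X g, h⟫ := by
        rw [hX.inner_left_eq_inner_right, real_inner_comm]
      simp only [map_add, map_smul, inner_add_left, inner_add_right, inner_smul_left,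
        inner_smul_right, conj_trivial, h3] at h2
      linarith
    have h3 := discrim_le_zero h1
    unfold discrim at h3
    nlinarith
  set a := u1 T Q l z1 z2 ρ
  set b := u2 T Q l z1 z2 ρ
  set c := u3 T Q l z1 z2 ρ
  set x := ⟪X (yy T z1 ρ), yy T z1 ρ⟫
  set y := ⟪X (yy T z1 ρ), yy T z2 ρ⟫
  set z := ⟪X (yy T z2 ρ), yy T z2 ρ⟫
  have h4 : 0 ≤ a * x + 2 * b * y + c * z := by
    have h5 : (b * y) ^ 2 ≤ (a * x) * (c * z) := by
      calc (b * y) ^ 2 = b ^ 2 * y ^ 2 := by ring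
        _ ≤ (a * c) * (x * z) := mul_le_mul h2 n2 (sq_nonneg y) (mul_nonneg h1 h3)
        _ = (a * x) * (c * z) := by ring
    have h6 : 0 ≤ a * x := mul_nonneg h1 n1
    have h7 : 0 ≤ c * z := mul_nonneg h3 n3
    have h8 : |2 * (b * y)| ≤ a * x + c * z := by
      refine abs_le_of_sq_le_sq ?_ (by linarith)
      nlinarith [sq_nonneg (a * x - c * z)]
    have h9 := (abs_le.1 h8).1
    linarith
  linarith

end Exponent

end Pool.Agent.R977.WI
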